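import Pool.Agent.Helper94.US.Defs
import Pool.Agent.Helper81.Flip.BinArith

/-!
# Binary multiplication, rational numbers, affine forms
-/

set_option autoImplicit false

namespace Pool.Agent.Helper94.US

open Pool.Agent.Helper20.Flip Pool.Agent.Helper94.UR Pool.Agent.Helper96

/-- binary multiplication -/
def mulB (x y : List Bool) : List Bool :=
  sumB ((List.range x.length).map fun i => if x.getD i false then shl i y else [])

theorem val_mulB (x y : List Bool) : val (mulB x y) = val x * val y := by
  unfold mulB
  rw [val_sumB, List.map_map]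
  induction x with
  | nil => simp [val_nil]
  | cons b x ih =>
    rw [List.length_cons, List.range_succ_eq_map, List.map_cons, List.map_map, List.sum_cons,
      val_cons]
    have h1 : (List.map ((val ∘ fun i => if (b :: x).getD i false then shl i y else []) ∘
        Nat.succ) (List.range x.length)).sum =
        2 * (List.map (val ∘ fun i => if x.getD i false then shl i y else [])
          (List.range x.length)).sum := by
      rw [← List.sum_map_mul_left]
      congr 1
      refine List.map_congr_left fun i _ => ?_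
      simp only [Function.comp_apply, List.getD_cons_succ]
      split_ifs
      · rw [val_shl, val_shl, Nat.succ_eq_add_one, pow_succ]
        ring
      · simp [val_nil]
    rw [h1, ih]
    simp only [Function.comp_apply, List.getD_cons_zero]
    cases b
    · simp [val_nil]
      ring
    · simp [val_shl]
      ring

/-- rational numbers as quotients of a difference of natural numbers by a natural number -/
abbrev QC : Type := List Bool × List Bool × List Bool

noncomputable def qval (c : QC) : ℝ := ((val c.1 : ℝ) - val c.2.1) / val c.2.2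

def qok (c : QC) : Prop := val c.2.2 ≠ 0

def qof (r : RatCode) : QC := if r.1 then ([], r.2.1, r.2.2) else (r.2.1, [], r.2.2)
def qadd (c d : QC) : QC :=
  (addB (mulB c.1 d.2.2) (mulB d.1 c.2.2), addB (mulB c.2.1 d.2.2) (mulB d.2.1 c.2.2),
    mulB c.2.2 d.2.2)
def qneg (c : QC) : QC := (c.2.1, c.1, c.2.2)
def qsub (c d : QC) : QC := qadd c (qneg d)
def qmul (c d : QC) : QC :=
  (addB (mulB c.1 d.1) (mulB c.2.1 d.2.1), addB (mulB c.1 d.2.1) (mulB c.2.1 d.1),
    mulB c.2.2 d.2.2)
def qone : QC := ([true], [], [true])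

theorem qval_of (r : RatCode) : qval (qof r) = ratVal r := by
  unfold qval qof ratVal
  split_ifs <;> simp [val_nil] <;> ring

theorem qok_of {r : RatCode} (h : val r.2.2 ≠ 0) : qok (qof r) := by
  unfold qok qof
  split_ifs <;> exact h

theorem qok_add {c d : QC} (hc : qok c) (hd : qok d) : qok (qadd c d) := by
  unfold qok qadd at *
  simp only [val_mulB]
  exact mul_ne_zero hc hd

theorem qok_neg {c : QC} (hc : qok c) : qok (qneg c) := hc

theorem qok_sub {c d : QC} (hc : qok c) (hd : qok d) : qok (qsub c d) := qok_add hc (qok_neg hd)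

theorem qok_mul {c d : QC} (hc : qok c) (hd : qok d) : qok (qmul c d) := by
  unfold qok qmul at *
  simp only [val_mulB]
  exact mul_ne_zero hc hd

theorem qok_one : qok qone := by simp [qok, qone, val_cons, val_nil]

theorem qval_add {c d : QC} (hc : qok c) (hd : qok d) : qval (qadd c d) = qval c + qval d := by
  unfold qok at hc hd
  have hc' : (val c.2.2 : ℝ) ≠ 0 := by exact_mod_cast hc
  have hd' : (val d.2.2 : ℝ) ≠ 0 := by exact_mod_cast hd
  unfold qval qadd
  simp only [val_mulB, val_addB]
  push_cast
  field_simp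
  ring

theorem qval_neg (c : QC) : qval (qneg c) = - qval c := by
  unfold qval qneg
  simp only
  rw [← neg_div]
  ring

theorem qval_sub {c d : QC} (hc : qok c) (hd : qok d) : qval (qsub c d) = qval c - qval d := by
  unfold qsub
  rw [qval_add hc (qok_neg hd), qval_neg]
  ring

theorem qval_mul {c d : QC} (hc : qok c) (hd : qok d) : qval (qmul c d) = qval c * qval d := by
  unfold qok at hc hd
  have hc' : (val c.2.2 : ℝ) ≠ 0 := by exact_mod_cast hc
  have hd' : (val d.2.2 : ℝ) ≠ 0 := by exact_mod_cast hd
  unfold qval qmul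
  simp only [val_mulB, val_addB]
  push_cast
  field_simp
  ring

theorem qval_one : qval qone = 1 := by simp [qval, qone, val_cons, val_nil]

/-! ### affine forms -/

/-- the coefficient one -/
def rone : RatCode := (false, [true], [true])

/-- the term with the index `i` and the coefficient `c` -/
def ent (i : ℕ) (c : QC) : AF := [(i, (false, c.1, c.2.2)), (i, (true, c.2.1, c.2.2))]

/-- the index of the variable with three indices -/
def vi (k i j : ℕ) : ℕ := Nat.pair k (Nat.pair i j) + 1

/-- the variable with three indices -/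
def vr (k i j : ℕ) : AF := [(vi k i j, rone)]

/-- the constant one -/
def onef : AF := [(0, rone)]

def afNeg (f : AF) : AF := f.map fun q => (q.1, (!q.2.1, q.2.2))

/-- the value of the variable or constant with the index `i` -/
noncomputable def vv (v : ℕ → ℝ) (i : ℕ) : ℝ := if i = 0 then 1 else v i

/-- the values of the variables with three indices -/
def w3 (v : ℕ → ℝ) (k i j : ℕ) : ℝ := v (vi k i j)

/-- values of the variables from a function of three indices -/
def n3 (g : ℕ → ℕ → ℕ → ℝ) (n : ℕ) : ℝ := m3' g (n - 1)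
where
  m3' (g : ℕ → ℕ → ℕ → ℝ) (n : ℕ) : ℝ :=
    g (Nat.unpair n).1 (Nat.unpair (Nat.unpair n).2).1 (Nat.unpair (Nat.unpair n).2).2

@[simp] theorem w3_n3 (g : ℕ → ℕ → ℕ → ℝ) (k i j : ℕ) : w3 (n3 g) k i j = g k i j := by
  simp [w3, n3, n3.m3', vi, Nat.unpair_pair]

section
variable (v : ℕ → ℝ)

@[simp] theorem vv_zero : vv v 0 = 1 := rfl
@[simp] theorem vv_vi (k i j : ℕ) : vv v (vi k i j) = w3 v k i j := by
  simp [vv, vi, w3]

theorem ratVal_rone : ratVal rone = 1 := by simp [ratVal, rone, val_cons, val_nil]

@[simp] theorem afVal_nil : afVal v [] = 0 := rfl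
@[simp] theorem afVal_append (f g : AF) : afVal v (f ++ g) = afVal v f + afVal v g := by
  simp [afVal]
theorem afVal_cons (q : ℕ × RatCode) (f : AF) :
    afVal v (q :: f) = ratVal q.2 * vv v q.1 + afVal v f := by
  simp [afVal, vv]
@[simp] theorem afVal_neg (f : AF) : afVal v (afNeg f) = - afVal v f := by
  induction f with
  | nil => simp [afNeg]
  | cons q f ih =>
    have h1 : afNeg (q :: f) = (q.1, (!q.2.1, q.2.2)) :: afNeg f := rfl
    rw [h1, afVal_cons, afVal_cons, ih]
    have h2 : ratVal (!q.2.1, q.2.2) = - ratVal q.2 := by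
      unfold ratVal
      cases q.2.1 <;> simp
    simp only [h2]
    ring
@[simp] theorem afVal_ent (i : ℕ) (c : QC) : afVal v (ent i c) = qval c * vv v i := by
  unfold ent
  rw [afVal_cons, afVal_cons, afVal_nil]
  unfold ratVal qval
  simp only [if_true, Bool.false_eq_true, if_false]
  ring
@[simp] theorem afVal_vr (k i j : ℕ) : afVal v (vr k i j) = w3 v k i j := by
  unfold vr
  rw [afVal_cons, afVal_nil, ratVal_rone, vv_vi]
  ring
@[simp] theorem afVal_onef : afVal v onef = 1 := by
  unfold onef
  rw [afVal_cons, afVal_nil, ratVal_rone, vv_zero]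
  ring

/-- the sum of the values of a family of affine forms -/
theorem afVal_flatMap {α : Type*} (l : List α) (f : α → AF) :
    afVal v (l.flatMap f) = (l.map fun a => afVal v (f a)).sum := by
  induction l with
  | nil => rfl
  | cons a l ih => rw [List.flatMap_cons, afVal_append, ih, List.map_cons, List.sum_cons]

end

/-- the affine form is nonnegative -/
def lin (h : AF) : Cone := ([], [], h, onef)

/-- the affine form is zero -/
def eqz (h : AF) : List Cone := [lin h, lin (afNeg h)]

/-- the affine form is positive, by means of the auxiliary variable `(k, i, j)` -/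
def posC (h : AF) (k i j : ℕ) : Cone := (onef, [], h, vr k i j)

section
variable (v : ℕ → ℝ)

@[simp] theorem holds_lin (h : AF) : (lin h).Holds v ↔ 0 ≤ afVal v h := by
  unfold lin Cone.Holds
  simp only [afVal_nil, afVal_onef]
  constructor
  · rintro ⟨-, h1, -⟩
    exact h1
  · intro h1
    exact ⟨by nlinarith, h1, by norm_num⟩

@[simp] theorem holds_eqz (h : AF) : (∀ c ∈ eqz h, Cone.Holds v c) ↔ afVal v h = 0 := by
  unfold eqz
  simp only [List.mem_cons, List.not_mem_nil, or_false, forall_eq_or_imp, forall_eq, holds_lin,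
    afVal_neg]
  constructor
  · rintro ⟨h1, h2⟩
    linarith
  · intro h1
    exact ⟨h1.ge, by linarith⟩

theorem holds_posC (h : AF) (k i j : ℕ) : (posC h k i j).Holds v ↔
    1 ≤ afVal v h * w3 v k i j ∧ 0 ≤ afVal v h ∧ 0 ≤ w3 v k i j := by
  unfold posC Cone.Holds
  simp

theorem pos_of_posC {h : AF} {k i j : ℕ} (hc : (posC h k i j).Holds v) : 0 < afVal v h := by
  rw [holds_posC] at hc
  obtain ⟨h1, h2, h3⟩ := hc
  rcases eq_or_lt_of_le h2 with h4 | h4
  · rw [← h4] at h1
    norm_num at h1
  · exact h4

theorem posC_of_pos {h : AF} {k i j : ℕ} (hp : 0 < afVal v h)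
    (hw : w3 v k i j = (afVal v h)⁻¹) : (posC h k i j).Holds v := by
  rw [holds_posC, hw]
  exact ⟨by rw [mul_inv_cancel₀ hp.ne'], hp.le, (inv_pos.2 hp).le⟩

end

/-! ### denominators -/

theorem okAF_nil : okAF [] := by simp [okAF]
theorem okAF_append {f g : AF} (hf : okAF f) (hg : okAF g) : okAF (f ++ g) := by
  intro q hq
  rcases List.mem_append.1 hq with h | h
  · exact hf q h
  · exact hg q h
theorem okAF_neg {f : AF} (hf : okAF f) : okAF (afNeg f) := by
  intro q hq
  unfold afNeg at hq
  obtain ⟨p, hp, rfl⟩ := List.mem_map.1 hq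
  exact hf p hp
theorem okAF_ent {c : QC} (i : ℕ) (hc : qok c) : okAF (ent i c) := by
  intro q hq
  unfold ent at hq
  simp only [List.mem_cons, List.not_mem_nil, or_false] at hq
  rcases hq with rfl | rfl <;> exact hc
theorem okAF_vr (k i j : ℕ) : okAF (vr k i j) := by
  intro q hq
  unfold vr at hq
  simp only [List.mem_singleton] at hq
  subst hq
  simp [rone, val_cons]
theorem okAF_onef : okAF onef := by
  intro q hq
  unfold onef at hq
  simp only [List.mem_singleton] at hq
  subst hq
  simp [rone, val_cons]
theorem okAF_flatMap {α : Type*} {l : List α} {f : α → AF} (h : ∀ a ∈ l, okAF (f a)) :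
    okAF (l.flatMap f) := by
  intro q hq
  obtain ⟨a, ha, h1⟩ := List.mem_flatMap.1 hq
  exact h a ha q h1
theorem okCone_lin {h : AF} (hh : okAF h) : okCone (lin h) :=
  ⟨okAF_nil, okAF_nil, hh, okAF_onef⟩
theorem okCone_eqz {h : AF} (hh : okAF h) : ∀ c ∈ eqz h, okCone c := by
  intro c hc
  unfold eqz at hc
  simp only [List.mem_cons, List.not_mem_nil, or_false] at hc
  rcases hc with rfl | rfl
  · exact okCone_lin hh
  · exact okCone_lin (okAF_neg hh)
theorem okCone_posC {h : AF} (hh : okAF h) (k i j : ℕ) : okCone (posC h k i j) :=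
  ⟨okAF_onef, okAF_nil, hh, okAF_vr k i j⟩

/-! ### polynomial time -/

section
variable {α : Type} [Enc α]

@[fun_prop]
theorem Poly.mulB {f g : α → List Bool} (hf : Poly f) (hg : Poly g) :
    Poly (fun a => mulB (f a) (g a)) := by
  unfold US.mulB
  fun_prop

@[fun_prop]
theorem Poly.qof {f : α → RatCode} (hf : Poly f) : Poly (fun a => qof (f a)) := by
  unfold US.qof
  fun_prop

@[fun_prop]
theorem Poly.qadd {f g : α → QC} (hf : Poly f) (hg : Poly g) :
    Poly (fun a => qadd (f a) (g a)) := by
  unfold US.qadd
  fun_prop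

@[fun_prop]
theorem Poly.qneg {f : α → QC} (hf : Poly f) : Poly (fun a => qneg (f a)) := by
  unfold US.qneg
  fun_prop

@[fun_prop]
theorem Poly.qsub {f g : α → QC} (hf : Poly f) (hg : Poly g) :
    Poly (fun a => qsub (f a) (g a)) := by
  unfold US.qsub
  fun_prop

@[fun_prop]
theorem Poly.qmul {f g : α → QC} (hf : Poly f) (hg : Poly g) :
    Poly (fun a => qmul (f a) (g a)) := by
  unfold US.qmul
  fun_prop

@[fun_prop]
theorem Poly.ent {f : α → ℕ} {g : α → QC} (hf : Poly f) (hg : Poly g) :
    Poly (fun a => ent (f a) (g a)) := by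
  unfold US.ent
  fun_prop

@[fun_prop]
theorem Poly.natPair' {f g : α → ℕ} (hf : Poly f) (hg : Poly g) :
    Poly (fun a => Nat.pair (f a) (g a)) := by
  unfold Nat.pair
  fun_prop

@[fun_prop]
theorem Poly.vi {f g h : α → ℕ} (hf : Poly f) (hg : Poly g) (hh : Poly h) :
    Poly (fun a => vi (f a) (g a) (h a)) := by
  unfold US.vi
  fun_prop

@[fun_prop]
theorem Poly.vr {f g h : α → ℕ} (hf : Poly f) (hg : Poly g) (hh : Poly h) :
    Poly (fun a => vr (f a) (g a) (h a)) := by
  unfold US.vr
  fun_prop

@[fun_prop]
theorem Poly.afNeg {f : α → AF} (hf : Poly f) : Poly (fun a => afNeg (f a)) := by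
  unfold US.afNeg
  fun_prop

@[fun_prop]
theorem Poly.lin {f : α → AF} (hf : Poly f) : Poly (fun a => lin (f a)) := by
  unfold US.lin
  fun_prop

@[fun_prop]
theorem Poly.eqz {f : α → AF} (hf : Poly f) : Poly (fun a => eqz (f a)) := by
  unfold US.eqz
  fun_prop

@[fun_prop]
theorem Poly.posC {f : α → AF} {g h k : α → ℕ} (hf : Poly f) (hg : Poly g) (hh : Poly h)
    (hk : Poly k) : Poly (fun a => posC (f a) (g a) (h a) (k a)) := by
  unfold US.posC
  fun_prop

end

end Pool.Agent.Helper94.US
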