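import Pool.Agent.Helper94.US.Arith
import Pool.Agent.Helper94.UR.Gen

/-!
# The second-order cone program of an instance and a guess
-/

set_option autoImplicit false

namespace Pool.Agent.Helper94.US

open Pool.Agent.Helper20.Flip Pool.Agent.Helper94.UR Pool.Agent.Helper96

/-! ### the guess -/

/-- the bit of the guess with three indices -/
def bt (y : List Bool) (k i j : ℕ) : Bool := y.getD (Nat.pair k (Nat.pair i j)) false

/-- the zone constraints for the disk `l` and the edge `a` -/
def zoneS (n l a : ℕ) (b b' : Bool) : List Con :=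
  if b then [(if b' then 4 else 5, l, a)]
  else if b' then [(1, l, nx n a), (3, l, a)] else [(1, l, a), (2, l, a)]

/-- all constraints: pairs of disks, zones (bits of the kinds 0 and 1), cells (bits of kind 2) -/
def consS (n m : ℕ) (y : List Bool) : List Con :=
  (List.range m).flatMap (fun i => (List.range i).map fun j => (0, i, j)) ++
  (List.range m).flatMap (fun l => (List.range n).flatMap fun a =>
    zoneS n l a (bt y 0 l a) (bt y 1 l a) ++ [((if bt y 2 l a then 6 else 7), l, a)])

/-- the selected indices (bits of kind 6) -/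
def selS (n m : ℕ) (y : List Bool) : List ℕ :=
  (List.range (consS n m y).length).filter fun k => bt y 6 k 0

/-- the other indices -/
def cselS (n m : ℕ) (y : List Bool) : List ℕ :=
  (List.range (consS n m y).length).filter fun k => !bt y 6 k 0

/-- the edge `a` goes to the right over the abscissa (`τ a`: the vertex `a` is to the left) -/
def rgt (n : ℕ) (τ : ℕ → Bool) (a : ℕ) : Bool := τ a && !τ (nx n a)

/-- the edge `a` goes to the left over the abscissa -/
def lft (n : ℕ) (τ : ℕ → Bool) (a : ℕ) : Bool := !τ a && τ (nx n a)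

/-- the edge `a` is above the point (`σ a`: the point is to the left of the edge `a`) -/
def upB (n : ℕ) (σ τ : ℕ → Bool) (a : ℕ) : Bool := (rgt n τ a && !σ a) || (lft n τ a && σ a)

/-- the index coded by the number of bits -/
def cnt (n : ℕ) (y : List Bool) (k l : ℕ) : ℕ := ((List.range n).filter fun a => bt y k l a).length

/-- the combinatorial part of the inside test -/
def bOk (n : ℕ) (σ τ : ℕ → Bool) (lo hi : ℕ) : Bool :=
  (decide (lo < n) && decide (hi < n)) && ((upB n σ τ lo && upB n σ τ hi) &&
    (rgt n τ lo == rgt n τ hi))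

def okB (n m : ℕ) (y : List Bool) : Bool :=
  (List.range m).all fun l => bOk n (bt y 2 l) (bt y 3 l) (cnt n y 4 l) (cnt n y 5 l)

/-! ### the numbers -/

/-- a default vertex with nonzero denominators -/
def dfl : RatCode × RatCode := ((false, [], [true]), (false, [], [true]))

def vxq (P : List (RatCode × RatCode)) (a : ℕ) : QC := qof (P.getD a dfl).1
def vyq (P : List (RatCode × RatCode)) (a : ℕ) : QC := qof (P.getD a dfl).2
def dxq (P : List (RatCode × RatCode)) (a : ℕ) : QC := qsub (vxq P (nx P.length a)) (vxq P a)
def dyq (P : List (RatCode × RatCode)) (a : ℕ) : QC := qsub (vyq P (nx P.length a)) (vyq P a)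

/-- linear part of a constraint -/
def αq (P : List (RatCode × RatCode)) (k a : ℕ) : QC × QC :=
  if k = 2 then (qneg (dxq P a), qneg (dyq P a))
  else if k = 3 then (dxq P a, dyq P a)
  else if k = 4 ∨ k = 6 then (qneg (dyq P a), dxq P a)
  else (dyq P a, qneg (dxq P a))

/-- reference point of a constraint -/
def rq (P : List (RatCode × RatCode)) (k a : ℕ) : QC × QC :=
  if k = 3 then (vxq P (nx P.length a), vyq P (nx P.length a)) else (vxq P a, vyq P a)

/-- scalar product of the linear part and the reference point -/
def αrq (P : List (RatCode × RatCode)) (k a : ℕ) : QC :=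
  qadd (qmul (αq P k a).1 (rq P k a).1) (qmul (αq P k a).2 (rq P k a).2)

/-- four times an affine form -/
def af4 (f : AF) : AF := (f ++ f) ++ (f ++ f)

/-- the cross product of the edge `a` with the point with the coordinates `ix`, `iy` -/
def crossF (P : List (RatCode × RatCode)) (a ix iy : ℕ) : AF :=
  (ent iy (dxq P a) ++ ent ix (qneg (dyq P a))) ++
    ent 0 (qsub (qmul (dyq P a) (vxq P a)) (qmul (dxq P a) (vyq P a)))

/-! ### the certificate: variables of the kinds less than 30 -/

/-- the lengths of the edges, from above -/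
def lenL (P : List (RatCode × RatCode)) : List Cone :=
  (List.range P.length).map fun a => (vr 1 a 0, [],
    ent 0 (qadd (qmul (dxq P a) (dxq P a)) (qmul (dyq P a) (dyq P a))), onef)

/-- the constraint `c` is nonpositive at the centres (kind 3) -/
def primC (P : List (RatCode × RatCode)) (c : Con) : Cone :=
  if c.1 = 0 then (vr 3 c.2.1 0 ++ afNeg (vr 3 c.2.2 0), vr 3 c.2.1 1 ++ afNeg (vr 3 c.2.2 1),
    af4 onef, onef)
  else if c.1 = 1 then (vr 3 c.2.1 0 ++ ent 0 (qneg (vxq P c.2.2)),
    vr 3 c.2.1 1 ++ ent 0 (qneg (vyq P c.2.2)), onef, onef)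
  else lin ((if c.1 = 4 ∨ c.1 = 5 then vr 1 c.2.2 0 else []) ++
    (afNeg (ent (vi 3 c.2.1 0) (αq P c.1 c.2.2).1 ++ ent (vi 3 c.2.1 1) (αq P c.1 c.2.2).2) ++
      ent 0 (αrq P c.1 c.2.2)))

/-- the sum of the squares is at most `t` -/
def sqL (m : ℕ) : List Cone :=
  ((List.range m).map fun l => (vr 3 l 0, vr 3 l 1, vr 8 l 0, onef)) ++
    [lin (vr 9 0 0 ++ afNeg ((List.range m).flatMap fun l => vr 8 l 0))]

/-- contribution of the constraint `c` with the index `k` to the linear equation of the disk `l`,
in the dual certificate with the index `d`; `cmp` is the coordinate -/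
def dGF (P : List (RatCode × RatCode)) (c : Con) (d k l : ℕ) (cmp : Bool) : AF :=
  if c.1 = 0 then
    (if l = c.2.1 then vr (if cmp then 12 else 13) d k ++ vr (if cmp then 12 else 13) d k
      else if l = c.2.2 then
        afNeg (vr (if cmp then 12 else 13) d k ++ vr (if cmp then 12 else 13) d k)
      else [])
  else if l = c.2.1 then
    (if c.1 = 1 then vr (if cmp then 12 else 13) d k ++ vr (if cmp then 12 else 13) d k
      else ent (vi 10 d k) (if cmp then (αq P c.1 c.2.2).1 else (αq P c.1 c.2.2).2))
  else []

/-- contribution of the constraint to the bound -/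
def dWF (P : List (RatCode × RatCode)) (c : Con) (d k : ℕ) : AF :=
  if c.1 = 0 then vr 11 d k ++ af4 (vr 10 d k)
  else if c.1 = 1 then (vr 11 d k ++ vr 10 d k) ++
    ((ent (vi 12 d k) (vxq P c.2.2) ++ ent (vi 13 d k) (vyq P c.2.2)) ++
      (ent (vi 12 d k) (vxq P c.2.2) ++ ent (vi 13 d k) (vyq P c.2.2)))
  else ent (vi 10 d k) (αrq P c.1 c.2.2) ++ (if c.1 = 4 ∨ c.1 = 5 then vr 14 d k else [])

/-- the cones of a multiplier -/
def mulL (P : List (RatCode × RatCode)) (c : Con) (d k : ℕ) : List Cone :=
  [lin (vr 10 d k)] ++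
    ((if c.1 ≤ 1 then [(vr 12 d k, vr 13 d k, vr 10 d k, vr 11 d k)] else []) ++
      (if c.1 = 4 ∨ c.1 = 5 then [(ent (vi 10 d k) (dxq P c.2.2), ent (vi 10 d k) (dyq P c.2.2),
        vr 14 d k, vr 14 d k)] else []))

/-- the dual certificate with the index `d` for the set `S` of indices, with the bound `T` -/
def dualL (P : List (RatCode × RatCode)) (m : ℕ) (Z : List Con) (S : List ℕ) (d : ℕ) (T : AF) :
    List Cone :=
  ((List.range m).map fun l => (vr 16 d l, vr 17 d l, vr 15 d l, onef)) ++
  (S.flatMap (fun k => mulL P (Z.getD k default) d k) ++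
  ((List.range m).flatMap (fun l =>
    eqz ((vr 16 d l ++ vr 16 d l) ++ S.flatMap fun k => dGF P (Z.getD k default) d k l true) ++
    eqz ((vr 17 d l ++ vr 17 d l) ++ S.flatMap fun k => dGF P (Z.getD k default) d k l false)) ++
  [lin (afNeg ((List.range m).flatMap fun l => vr 15 d l) ++
    (afNeg (S.flatMap fun k => dWF P (Z.getD k default) d k) ++ afNeg T))]))

/-- the certificate -/
def certL (P : List (RatCode × RatCode)) (m : ℕ) (y : List Bool) : List Cone :=
  (lenL P ++ ((selS P.length m y).map (fun k => primC P ((consS P.length m y).getD k default)) ++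
    sqL m)) ++
  ((dualL P m (consS P.length m y) (selS P.length m y) 0 (vr 9 0 0) ++
    (selS P.length m y).map fun k => posC (vr 10 0 k) 18 0 k) ++
  (cselS P.length m y).flatMap fun k =>
    dualL P m (consS P.length m y) (k :: selS P.length m y) (k + 1) (vr 19 (k + 1) 0) ++
      [posC (vr 19 (k + 1) 0 ++ afNeg (vr 9 0 0)) 20 (k + 1) 0])

/-! ### cells: variables of the kinds from 30 to 39 -/

def cellL (P : List (RatCode × RatCode)) (m : ℕ) (y : List Bool) : List Cone :=
  (List.range m).flatMap fun l =>
    (List.range P.length).flatMap (fun a =>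
      [posC (if bt y 2 l a then crossF P a (vi 30 l 0) (vi 30 l 1)
          else afNeg (crossF P a (vi 30 l 0) (vi 30 l 1))) 33 l a,
        posC (if bt y 3 l a then vr 30 l 0 ++ ent 0 (qneg (vxq P a))
          else ent 0 (vxq P a) ++ afNeg (vr 30 l 0)) 34 l a]) ++
    ((eqz (crossF P (cnt P.length y 4 l) (vi 30 l 0) (vi 31 l 0)) ++
      eqz (crossF P (cnt P.length y 5 l) (vi 30 l 0) (vi 32 l 0))) ++
    (List.range P.length).flatMap fun e =>
      if upB P.length (bt y 2 l) (bt y 3 l) e then
        (if rgt P.length (bt y 3 l) e then [lin (afNeg (crossF P e (vi 30 l 0) (vi 31 l 0))),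
          lin (crossF P e (vi 30 l 0) (vi 32 l 0))]
        else [lin (crossF P e (vi 30 l 0) (vi 31 l 0)),
          lin (afNeg (crossF P e (vi 30 l 0) (vi 32 l 0)))])
      else [])

/-! ### simple polygons: variables of the kinds from 40 -/

/-- the affine function with the coefficients `(41, i, 0)`, `(41, i, 1)`, `(41, i, 2)` at a vertex,
minus one -/
def affF (P : List (RatCode × RatCode)) (i a : ℕ) : AF :=
  (ent (vi 41 i 0) (vxq P a) ++ ent (vi 41 i 1) (vyq P a)) ++ vr 41 i 2

/-- the linear part at the difference of two vertices -/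
def linF (P : List (RatCode × RatCode)) (i a b : ℕ) : AF :=
  ent (vi 41 i 0) (qsub (vxq P a) (vxq P b)) ++ ent (vi 41 i 1) (qsub (vyq P a) (vyq P b))

/-- certificate for the pair of edges `a`, `b` -/
def sepL (P : List (RatCode × RatCode)) (a b : ℕ) : List Cone :=
  if a = b then []
  else if a = nx P.length b then []
  else if b = nx P.length a then
    [lin (linF P (Nat.pair a b) a b ++ afNeg onef),
      lin (afNeg (linF P (Nat.pair a b) (nx P.length b) b))]
  else
    [lin (affF P (Nat.pair a b) a ++ afNeg onef),
      lin (affF P (Nat.pair a b) (nx P.length a) ++ afNeg onef),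
      lin (afNeg (affF P (Nat.pair a b) b ++ onef)),
      lin (afNeg (affF P (Nat.pair a b) (nx P.length b) ++ onef))]

def simL (P : List (RatCode × RatCode)) : List Cone :=
  (List.range P.length).map (fun a => lin ((ent (vi 40 a 0) (qneg (dxq P a)) ++
    ent (vi 40 a 1) (qneg (dyq P a))) ++ afNeg onef)) ++
  (List.range P.length).flatMap fun a => (List.range P.length).flatMap fun b => sepL P a b

/-- the second-order cone program -/
def sysL (P : List (RatCode × RatCode)) (m : ℕ) (y : List Bool) : List Cone :=
  certL P m y ++ (cellL P m y ++ simL P)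

end Pool.Agent.Helper94.US
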