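import Pool.Agent.Helper94.US.Cells
import Pool.Agent.Helper94.US.Gen
import Pool.Agent.Helper94.UR.SemIns

/-!
# The cell of a centre, with signs
-/

set_option autoImplicit false

namespace Pool.Agent.Helper94.US

open Pool.Agent.Helper20.Flip Pool.Agent.Helper94.UR Pool.Agent.Helper97.UDP

/-- The point `p` has the signs `σ` (`true`: to the left of the edge) and `τ` (`true`: the vertex is
to the left of `p`), and `(p.1, y)`, `(p.1, y')` are on the lines of the edges `lo`, `hi`, and they
are below (above) all the edges which are above `p`. -/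
def CellR (n : ℕ) (V : ℕ → Pt) (σ τ : ℕ → Bool) (lo hi : ℕ) (p : Pt) (y y' : ℝ) : Prop :=
  (∀ a < n, (σ a = true → 0 < cross (V a) (V (nx n a)) p) ∧
    (σ a = false → cross (V a) (V (nx n a)) p < 0)) ∧
  (∀ a < n, (τ a = true → (V a).1 < p.1) ∧ (τ a = false → p.1 < (V a).1)) ∧
  cross (V lo) (V (nx n lo)) (p.1, y) = 0 ∧ cross (V hi) (V (nx n hi)) (p.1, y') = 0 ∧
  ∀ e < n, upB n σ τ e = true →
    (rgt n τ e = true → cross (V e) (V (nx n e)) (p.1, y) ≤ 0 ∧
      0 ≤ cross (V e) (V (nx n e)) (p.1, y')) ∧
    (rgt n τ e = false → 0 ≤ cross (V e) (V (nx n e)) (p.1, y) ∧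
      cross (V e) (V (nx n e)) (p.1, y') ≤ 0)

private theorem zcast {n : ℕ} (hn : n ≠ 0) (i : ZMod n) : ∃ a < n, (a : ZMod n) = i := by
  have : NeZero n := ⟨hn⟩
  exact ⟨i.val, ZMod.val_lt i, ZMod.natCast_zmod_val i⟩

private theorem cr_eq {P : List (RatCode × RatCode)} {a : ℕ} (ha : a < P.length) (q : Pt) :
    cross (polygon P (a : ZMod P.length)) (polygon P ((a : ZMod P.length) + 1)) q =
      cross (vert P a) (vert P (nx P.length a)) q := by
  rw [polygon_vert ha, polygon_nx ha]

section signs

variable {P : List (RatCode × RatCode)} {σ τ : ℕ → Bool} {p : Pt}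
  (hσ : ∀ a < P.length, (σ a = true → 0 < cross (vert P a) (vert P (nx P.length a)) p) ∧
    (σ a = false → cross (vert P a) (vert P (nx P.length a)) p < 0))
  (hτ : ∀ a < P.length, (τ a = true → (vert P a).1 < p.1) ∧ (τ a = false → p.1 < (vert P a).1))
  {a : ℕ} (ha : a < P.length)

include hτ ha in
private theorem rgt_pos (h : rgt P.length τ a = true) :
    (polygon P (a : ZMod P.length)).1 < p.1 ∧ p.1 < (polygon P ((a : ZMod P.length) + 1)).1 := by
  unfold rgt at h
  rw [Bool.and_eq_true, Bool.not_eq_true'] at h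
  rw [polygon_vert ha, polygon_nx ha]
  exact ⟨(hτ a ha).1 h.1, (hτ _ (nx_lt ha)).2 h.2⟩

include hτ ha in
private theorem lft_neg (h : lft P.length τ a = true) :
    (polygon P ((a : ZMod P.length) + 1)).1 < p.1 ∧ p.1 < (polygon P (a : ZMod P.length)).1 := by
  unfold lft at h
  rw [Bool.and_eq_true, Bool.not_eq_true'] at h
  rw [polygon_vert ha, polygon_nx ha]
  exact ⟨(hτ _ (nx_lt ha)).1 h.2, (hτ a ha).2 h.1⟩

include hτ ha in
private theorem rgt_of (h : (polygon P (a : ZMod P.length)).1 < p.1 ∧
    p.1 < (polygon P ((a : ZMod P.length) + 1)).1) : rgt P.length τ a = true := by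
  rw [polygon_vert ha, polygon_nx ha] at h
  unfold rgt
  rw [Bool.and_eq_true, Bool.not_eq_true']
  constructor
  · by_contra h1
    have := (hτ a ha).2 (by simpa using h1)
    linarith [h.1]
  · by_contra h1
    have := (hτ _ (nx_lt ha)).1 (by simpa using h1)
    linarith [h.2]

include hτ ha in
private theorem lft_of (h : (polygon P ((a : ZMod P.length) + 1)).1 < p.1 ∧
    p.1 < (polygon P (a : ZMod P.length)).1) : lft P.length τ a = true := by
  rw [polygon_vert ha, polygon_nx ha] at h
  unfold lft
  rw [Bool.and_eq_true, Bool.not_eq_true']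
  constructor
  · by_contra h1
    have := (hτ a ha).1 (by simpa using h1)
    linarith [h.2]
  · by_contra h1
    have := (hτ _ (nx_lt ha)).2 (by simpa using h1)
    linarith [h.1]

private theorem not_both {n : ℕ} {τ : ℕ → Bool} {a : ℕ} (h : lft n τ a = true) :
    rgt n τ a = false := by
  unfold lft at h
  unfold rgt
  rw [Bool.and_eq_true, Bool.not_eq_true'] at h
  rw [h.1, Bool.false_and]

include hσ hτ ha in
private theorem above_iff :
    Above (polygon P) (a : ZMod P.length) p ↔ upB P.length σ τ a = true := by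
  have key : ∀ q : Pt, (polygon P ((a : ZMod P.length) + 1)).1 -
      (polygon P (a : ZMod P.length)).1 ≠ 0 → cross (vert P a) (vert P (nx P.length a)) q =
      ((polygon P ((a : ZMod P.length) + 1)).1 - (polygon P (a : ZMod P.length)).1) *
        (q.2 - hgt (polygon P) (a : ZMod P.length) q.1) := by
    intro q hD
    rw [← cr_eq ha, cross_eq hD]
  unfold upB
  rw [Bool.or_eq_true, Bool.and_eq_true, Bool.and_eq_true, Bool.not_eq_true']
  constructor
  · rintro ⟨h1 | h1, h2⟩
    · have hD : 0 < (polygon P ((a : ZMod P.length) + 1)).1 -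
        (polygon P (a : ZMod P.length)).1 := by linarith [h1.1, h1.2]
      have h3 := key p hD.ne'
      left
      refine ⟨rgt_of hτ ha h1, ?_⟩
      by_contra h4
      have h5 := (hσ a ha).1 (by simpa using h4)
      rw [h3] at h5
      nlinarith
    · have hD : (polygon P ((a : ZMod P.length) + 1)).1 -
        (polygon P (a : ZMod P.length)).1 < 0 := by linarith [h1.1, h1.2]
      have h3 := key p hD.ne
      right
      refine ⟨lft_of hτ ha h1, ?_⟩
      by_contra h4
      have h5 := (hσ a ha).2 (by simpa using h4)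
      rw [h3] at h5
      nlinarith
  · rintro (⟨h1, h2⟩ | ⟨h1, h2⟩)
    · have h3 := rgt_pos hτ ha h1
      have hD : 0 < (polygon P ((a : ZMod P.length) + 1)).1 -
        (polygon P (a : ZMod P.length)).1 := by linarith [h3.1, h3.2]
      refine ⟨Or.inl h3, ?_⟩
      have h4 := (hσ a ha).2 h2
      rw [key p hD.ne'] at h4
      by_contra h5
      push Not at h5
      have : 0 ≤ ((polygon P ((a : ZMod P.length) + 1)).1 - (polygon P (a : ZMod P.length)).1) *
        (p.2 - hgt (polygon P) (a : ZMod P.length) p.1) := mul_nonneg hD.le (by linarith)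
      linarith
    · have h3 := lft_neg hτ ha h1
      have hD : (polygon P ((a : ZMod P.length) + 1)).1 -
        (polygon P (a : ZMod P.length)).1 < 0 := by linarith [h3.1, h3.2]
      refine ⟨Or.inr h3, ?_⟩
      have h4 := (hσ a ha).1 h2
      rw [key p hD.ne] at h4
      by_contra h5
      push Not at h5
      have : ((polygon P ((a : ZMod P.length) + 1)).1 - (polygon P (a : ZMod P.length)).1) *
        (p.2 - hgt (polygon P) (a : ZMod P.length) p.1) ≤ 0 :=
        mul_nonpos_of_nonpos_of_nonneg hD.le (by linarith)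
      linarith

include hσ in
private theorem cross_ne (hn : P.length ≠ 0) (i : ZMod P.length) :
    cross (polygon P i) (polygon P (i + 1)) p ≠ 0 := by
  obtain ⟨a, ha, rfl⟩ := zcast hn i
  rw [cr_eq ha]
  by_cases h : σ a = true
  · exact ((hσ a ha).1 h).ne'
  · exact ((hσ a ha).2 (by simpa using h)).ne

include hτ in
private theorem gen_of (hn : P.length ≠ 0) : Gen (polygon P) p := by
  intro i
  obtain ⟨a, ha, rfl⟩ := zcast hn i
  rw [polygon_vert ha]
  by_cases h : τ a = true
  · exact ((hτ a ha).1 h).ne
  · exact ((hτ a ha).2 (by simpa using h)).ne'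

end signs

/-- a point with a certificate is in the region -/
theorem cellR_sound {P : List (RatCode × RatCode)} (hV : IsSimple (polygon P)) {σ τ : ℕ → Bool}
    {lo hi : ℕ} (hb : bOk P.length σ τ lo hi = true) {p : Pt} {y y' : ℝ}
    (h : CellR P.length (vert P) σ τ lo hi p y y') : p ∈ region (polygon P) := by
  obtain ⟨hσ, hτ, hy, hy', he⟩ := h
  have hn : P.length ≠ 0 := by have := hV.1; omega
  unfold bOk at hb
  rw [Bool.and_eq_true, Bool.and_eq_true, Bool.and_eq_true, Bool.and_eq_true,
    decide_eq_true_eq, decide_eq_true_eq, beq_iff_eq] at hb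
  obtain ⟨⟨hlo, hhi⟩, ⟨hul, huh⟩, hr⟩ := hb
  have hpc : p ∉ curve (polygon P) := not_curve_of_cross hV (cross_ne hσ hn)
  rw [region_iff_ins hV hpc (gen_of hτ hn)]
  have hal := (above_iff hσ hτ hlo).2 hul
  have hah := (above_iff hσ hτ hhi).2 huh
  have hD : ∀ e < P.length, upB P.length σ τ e = true →
      (rgt P.length τ e = true ∧ 0 < (polygon P ((e : ZMod P.length) + 1)).1 -
        (polygon P (e : ZMod P.length)).1) ∨
      (rgt P.length τ e = false ∧ (polygon P ((e : ZMod P.length) + 1)).1 -
        (polygon P (e : ZMod P.length)).1 < 0) := by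
    intro e he' hu
    unfold upB at hu
    rw [Bool.or_eq_true, Bool.and_eq_true, Bool.and_eq_true] at hu
    rcases hu with hu | hu
    · left
      have := rgt_pos hτ he' hu.1
      exact ⟨hu.1, by linarith [this.1, this.2]⟩
    · right
      have := lft_neg hτ he' hu.1
      exact ⟨not_both hu.1, by linarith [this.1, this.2]⟩
  have hyl : y = hgt (polygon P) (lo : ZMod P.length) p.1 := by
    rw [← cr_eq hlo] at hy
    have hne : (polygon P ((lo : ZMod P.length) + 1)).1 -
        (polygon P (lo : ZMod P.length)).1 ≠ 0 := by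
      rcases hD lo hlo hul with h1 | h1
      · exact h1.2.ne'
      · exact h1.2.ne
    rw [cross_eq hne] at hy
    rcases mul_eq_zero.1 hy with h1 | h1
    · exact absurd h1 hne
    · simp only at h1
      linarith
  have hyh : y' = hgt (polygon P) (hi : ZMod P.length) p.1 := by
    rw [← cr_eq hhi] at hy'
    have hne : (polygon P ((hi : ZMod P.length) + 1)).1 -
        (polygon P (hi : ZMod P.length)).1 ≠ 0 := by
      rcases hD hi hhi huh with h1 | h1
      · exact h1.2.ne'
      · exact h1.2.ne
    rw [cross_eq hne] at hy'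
    rcases mul_eq_zero.1 hy' with h1 | h1
    · exact absurd h1 hne
    · simp only at h1
      linarith
  refine ⟨(lo : ZMod P.length), (hi : ZMod P.length), ?_, hal, hah, ?_⟩
  · rcases hD lo hlo hul with h1 | h1 <;> rcases hD hi hhi huh with h2 | h2
    · exact mul_pos h1.2 h2.2
    · rw [h1.1, h2.1] at hr
      exact absurd hr (by decide)
    · rw [h1.1, h2.1] at hr
      exact absurd hr (by decide)
    · exact mul_pos_of_neg_of_neg h1.2 h2.2
  · intro i hi'
    obtain ⟨e, he', rfl⟩ := zcast hn i
    have hu := (above_iff hσ hτ he').1 hi'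
    have h3 := he e he' hu
    rw [← cr_eq he', ← cr_eq he'] at h3
    rw [← hyl, ← hyh]
    rcases hD e he' hu with h1 | h1
    · have h4 := h3.1 h1.1
      rw [cross_eq h1.2.ne', cross_eq h1.2.ne'] at h4
      simp only at h4
      constructor
      · by_contra h5
        push Not at h5
        have : 0 < ((polygon P ((e : ZMod P.length) + 1)).1 - (polygon P (e : ZMod P.length)).1) *
          (y - hgt (polygon P) (e : ZMod P.length) p.1) := mul_pos h1.2 (by linarith)
        linarith [h4.1]
      · by_contra h5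
        push Not at h5
        have : ((polygon P ((e : ZMod P.length) + 1)).1 - (polygon P (e : ZMod P.length)).1) *
          (y' - hgt (polygon P) (e : ZMod P.length) p.1) < 0 :=
          mul_neg_of_pos_of_neg h1.2 (by linarith)
        linarith [h4.2]
    · have h4 := h3.2 h1.1
      rw [cross_eq h1.2.ne, cross_eq h1.2.ne] at h4
      simp only at h4
      constructor
      · by_contra h5
        push Not at h5
        have : ((polygon P ((e : ZMod P.length) + 1)).1 - (polygon P (e : ZMod P.length)).1) *
          (y - hgt (polygon P) (e : ZMod P.length) p.1) < 0 :=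
          mul_neg_of_neg_of_pos h1.2 (by linarith)
        linarith [h4.1]
      · by_contra h5
        push Not at h5
        have : 0 < ((polygon P ((e : ZMod P.length) + 1)).1 - (polygon P (e : ZMod P.length)).1) *
          (y' - hgt (polygon P) (e : ZMod P.length) p.1) :=
          mul_pos_of_neg_of_neg h1.2 (by linarith)
        linarith [h4.2]

/-- the closed cell is contained in the region -/
theorem cellR_region {P : List (RatCode × RatCode)} (hV : IsSimple (polygon P)) {σ τ : ℕ → Bool}
    {lo hi : ℕ} (hb : bOk P.length σ τ lo hi = true) {p : Pt} {y y' : ℝ}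
    (h : CellR P.length (vert P) σ τ lo hi p y y') {c : Pt}
    (hc : ∀ a < P.length, (σ a = true → 0 ≤ cross (vert P a) (vert P (nx P.length a)) c) ∧
      (σ a = false → cross (vert P a) (vert P (nx P.length a)) c ≤ 0)) :
    c ∈ region (polygon P) := by
  have hn : P.length ≠ 0 := by have := hV.1; omega
  refine region_of_cell hV (cellR_sound hV hb h) (cross_ne h.1 hn) fun i => ?_
  obtain ⟨a, ha, rfl⟩ := zcast hn i
  rw [cr_eq ha, cr_eq ha]
  by_cases h1 : σ a = true
  · exact mul_nonneg ((h.1 a ha).1 h1).le ((hc a ha).1 h1)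
  · have h2 : σ a = false := by simpa using h1
    exact mul_nonneg_of_nonpos_of_nonpos ((h.1 a ha).2 h2).le ((hc a ha).2 h2)

/-- for every point of the region which is not on the curve there is a certificate -/
theorem cellR_complete {P : List (RatCode × RatCode)} (hV : IsSimple (polygon P)) {c : Pt}
    (hc : c ∈ region (polygon P)) (hc' : c ∉ curve (polygon P)) :
    ∃ (σ τ : ℕ → Bool) (lo hi : ℕ) (p : Pt) (y y' : ℝ), bOk P.length σ τ lo hi = true ∧
      CellR P.length (vert P) σ τ lo hi p y y' ∧
      ∀ a < P.length, (σ a = true → 0 ≤ cross (vert P a) (vert P (nx P.length a)) c) ∧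
        (σ a = false → cross (vert P a) (vert P (nx P.length a)) c ≤ 0) := by
  classical
  have hn : P.length ≠ 0 := by have := hV.1; omega
  obtain ⟨p, hp, hg, hne, hpr⟩ := exists_cell_point hV hc hc'
  set σ : ℕ → Bool := fun a => decide (0 < cross (vert P a) (vert P (nx P.length a)) p) with hσd
  set τ : ℕ → Bool := fun a => decide ((vert P a).1 < p.1) with hτd
  have hσ : ∀ a < P.length, (σ a = true → 0 < cross (vert P a) (vert P (nx P.length a)) p) ∧
      (σ a = false → cross (vert P a) (vert P (nx P.length a)) p < 0) := by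
    intro a ha
    have h1 := hne (a : ZMod P.length)
    rw [cr_eq ha] at h1
    constructor
    · intro h2
      simpa [hσd] using h2
    · intro h2
      have h3 : ¬ 0 < cross (vert P a) (vert P (nx P.length a)) p := by simpa [hσd] using h2
      exact lt_of_le_of_ne (not_lt.1 h3) h1
  have hτ : ∀ a < P.length, (τ a = true → (vert P a).1 < p.1) ∧
      (τ a = false → p.1 < (vert P a).1) := by
    intro a ha
    have h1 := hg (a : ZMod P.length)
    rw [polygon_vert ha] at h1
    constructor
    · intro h2
      simpa [hτd] using h2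
    · intro h2
      have h3 : ¬ (vert P a).1 < p.1 := by simpa [hτd] using h2
      exact lt_of_le_of_ne (not_lt.1 h3) h1.symm
  have hpc : p ∉ curve (polygon P) := not_curve_of_cross hV hne
  obtain ⟨ia, ib, hab, hAa, hAb, hall⟩ := (region_iff_ins hV hpc hg).1 hp
  obtain ⟨lo, hlo, rfl⟩ := zcast hn ia
  obtain ⟨hi, hhi, rfl⟩ := zcast hn ib
  have hul := (above_iff hσ hτ hlo).1 hAa
  have huh := (above_iff hσ hτ hhi).1 hAb
  have hD : ∀ e < P.length, Above (polygon P) (e : ZMod P.length) p →
      (rgt P.length τ e = true ∧ 0 < (polygon P ((e : ZMod P.length) + 1)).1 -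
        (polygon P (e : ZMod P.length)).1) ∨
      (rgt P.length τ e = false ∧ (polygon P ((e : ZMod P.length) + 1)).1 -
        (polygon P (e : ZMod P.length)).1 < 0) := by
    intro e he' hu
    rcases hu.1 with h1 | h1
    · exact Or.inl ⟨rgt_of hτ he' h1, by linarith [h1.1, h1.2]⟩
    · exact Or.inr ⟨not_both (lft_of hτ he' h1), by linarith [h1.1, h1.2]⟩
  refine ⟨σ, τ, lo, hi, p, hgt (polygon P) (lo : ZMod P.length) p.1,
    hgt (polygon P) (hi : ZMod P.length) p.1, ?_, ⟨hσ, hτ, ?_, ?_, ?_⟩, ?_⟩
  · unfold bOk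
    rw [Bool.and_eq_true, Bool.and_eq_true, Bool.and_eq_true, Bool.and_eq_true,
      decide_eq_true_eq, decide_eq_true_eq, beq_iff_eq]
    refine ⟨⟨hlo, hhi⟩, ⟨hul, huh⟩, ?_⟩
    rcases hD lo hlo hAa with h1 | h1 <;> rcases hD hi hhi hAb with h2 | h2
    · rw [h1.1, h2.1]
    · exact absurd hab (not_lt.2 (mul_nonpos_of_nonneg_of_nonpos h1.2.le h2.2.le))
    · exact absurd hab (not_lt.2 (mul_nonpos_of_nonpos_of_nonneg h1.2.le h2.2.le))
    · rw [h1.1, h2.1]
  · rw [← cr_eq hlo]
    have hne' : (polygon P ((lo : ZMod P.length) + 1)).1 -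
        (polygon P (lo : ZMod P.length)).1 ≠ 0 := by
      rcases hD lo hlo hAa with h1 | h1
      · exact h1.2.ne'
      · exact h1.2.ne
    rw [cross_eq hne']
    simp
  · rw [← cr_eq hhi]
    have hne' : (polygon P ((hi : ZMod P.length) + 1)).1 -
        (polygon P (hi : ZMod P.length)).1 ≠ 0 := by
      rcases hD hi hhi hAb with h1 | h1
      · exact h1.2.ne'
      · exact h1.2.ne
    rw [cross_eq hne']
    simp
  · intro e he hu
    have hA := (above_iff hσ hτ he).2 hu
    have h3 := hall _ hA
    rw [← cr_eq he, ← cr_eq he]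
    rcases hD e he hA with h1 | h1
    · rw [cross_eq h1.2.ne', cross_eq h1.2.ne']
      simp only
      refine ⟨fun _ => ⟨mul_nonpos_of_nonneg_of_nonpos h1.2.le (by linarith [h3.1]),
        mul_nonneg h1.2.le (by linarith [h3.2])⟩, fun h => ?_⟩
      rw [h1.1] at h
      exact absurd h (by decide)
    · rw [cross_eq h1.2.ne, cross_eq h1.2.ne]
      simp only
      refine ⟨fun h => ?_, fun _ => ⟨mul_nonneg_of_nonpos_of_nonpos h1.2.le
        (by linarith [h3.1]), mul_nonpos_of_nonpos_of_nonneg h1.2.le (by linarith [h3.2])⟩⟩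
      rw [h1.1] at h
      exact absurd h (by decide)
  · intro a ha
    have h1 := hpr (a : ZMod P.length)
    rw [cr_eq ha, cr_eq ha] at h1
    constructor
    · intro h2
      exact nonneg_of_mul_nonneg_right h1 ((hσ a ha).1 h2)
    · intro h2
      have h3 := (hσ a ha).2 h2
      by_contra h4
      push Not at h4
      have := mul_neg_of_neg_of_pos h3 h4
      linarith

end Pool.Agent.Helper94.US
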