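import Pool.Agent.Helper94.UR.RegionB
import Pool.Agent.Helper94.UR.Inside

/-!
# Cells of the arrangement of the lines of the edges
-/

set_option autoImplicit false

namespace Pool.Agent.Helper94.US

open Pool.Agent.Helper20.Flip Pool.Agent.Helper94.UR Pool.Agent.Helper97.UDP Topology

variable {n : ℕ} {V : ZMod n → Pt}

private theorem cross_aff (u v q q' : Pt) {a b : ℝ} (hab : a + b = 1) :
    cross u v (a • q + b • q') = a * cross u v q + b * cross u v q' := by
  have h : b = 1 - a := by linarith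
  subst h
  unfold cross
  simp only [Prod.fst_add, Prod.snd_add, Prod.smul_fst, Prod.smul_snd, smul_eq_mul]
  ring

/-- a point which is on no line of an edge is not on the curve -/
theorem not_curve_of_cross (hV : IsSimple V) {p : Pt}
    (hpe : ∀ i, cross (V i) (V (i + 1)) p ≠ 0) : p ∉ curve V := by
  rintro ⟨i, a, b, ha, hb, hab, rfl⟩
  apply hpe i
  rw [cross_aff _ _ _ _ hab]
  unfold cross
  ring

/-- the closed cell of a point of the region which is on no line of an edge is contained in the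
region -/
theorem region_of_cell (hV : IsSimple V) {p c : Pt} (hp : p ∈ region V)
    (hpe : ∀ i, cross (V i) (V (i + 1)) p ≠ 0)
    (hc : ∀ i, 0 ≤ cross (V i) (V (i + 1)) p * cross (V i) (V (i + 1)) c) : c ∈ region V := by
  set s : Set Pt := {q | ∀ i, 0 < cross (V i) (V (i + 1)) p * cross (V i) (V (i + 1)) q} with hs
  have hconv : Convex ℝ s := by
    intro q hq q' hq' a b ha hb hab i
    rw [cross_aff _ _ _ _ hab, mul_add, mul_left_comm, mul_left_comm _ b]
    rcases ha.eq_or_lt with rfl | ha'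
    · have : b = 1 := by linarith
      rw [this]
      simpa using hq' i
    · exact add_pos_of_pos_of_nonneg (mul_pos ha' (hq i)) (mul_nonneg hb (hq' i).le)
  have hsC : s ⊆ (curve V)ᶜ := by
    intro q hq
    refine not_curve_of_cross hV fun i h => ?_
    have := hq i
    rw [h, mul_zero] at this
    exact lt_irrefl _ this
  have hps : p ∈ s := fun i => mul_self_pos.2 (hpe i)
  have hmem : ∀ ε : ℝ, 0 < ε → ε ≤ 1 → (1 - ε) • c + ε • p ∈ region V := by
    intro ε h0 h1
    refine Pool.Agent.Helper97.UDP.same_comp hconv.isPreconnected hsC hps ?_ hp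
    intro i
    rw [cross_aff _ _ _ _ (by ring), mul_add, mul_left_comm, mul_left_comm _ ε]
    exact add_pos_of_nonneg_of_pos (mul_nonneg (by linarith) (hc i))
      (mul_pos h0 (mul_self_pos.2 (hpe i)))
  have hlim : Filter.Tendsto (fun ε : ℝ => (1 - ε) • c + ε • p) (𝓝[>] 0) (𝓝 c) := by
    have h1 : Continuous (fun ε : ℝ => (1 - ε) • c + ε • p) := by fun_prop
    have h2 := (h1.tendsto 0).mono_left (nhdsWithin_le_nhds (s := Set.Ioi 0))
    simpa using h2
  refine (isCompact_region hV).isClosed.mem_of_tendsto hlim ?_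
  have h3 : ∀ᶠ ε : ℝ in 𝓝[>] 0, ε ≤ 1 :=
    nhdsWithin_le_nhds (eventually_le_nhds (by norm_num))
  filter_upwards [h3, self_mem_nhdsWithin] with ε h1 h0
  exact hmem ε h0 h1

/-- Near every point `c` of the region which is not on the curve there is a generic point of the
region with `c` in its closed cell. -/
theorem exists_cell_point (hV : IsSimple V) {c : Pt} (hc : c ∈ region V) (hc' : c ∉ curve V) :
    ∃ p ∈ region V, Gen V p ∧ (∀ i, cross (V i) (V (i + 1)) p ≠ 0) ∧
      ∀ i, 0 ≤ cross (V i) (V (i + 1)) p * cross (V i) (V (i + 1)) c := by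
  have : NeZero n := ⟨by have := hV.1; omega⟩
  obtain ⟨s, hs⟩ := Infinite.exists_notMem_finset (Finset.univ.image fun i : ZMod n =>
    ((V (i + 1)).2 - (V i).2) / ((V (i + 1)).1 - (V i).1))
  simp only [Finset.mem_image, Finset.mem_univ, true_and, not_exists] at hs
  have hB : ∀ i : ZMod n, ((V (i + 1)).1 - (V i).1) * s - ((V (i + 1)).2 - (V i).2) ≠ 0 := by
    intro i h
    by_cases hx : (V (i + 1)).1 - (V i).1 = 0
    · rw [hx, zero_mul, zero_sub, neg_eq_zero] at h
      exact hV.2.1 i (Prod.ext (by linarith) (by linarith))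
    · apply hs i
      rw [div_eq_iff hx]
      linarith
  have hcr : ∀ (i : ZMod n) (t : ℝ), cross (V i) (V (i + 1)) (c + t • ((1, s) : Pt)) =
      cross (V i) (V (i + 1)) c +
        t * (((V (i + 1)).1 - (V i).1) * s - ((V (i + 1)).2 - (V i).2)) := by
    intro i t
    unfold cross
    simp only [Prod.fst_add, Prod.snd_add, Prod.smul_fst, Prod.smul_snd, smul_eq_mul]
    ring
  have hlim : Filter.Tendsto (fun t : ℝ => c + t • ((1, s) : Pt)) (𝓝[>] 0) (𝓝 c) := by
    have h1 : Continuous (fun t : ℝ => c + t • ((1, s) : Pt)) := by fun_prop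
    have h2 := (h1.tendsto 0).mono_left (nhdsWithin_le_nhds (s := Set.Ioi 0))
    simpa using h2
  have e1 : ∀ᶠ t : ℝ in 𝓝[>] 0, c + t • ((1, s) : Pt) ∈ region V :=
    hlim.eventually_mem (region_mem_nhds hV hc hc')
  have e2 : ∀ᶠ t : ℝ in 𝓝[>] 0, ∀ i : ZMod n, (c + t • ((1, s) : Pt)).1 ≠ (V i).1 := by
    rw [Filter.eventually_all]
    intro i
    rcases eq_or_ne c.1 (V i).1 with h | h
    · filter_upwards [self_mem_nhdsWithin] with t ht
      have ht' : 0 < t := ht
      simp only [Prod.fst_add, Prod.smul_fst, smul_eq_mul, mul_one]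
      intro h1
      linarith
    · have h1 : Filter.Tendsto (fun t : ℝ => (c + t • ((1, s) : Pt)).1) (𝓝[>] 0) (𝓝 c.1) :=
        (continuous_fst.tendsto c).comp hlim
      exact h1.eventually_ne h
  have e3 : ∀ᶠ t : ℝ in 𝓝[>] 0, ∀ i : ZMod n,
      cross (V i) (V (i + 1)) (c + t • ((1, s) : Pt)) ≠ 0 ∧
      0 ≤ cross (V i) (V (i + 1)) (c + t • ((1, s) : Pt)) * cross (V i) (V (i + 1)) c := by
    rw [Filter.eventually_all]
    intro i
    rcases eq_or_ne (cross (V i) (V (i + 1)) c) 0 with h | h
    · filter_upwards [self_mem_nhdsWithin] with t ht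
      have ht' : 0 < t := ht
      rw [hcr, h, zero_add, mul_zero]
      exact ⟨mul_ne_zero ht'.ne' (hB i), le_rfl⟩
    · have h1 : Filter.Tendsto (fun t : ℝ => cross (V i) (V (i + 1)) (c + t • ((1, s) : Pt)) *
          cross (V i) (V (i + 1)) c) (𝓝[>] 0)
          (𝓝 (cross (V i) (V (i + 1)) c * cross (V i) (V (i + 1)) c)) := by
        have h2 : Continuous (fun t : ℝ => cross (V i) (V (i + 1)) (c + t • ((1, s) : Pt)) *
            cross (V i) (V (i + 1)) c) := by
          simp only [hcr]
          fun_prop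
        have h3 := (h2.tendsto 0).mono_left (nhdsWithin_le_nhds (s := Set.Ioi 0))
        simpa using h3
      have h4 : ∀ᶠ t : ℝ in 𝓝[>] 0, 0 < cross (V i) (V (i + 1)) (c + t • ((1, s) : Pt)) *
          cross (V i) (V (i + 1)) c := h1.eventually_const_lt (mul_self_pos.2 h)
      filter_upwards [h4] with t ht
      exact ⟨left_ne_zero_of_mul ht.ne', ht.le⟩
  obtain ⟨t, h1, h2, h3⟩ := (e1.and (e2.and e3)).exists
  exact ⟨_, h1, fun i => (h2 i).symm, fun i => (h3 i).1, fun i => (h3 i).2⟩

end Pool.Agent.Helper94.US
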