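import Pool.Agent.Helper94.US.Real
import Pool.Agent.Helper94.UR.AppA

/-!
# The constraints as convex quadratic functions
-/

set_option autoImplicit false

namespace Pool.Agent.Helper94.US

open Pool.Agent.Helper20.Flip Pool.Agent.Helper94.UR

private theorem ext0_val' {m : ℕ} (x : Fin m → Pt) (i : Fin m) : ext0 x (i : ℕ) = x i := by
  simp [ext0]

/-- the gradient form -/
private noncomputable def gform' (m : ℕ) (g : Fin m → Pt) : (Fin m → Pt) →ₗ[ℝ] ℝ :=
  ∑ l : Fin m, ((g l).1 • ((LinearMap.fst ℝ ℝ ℝ).comp (LinearMap.proj l)) +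
    (g l).2 • ((LinearMap.snd ℝ ℝ ℝ).comp (LinearMap.proj l)))

private theorem gform'_apply (m : ℕ) (g v : Fin m → Pt) :
    gform' m g v = ∑ l, ((g l).1 * (v l).1 + (g l).2 * (v l).2) := by
  simp [gform', LinearMap.sum_apply]

/-- kind 0 -/
private theorem scon0 {n m : ℕ} (V : ℕ → Pt) (ρ : ℕ → ℝ) (i j : Fin m) (hij : i ≠ j) :
    ∃ q : CQ (Fin m → Pt), Continuous q.val ∧
      (∀ x, q.val x = qS n V ρ (ext0 x) (0, (i : ℕ), (j : ℕ))) ∧
      ∀ x, q.der x = gform' m fun l => gS n V (ext0 x) (0, (i : ℕ), (j : ℕ)) l := by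
  refine ⟨{ val := fun x => d2 (x i) (x j) - 4
            der := fun x => gform' m fun l => gS n V (ext0 x) (0, (i : ℕ), (j : ℕ)) l
            quad := fun v => d2 (v i) (v j)
            expand := ?_
            quad_nonneg := ?_
            quad_smul := ?_ }, ?_, ?_, ?_⟩
  · intro x v
    have h1 : gform' m (fun l : Fin m => gS n V (ext0 x) (0, (i : ℕ), (j : ℕ)) l) v =
        2 * ((x i).1 - (x j).1) * (v i).1 + 2 * ((x i).2 - (x j).2) * (v i).2 +
          (2 * ((x j).1 - (x i).1) * (v j).1 + 2 * ((x j).2 - (x i).2) * (v j).2) := by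
      rw [gform'_apply]
      rw [Fintype.sum_eq_add i j hij]
      · have hji : ¬ ((j : ℕ) = (i : ℕ)) := fun h => hij (Fin.ext h.symm)
        simp only [gS, ext0_val', if_true, if_neg hji, Prod.smul_fst, Prod.smul_snd,
          Prod.fst_sub, Prod.snd_sub, smul_eq_mul]
      · intro l hl
        have h2 : ¬ ((l : ℕ) = (i : ℕ)) := fun h => hl.1 (Fin.ext h)
        have h3 : ¬ ((l : ℕ) = (j : ℕ)) := fun h => hl.2 (Fin.ext h)
        simp [gS, h2, h3]
    rw [h1]
    simp only [d2, Pi.add_apply, Prod.fst_add, Prod.snd_add]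
    ring
  · intro v
    simp only [d2]
    positivity
  · intro t v
    simp only [d2, Pi.smul_apply, Prod.smul_fst, Prod.smul_snd, smul_eq_mul]
    ring
  · simp only [d2]
    fun_prop
  · intro x
    simp [qS, ext0_val']
  · intro x
    rfl

/-- kinds 1 to 7 -/
private theorem scon1 {n m : ℕ} (V : ℕ → Pt) (ρ : ℕ → ℝ) (k a : ℕ) (hk : k ≠ 0) (i : Fin m) :
    ∃ q : CQ (Fin m → Pt), Continuous q.val ∧
      (∀ x, q.val x = qS n V ρ (ext0 x) (k, (i : ℕ), a)) ∧
      ∀ x, q.der x = gform' m fun l => gS n V (ext0 x) (k, (i : ℕ), a) l := by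
  refine ⟨{ val := fun x => (if k = 1 then d2 (x i) (sr n V k a) else 0) +
              (dot (sα n V k a) (x i - sr n V k a) - se ρ k a)
            der := fun x => gform' m fun l => gS n V (ext0 x) (k, (i : ℕ), a) l
            quad := fun v => if k = 1 then (v i).1 ^ 2 + (v i).2 ^ 2 else 0
            expand := ?_
            quad_nonneg := ?_
            quad_smul := ?_ }, ?_, ?_, ?_⟩
  · intro x v
    have h1 : gform' m (fun l : Fin m => gS n V (ext0 x) (k, (i : ℕ), a) l) v =
        ((if k = 1 then 2 * ((x i).1 - (sr n V k a).1) else 0) + (sα n V k a).1) * (v i).1 +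
          ((if k = 1 then 2 * ((x i).2 - (sr n V k a).2) else 0) + (sα n V k a).2) *
            (v i).2 := by
      rw [gform'_apply]
      rw [Fintype.sum_eq_single i]
      · by_cases h : k = 1
        · simp only [gS, ext0_val', if_neg hk, if_true, if_pos h, Prod.fst_add, Prod.snd_add,
            Prod.smul_fst, Prod.smul_snd, Prod.fst_sub, Prod.snd_sub, smul_eq_mul]
        · simp only [gS, ext0_val', if_neg hk, if_true, if_neg h, Prod.fst_add, Prod.snd_add,
            Prod.fst_zero, Prod.snd_zero]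
      · intro l hl
        have h2 : ¬ ((l : ℕ) = (i : ℕ)) := fun h => hl (Fin.ext h)
        simp [gS, h2, hk]
    rw [h1]
    by_cases h : k = 1
    · simp only [h, if_true, d2, dot, Pi.add_apply, Prod.fst_add, Prod.snd_add, Prod.fst_sub,
        Prod.snd_sub]
      ring
    · simp only [if_neg h, dot, Pi.add_apply, Prod.fst_add, Prod.snd_add, Prod.fst_sub,
        Prod.snd_sub]
      ring
  · intro v
    split_ifs
    · positivity
    · exact le_rfl
  · intro t v
    split_ifs
    · simp only [Pi.smul_apply, Prod.smul_fst, Prod.smul_snd, smul_eq_mul]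
      ring
    · ring
  · by_cases h : k = 1
    · simp only [h, if_true, d2, dot]
      fun_prop
    · simp only [if_neg h, dot]
      fun_prop
  · intro x
    simp only [qS, ext0_val', if_neg hk]
  · intro x
    rfl

/-- every valid constraint is a convex quadratic function with the given gradient (see
`UR.exists_conCQ` in `UR/AppA.lean` for the same statement with fewer kinds) -/
theorem exists_sCQ {n m : ℕ} (V : ℕ → Pt) (ρ : ℕ → ℝ) {c : Con} (hc : SValid n m c) :
    ∃ q : CQ (Fin m → Pt), Continuous q.val ∧ (∀ x, q.val x = qS n V ρ (ext0 x) c) ∧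
      ∀ x, q.der x = ∑ l : Fin m,
        ((gS n V (ext0 x) c l).1 • ((LinearMap.fst ℝ ℝ ℝ).comp (LinearMap.proj l)) +
          (gS n V (ext0 x) c l).2 • ((LinearMap.snd ℝ ℝ ℝ).comp (LinearMap.proj l))) := by
  obtain ⟨k, i, j⟩ := c
  rcases hc with ⟨h0, hi, hj, hij⟩ | ⟨h1, h2, hi, hj⟩
  · simp only at h0 hi hj hij
    subst h0
    exact scon0 V ρ (⟨i, hi⟩ : Fin m) ⟨j, hj⟩ fun h => hij (congrArg Fin.val h)
  · simp only at h1 h2 hi hj
    exact scon1 V ρ k j (by omega) (⟨i, hi⟩ : Fin m)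

/-- a valid constraint depends on the centres `x l`, `l < m`, only -/
theorem qS_congr {n m : ℕ} {V : ℕ → Pt} {ρ : ℕ → ℝ} {c : Con} (hc : SValid n m c)
    {x x' : ℕ → Pt} (h : ∀ l < m, x l = x' l) : qS n V ρ x c = qS n V ρ x' c := by
  rcases hc with ⟨h0, hi, hj, _⟩ | ⟨h1, _, hi, _⟩
  · simp only [qS, if_pos h0, h _ hi, h _ hj]
  · have h0 : ¬ c.1 = 0 := by omega
    simp only [qS, if_neg h0, h _ hi]

theorem gS_congr {n m : ℕ} {V : ℕ → Pt} {c : Con} (hc : SValid n m c)
    {x x' : ℕ → Pt} (h : ∀ l < m, x l = x' l) (l : ℕ) : gS n V x c l = gS n V x' c l := by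
  rcases hc with ⟨h0, hi, hj, _⟩ | ⟨h1, _, hi, _⟩
  · simp only [gS, if_pos h0, h _ hi, h _ hj]
  · have h0 : ¬ c.1 = 0 := by omega
    simp only [gS, if_neg h0, h _ hi]

end Pool.Agent.Helper94.US
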