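import Pool.Agent.Helper94.UR.Farkas
import Pool.Agent.Helper94.UR.Basic

/-!
# The set of tight constraints at the farthest point: positive multipliers and perturbations
-/

set_option autoImplicit false

namespace Pool.Agent.Helper94.US

open Pool.Agent.Helper94.UR Topology

private theorem abs_lin_le {E : Type*} [NormedAddCommGroup E] [NormedSpace ℝ E]
    [FiniteDimensional ℝ E] (l : E →ₗ[ℝ] ℝ) (v : E) :
    |l v| ≤ ‖LinearMap.toContinuousLinearMap l‖ * ‖v‖ := by
  have h := (LinearMap.toContinuousLinearMap l).le_opNorm v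
  rwa [Real.norm_eq_abs] at h

/-- a critical point of a combination with nonnegative coefficients -/
private theorem exists_crit {E : Type*} [NormedAddCommGroup E] [NormedSpace ℝ E]
    [FiniteDimensional ℝ E] {K : Type*} {f : CQ E}
    {κ : ℝ} (hκ : 0 < κ) (hf : ∀ v, κ * ‖v‖ ^ 2 ≤ f.quad v) (q : K → CQ E) (S : Finset K)
    (ω : K → ℝ) (hω : ∀ k ∈ S, 0 ≤ ω k) (x : E) :
    ∃ v : E, f.der (x + v) + ∑ k ∈ S, ω k • (q k).der (x + v) = 0 := by
  obtain ⟨B, -, hB, hBq⟩ := f.exists_bilin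
  choose C hCs hC hCq using fun k => (q k).exists_bilin
  set T : E →ₗ[ℝ] E →ₗ[ℝ] ℝ := B + ∑ k ∈ S, ω k • C k with hT
  have hTv : ∀ v w, T v w = B v w + ∑ k ∈ S, ω k * C k v w := by
    intro v w
    simp [hT, LinearMap.add_apply, LinearMap.sum_apply]
  have hinj : Function.Injective T := by
    rw [← LinearMap.ker_eq_bot, LinearMap.ker_eq_bot']
    intro v hv
    have h1 : T v v = 0 := by rw [hv]; rfl
    rw [hTv, hBq] at h1
    have h2 : 0 ≤ ∑ k ∈ S, ω k * C k v v := Finset.sum_nonneg fun k hk => by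
      rw [hCq]
      exact mul_nonneg (hω k hk) (mul_nonneg zero_le_two ((q k).quad_nonneg v))
    have h3 := hf v
    have h4 : κ * ‖v‖ ^ 2 ≤ 0 := by linarith
    have h5 : ‖v‖ ^ 2 ≤ 0 := by
      by_contra h
      push Not at h
      have := mul_pos hκ h
      linarith
    have h6 : ‖v‖ = 0 := by nlinarith [norm_nonneg v]
    exact norm_eq_zero.1 h6
  have hsurj : Function.Surjective T := by
    have hfr : Module.finrank ℝ E = Module.finrank ℝ (Module.Dual ℝ E) :=
      (Subspace.dual_finrank_eq).symm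
    exact (LinearMap.injective_iff_surjective_of_finrank_eq_finrank hfr).1 hinj
  obtain ⟨v, hv⟩ := hsurj (-(f.der x + ∑ k ∈ S, ω k • (q k).der x))
  refine ⟨v, ?_⟩
  ext w
  have h1 := LinearMap.congr_fun hv w
  rw [hTv] at h1
  simp only [LinearMap.neg_apply, LinearMap.add_apply, LinearMap.sum_apply, LinearMap.smul_apply,
    smul_eq_mul, hB, hC, LinearMap.zero_apply] at h1 ⊢
  have h2 : ∑ k ∈ S, ω k * (((q k).der x) w + (C k v) w) =
      ∑ k ∈ S, ω k * ((q k).der x) w + ∑ k ∈ S, ω k * (C k v) w := by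
    rw [← Finset.sum_add_distrib]
    exact Finset.sum_congr rfl fun k _ => by ring
  rw [h2]
  linarith

/-- `F` is the compact set described by the constraints `0 ≤ (q k).val`, `k ∈ Z`. At a point of `F`
where `f` is maximal, with the set `A` of tight constraints, there are positive multipliers on `A`;
and for every constraint `k` outside of `A` there is a dual solution of the reversed program for
`insert k A` with a value larger than `f.val x`. -/
theorem exists_tight {E : Type*} [NormedAddCommGroup E] [NormedSpace ℝ E]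
    [FiniteDimensional ℝ E] {K : Type*} [DecidableEq K] {f : CQ E} (hfc : Continuous f.val)
    {κ : ℝ} (hκ : 0 < κ) (hf : ∀ v, κ * ‖v‖ ^ 2 ≤ f.quad v) {q : K → CQ E}
    (hqc : ∀ k, Continuous (q k).val) (Z : Finset K)
    (hF : IsCompact {x : E | ∀ k ∈ Z, 0 ≤ (q k).val x}) (hne : ∃ x : E, ∀ k ∈ Z, 0 ≤ (q k).val x) :
    ∃ A ⊆ Z, ∃ (x : E) (ω : K → ℝ), (∀ k ∈ Z, 0 ≤ (q k).val x) ∧
      (∀ k ∈ A, 0 < ω k ∧ (q k).val x = 0) ∧
      f.der x + ∑ k ∈ A, ω k • (q k).der x = 0 ∧
      ∀ k ∈ Z, k ∉ A → ∃ (z : E) (ω' : K → ℝ), (∀ j ∈ insert k A, 0 ≤ ω' j) ∧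
        f.der z + ∑ j ∈ insert k A, ω' j • (q j).der z = 0 ∧
        f.val x < f.val z + ∑ j ∈ insert k A, ω' j * (q j).val z := by
  classical
  obtain ⟨x, hxF, hmax⟩ := hF.exists_isMaxOn hne hfc.continuousOn
  have hx : ∀ k ∈ Z, 0 ≤ (q k).val x := hxF
  set A : Finset K := Z.filter (fun k => (q k).val x = 0) with hA
  have hA0 : ∀ k ∈ A, (q k).val x = 0 := fun k hk => (Finset.mem_filter.1 hk).2
  have hpos : ∀ k ∈ Z, k ∉ A → 0 < (q k).val x := fun k hk hkA =>
    lt_of_le_of_ne (hx k hk) fun h => hkA (Finset.mem_filter.2 ⟨hk, h.symm⟩)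
  -- a radius
  have hev : ∀ᶠ y in 𝓝 x, ∀ k ∈ Z, k ∉ A → 0 < (q k).val y := by
    rw [Filter.eventually_all_finset]
    intro k hk
    by_cases hkA : k ∈ A
    · exact Filter.Eventually.of_forall fun y h => absurd hkA h
    · exact ((hqc k).continuousAt.eventually (lt_mem_nhds (hpos k hk hkA))).mono
        fun y hy _ => hy
  obtain ⟨r0, hr0, hr⟩ := Metric.eventually_nhds_iff.1 hev
  set r : ℝ := r0 / 2 with hrdef
  have hrpos : 0 < r := by positivity
  -- first order inequality
  have hC1 : ∀ v, (∀ k ∈ A, 0 ≤ (q k).der x v) → ‖v‖ ≤ r → f.der x v ≤ - (κ * ‖v‖ ^ 2) := by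
    intro v hv hvr
    have hin : x + v ∈ {x : E | ∀ k ∈ Z, 0 ≤ (q k).val x} := by
      intro k hk
      by_cases hkA : k ∈ A
      · rw [(q k).expand, hA0 k hkA]
        have h1 := hv k hkA
        have h2 := (q k).quad_nonneg v
        linarith
      · refine (hr ?_ k hk hkA).le
        rw [dist_eq_norm, add_sub_cancel_left]
        linarith
    have h3 : f.val (x + v) ≤ f.val x := hmax hin
    rw [f.expand] at h3
    have h4 := hf v
    linarith
  have hC2 : ∀ v, (∀ k ∈ A, 0 ≤ (q k).der x v) → f.der x v ≤ - (κ * r * ‖v‖) := by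
    intro v hv
    by_cases h0 : v = 0
    · subst h0
      simp
    have hn : 0 < ‖v‖ := norm_pos_iff.2 h0
    have h1 := hC1 ((r / ‖v‖) • v) (fun k hk => by
      rw [map_smul, smul_eq_mul]
      exact mul_nonneg (by positivity) (hv k hk)) (by
      rw [norm_smul, Real.norm_of_nonneg (by positivity), div_mul_cancel₀ _ hn.ne'])
    rw [map_smul, smul_eq_mul, norm_smul, Real.norm_of_nonneg (by positivity),
      div_mul_cancel₀ _ hn.ne'] at h1
    have h2 : f.der x v = (‖v‖ / r) * (r / ‖v‖ * f.der x v) := by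
      field_simp
    rw [h2]
    have h3 : (‖v‖ / r) * (r / ‖v‖ * f.der x v) ≤ (‖v‖ / r) * -(κ * r ^ 2) :=
      mul_le_mul_of_nonneg_left h1 (by positivity)
    refine h3.trans (le_of_eq ?_)
    field_simp
  -- the perturbation
  set M : ℝ := ∑ k ∈ A, ‖LinearMap.toContinuousLinearMap ((q k).der x)‖ + 1 with hM
  have hMpos : 0 < M := by
    have : 0 ≤ ∑ k ∈ A, ‖LinearMap.toContinuousLinearMap ((q k).der x)‖ :=
      Finset.sum_nonneg fun k _ => norm_nonneg _
    linarith
  set δ : ℝ := κ * r / M with hδ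
  have hδpos : 0 < δ := by positivity
  have hbound : ∀ v, δ * ∑ k ∈ A, (q k).der x v ≤ κ * r * ‖v‖ := by
    intro v
    have h1 : ∑ k ∈ A, (q k).der x v ≤ M * ‖v‖ := by
      have h2 : ∑ k ∈ A, (q k).der x v ≤
          ∑ k ∈ A, ‖LinearMap.toContinuousLinearMap ((q k).der x)‖ * ‖v‖ :=
        Finset.sum_le_sum fun k _ => (le_abs_self _).trans (abs_lin_le _ v)
      rw [← Finset.sum_mul] at h2
      refine h2.trans (mul_le_mul_of_nonneg_right ?_ (norm_nonneg v))
      linarith
    have h3 := mul_le_mul_of_nonneg_left h1 hδpos.le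
    refine h3.trans (le_of_eq ?_)
    rw [hδ]
    field_simp
  obtain ⟨c, hc, hceq⟩ := farkas A (fun k => (q k).der x)
    (-(f.der x + δ • ∑ k ∈ A, (q k).der x)) (by
      intro v hv
      have h1 := hC2 v hv
      have h2 := hbound v
      simp only [LinearMap.neg_apply, LinearMap.add_apply, LinearMap.smul_apply,
        LinearMap.sum_apply, smul_eq_mul]
      linarith)
  have hcrit : f.der x + ∑ k ∈ A, (c k + δ) • (q k).der x = 0 := by
    have h1 : ∑ k ∈ A, (c k + δ) • (q k).der x =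
        ∑ k ∈ A, c k • (q k).der x + δ • ∑ k ∈ A, (q k).der x := by
      rw [Finset.smul_sum, ← Finset.sum_add_distrib]
      exact Finset.sum_congr rfl fun k _ => add_smul _ _ _
    rw [h1, ← hceq]
    abel
  refine ⟨A, Finset.filter_subset _ _, x, fun k => c k + δ, hx, fun k hk =>
    ⟨by linarith [hc k hk], hA0 k hk⟩, hcrit, ?_⟩
  intro k hk hkA
  have hg : 0 < (q k).val x := hpos k hk hkA
  set g : ℝ := (q k).val x with hgdef
  set C : ℝ := ‖LinearMap.toContinuousLinearMap ((q k).der x)‖ with hCdef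
  have hC0 : 0 ≤ C := norm_nonneg _
  set ε : ℝ := κ * g / (C ^ 2 + 1) with hε
  have hεpos : 0 < ε := by positivity
  set ω' : K → ℝ := fun j => if j = k then ε else c j + δ with hω'
  have hω'k : ω' k = ε := if_pos rfl
  have hω'A : ∀ j ∈ A, ω' j = c j + δ := by
    intro j hj
    have hjk : j ≠ k := by
      rintro rfl
      exact hkA hj
    exact if_neg hjk
  have hnonneg : ∀ j ∈ insert k A, 0 ≤ ω' j := by
    intro j hj
    rcases Finset.mem_insert.1 hj with rfl | hj
    · rw [hω'k]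
      exact hεpos.le
    · rw [hω'A j hj]
      linarith [hc j hj]
  obtain ⟨v, hv⟩ := exists_crit hκ hf q (insert k A) ω' hnonneg x
  refine ⟨x + v, ω', hnonneg, hv, ?_⟩
  rw [Finset.sum_insert hkA, hω'k]
  have h1 : ∑ j ∈ A, ω' j * (q j).val (x + v) =
      ∑ j ∈ A, (c j + δ) * (q j).der x v + ∑ j ∈ A, (c j + δ) * (q j).quad v := by
    rw [← Finset.sum_add_distrib]
    refine Finset.sum_congr rfl fun j hj => ?_
    rw [hω'A j hj, (q j).expand, hA0 j hj]
    ring
  have h2 : f.der x v + ∑ j ∈ A, (c j + δ) * (q j).der x v = 0 := by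
    have := LinearMap.congr_fun hcrit v
    simpa [LinearMap.add_apply, LinearMap.sum_apply] using this
  have h3 : 0 ≤ ∑ j ∈ A, (c j + δ) * (q j).quad v := Finset.sum_nonneg fun j hj =>
    mul_nonneg (by linarith [hc j hj]) ((q j).quad_nonneg v)
  have h4 : g - C * ‖v‖ ≤ (q k).val (x + v) := by
    rw [(q k).expand]
    have h5 := abs_lin_le ((q k).der x) v
    have h6 := neg_abs_le (((q k).der x) v)
    have h7 := (q k).quad_nonneg v
    linarith
  have h5 : ε * (g - C * ‖v‖) ≤ ε * (q k).val (x + v) := mul_le_mul_of_nonneg_left h4 hεpos.le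
  have h6 : 0 < κ * ‖v‖ ^ 2 + ε * (g - C * ‖v‖) := by
    have h7 : ε * C ^ 2 < 4 * κ * g := by
      have h8 : ε * (C ^ 2 + 1) = κ * g := by
        rw [hε]
        field_simp
      have h9 : 0 < κ * g := mul_pos hκ hg
      nlinarith
    have h8 : 0 < ε * (4 * κ * g - ε * C ^ 2) := mul_pos hεpos (by linarith)
    have h9 : 0 ≤ (2 * κ * ‖v‖ - ε * C) ^ 2 := sq_nonneg _
    have h10 : 0 < 4 * κ * (κ * ‖v‖ ^ 2 + ε * (g - C * ‖v‖)) := by nlinarith
    by_contra hcon
    push Not at hcon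
    have := mul_nonpos_of_nonneg_of_nonpos (by positivity : 0 ≤ 4 * κ) hcon
    linarith
  rw [f.expand, h1]
  have h7 := hf v
  linarith

end Pool.Agent.Helper94.US
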