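import Pool.Agent.Helper94.US.Dual
import Pool.Agent.Helper94.US.ConQ
import Pool.Agent.Helper94.US.Tight

/-!
# Certificates: soundness and completeness
-/

set_option autoImplicit false

namespace Pool.Agent.Helper94.US

open Pool.Agent.Helper20.Flip Pool.Agent.Helper94.UR

/-- with a certificate all the constraints hold -/
theorem cert_sound {n m : ℕ} {V : ℕ → Pt} {ρ : ℕ → ℝ}
    (hρ : ∀ a, 0 ≤ ρ a ∧ ρ a ^ 2 = d2 (V a) (V (nx n a))) {Z : ℕ → Con} {N A : Finset ℕ}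
    (hA : A ⊆ N) (hZ : ∀ k ∈ N, SValid n m (Z k)) {x : ℕ → Pt} (h : Cert n m V ρ Z N A x) :
    ∀ k ∈ N, 0 ≤ qS n V ρ x (Z k) := by
  obtain ⟨t, hq, ht, ⟨ω, s, θ, u, s', u', hω, hdc⟩, hN⟩ := h
  have h1 := dc_sound hρ (fun k hk => hZ k (hA hk)) hdc x
  unfold Lag at h1
  have h2 : ∀ k ∈ A, ω k * qS n V ρ x (Z k) ≤ 0 := fun k hk =>
    mul_nonpos_of_nonneg_of_nonpos (hω k hk).le (hq k hk)
  have h3 : ∑ k ∈ A, ω k * qS n V ρ x (Z k) = 0 :=
    le_antisymm (Finset.sum_nonpos h2) (by linarith)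
  have h4 : ∀ k ∈ A, qS n V ρ x (Z k) = 0 := by
    intro k hk
    have h5 := (Finset.sum_eq_zero_iff_of_nonpos h2).1 h3 k hk
    rcases mul_eq_zero.1 h5 with h6 | h6
    · exact absurd h6 (hω k hk).ne'
    · exact h6
  intro k hk
  by_cases hkA : k ∈ A
  · exact (h4 k hkA).ge
  · obtain ⟨t', ω', s1, θ1, u1, s1', u1', htt, hdc'⟩ := hN k hk hkA
    have h5 := dc_sound hρ (fun j hj => by
      rcases Finset.mem_insert.1 hj with rfl | hj
      · exact hZ j hk
      · exact hZ j (hA hj)) hdc' x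
    unfold Lag at h5
    rw [Finset.sum_insert hkA, Finset.sum_eq_zero (s := A)
      (fun j hj => by rw [h4 j hj, mul_zero]), add_zero] at h5
    have h6 : 0 ≤ ω' k := (hdc'.2.1 k (Finset.mem_insert_self k A)).1
    have h7 : 0 < ω' k * qS n V ρ x (Z k) := by linarith
    by_contra hcon
    push Not at hcon
    linarith [mul_nonpos_of_nonneg_of_nonpos h6 hcon.le]

/-- the linear functional with the given coefficients -/
private noncomputable def lin {m : ℕ} (g : Fin m → Pt) : (Fin m → Pt) →ₗ[ℝ] ℝ :=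
  ∑ l : Fin m, ((g l).1 • ((LinearMap.fst ℝ ℝ ℝ).comp (LinearMap.proj l)) +
    (g l).2 • ((LinearMap.snd ℝ ℝ ℝ).comp (LinearMap.proj l)))

private theorem lin_apply {m : ℕ} (g v : Fin m → Pt) :
    lin g v = ∑ l, ((g l).1 * (v l).1 + (g l).2 * (v l).2) := by
  simp [lin, LinearMap.sum_apply]

private theorem lin_eq_zero {m : ℕ} {g : Fin m → Pt} (h : lin g = 0) (l : Fin m) : g l = 0 := by
  have h1 : ∀ v, lin g v = 0 := fun v => by rw [h]; rfl
  have h2 := h1 g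
  rw [lin_apply] at h2
  have h3 := (Finset.sum_eq_zero_iff_of_nonneg (fun l (_ : l ∈ Finset.univ) => by
    nlinarith [mul_self_nonneg (g l).1, mul_self_nonneg (g l).2])).1 h2 l (Finset.mem_univ l)
  refine Prod.ext ?_ ?_
  · have : (g l).1 * (g l).1 = 0 := by
      nlinarith [mul_self_nonneg (g l).1, mul_self_nonneg (g l).2]
    exact mul_self_eq_zero.1 this
  · have : (g l).2 * (g l).2 = 0 := by
      nlinarith [mul_self_nonneg (g l).1, mul_self_nonneg (g l).2]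
    exact mul_self_eq_zero.1 this

private theorem sum_lin {m : ℕ} (K : Finset ℕ) (ω : ℕ → ℝ) (g : ℕ → Fin m → Pt) :
    ∑ k ∈ K, ω k • lin (g k) = lin fun l => ∑ k ∈ K, ω k • g k l := by
  refine LinearMap.ext fun v => ?_
  rw [LinearMap.sum_apply, lin_apply]
  simp only [LinearMap.smul_apply, lin_apply, smul_eq_mul, Finset.mul_sum, Prod.fst_sum,
    Prod.snd_sum, Prod.smul_fst, Prod.smul_snd, Finset.sum_mul]
  rw [Finset.sum_comm]
  refine Finset.sum_congr rfl fun l _ => ?_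
  rw [← Finset.sum_add_distrib]
  refine Finset.sum_congr rfl fun k _ => ?_
  ring

private theorem lin_add {m : ℕ} (f g : Fin m → Pt) :
    lin f + lin g = lin fun l => f l + g l := by
  refine LinearMap.ext fun v => ?_
  rw [LinearMap.add_apply, lin_apply, lin_apply, lin_apply, ← Finset.sum_add_distrib]
  refine Finset.sum_congr rfl fun k _ => ?_
  rw [Prod.fst_add, Prod.snd_add]
  ring

open Classical in
/-- the convex quadratic functions of the constraints -/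
private noncomputable def qq (n m : ℕ) (V : ℕ → Pt) (ρ : ℕ → ℝ) (Z : ℕ → Con) (k : ℕ) :
    CQ (Fin m → Pt) :=
  if h : SValid n m (Z k) then Classical.choose (exists_sCQ V ρ h) else fCQ m

private theorem continuous_fCQ (m : ℕ) : Continuous (fCQ m).val := by
  change Continuous fun x : Fin m → Pt => ∑ l, ((x l).1 ^ 2 + (x l).2 ^ 2)
  fun_prop

private theorem continuous_qq (n m : ℕ) (V : ℕ → Pt) (ρ : ℕ → ℝ) (Z : ℕ → Con) (k : ℕ) :
    Continuous (qq n m V ρ Z k).val := by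
  unfold qq
  split_ifs with h
  · exact (Classical.choose_spec (exists_sCQ V ρ h)).1
  · exact continuous_fCQ m

private theorem qq_val {n m : ℕ} (V : ℕ → Pt) (ρ : ℕ → ℝ) {Z : ℕ → Con} {k : ℕ}
    (h : SValid n m (Z k)) (x : Fin m → Pt) :
    (qq n m V ρ Z k).val x = qS n V ρ (ext0 x) (Z k) := by
  unfold qq
  rw [dif_pos h]
  exact (Classical.choose_spec (exists_sCQ V ρ h)).2.1 x

private theorem qq_der {n m : ℕ} (V : ℕ → Pt) (ρ : ℕ → ℝ) {Z : ℕ → Con} {k : ℕ}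
    (h : SValid n m (Z k)) (x : Fin m → Pt) :
    (qq n m V ρ Z k).der x = lin fun l : Fin m => gS n V (ext0 x) (Z k) l := by
  unfold qq
  rw [dif_pos h]
  exact (Classical.choose_spec (exists_sCQ V ρ h)).2.2 x

private theorem fCQ_der {m : ℕ} (x : Fin m → Pt) :
    (fCQ m).der x = lin fun l : Fin m => (2 : ℝ) • x l := rfl

private theorem stat_of {n m : ℕ} {V : ℕ → Pt} {ρ : ℕ → ℝ} {Z : ℕ → Con} {S : Finset ℕ}
    (hZ : ∀ k ∈ S, SValid n m (Z k)) {x : Fin m → Pt} {ω : ℕ → ℝ}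
    (h : (fCQ m).der x + ∑ k ∈ S, ω k • (qq n m V ρ Z k).der x = 0) :
    Stat n m V Z S ω (ext0 x) := by
  rw [Finset.sum_congr rfl fun k hk => by rw [qq_der V ρ (hZ k hk)],
    sum_lin S ω fun k (l : Fin m) => gS n V (ext0 x) (Z k) l, fCQ_der, lin_add] at h
  intro l hl
  have h1 := lin_eq_zero h ⟨l, hl⟩
  have h2 : ext0 x l = x ⟨l, hl⟩ := by simp [ext0, hl]
  rw [h2]
  exact h1

private theorem lag_eq {n m : ℕ} {V : ℕ → Pt} {ρ : ℕ → ℝ} {Z : ℕ → Con} {S : Finset ℕ}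
    (hZ : ∀ k ∈ S, SValid n m (Z k)) (x : Fin m → Pt) (ω : ℕ → ℝ) :
    Lag n m V ρ Z S ω (ext0 x) =
      (fCQ m).val x + ∑ k ∈ S, ω k * (qq n m V ρ Z k).val x := by
  unfold Lag
  congr 1
  · rw [Finset.sum_range]
    change _ = ∑ l, ((x l).1 ^ 2 + (x l).2 ^ 2)
    refine Finset.sum_congr rfl fun l _ => ?_
    have h2 : ext0 x (l : ℕ) = x l := by simp [ext0]
    rw [h2, dot]
    ring
  · exact Finset.sum_congr rfl fun k hk => by rw [qq_val V ρ (hZ k hk)]

private theorem fCQ_quad {m : ℕ} (v : Fin m → Pt) : 1 * ‖v‖ ^ 2 ≤ (fCQ m).quad v := by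
  change 1 * ‖v‖ ^ 2 ≤ ∑ l, ((v l).1 ^ 2 + (v l).2 ^ 2)
  set r := ∑ l, ((v l).1 ^ 2 + (v l).2 ^ 2) with hr
  have hr0 : 0 ≤ r := Finset.sum_nonneg fun l _ => by positivity
  have h1 : ∀ l, (v l).1 ^ 2 + (v l).2 ^ 2 ≤ r := fun l =>
    Finset.single_le_sum (f := fun l => (v l).1 ^ 2 + (v l).2 ^ 2)
      (fun i _ => by positivity) (Finset.mem_univ l)
  have h2 : ‖v‖ ≤ √ r := by
    refine (pi_norm_le_iff_of_nonneg (Real.sqrt_nonneg _)).2 fun l => ?_
    rw [Prod.norm_def]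
    refine max_le ?_ ?_
    · rw [Real.norm_eq_abs]
      exact Real.abs_le_sqrt (by nlinarith [h1 l, sq_nonneg (v l).2])
    · rw [Real.norm_eq_abs]
      exact Real.abs_le_sqrt (by nlinarith [h1 l, sq_nonneg (v l).1])
  have h3 : ‖v‖ ^ 2 ≤ (√ r) ^ 2 := by
    gcongr
  rw [Real.sq_sqrt hr0] at h3
  rw [one_mul]
  exact h3

/-- if the constraints can be satisfied and confine the centres to a compact set `G` then there is
a certificate -/
theorem cert_complete {n m : ℕ} {V : ℕ → Pt} {ρ : ℕ → ℝ}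
    (hρ : ∀ a, 0 ≤ ρ a ∧ ρ a ^ 2 = d2 (V a) (V (nx n a))) {Z : ℕ → Con} {N : Finset ℕ}
    (hZ : ∀ k ∈ N, SValid n m (Z k)) {G : Set Pt} (hG : IsCompact G)
    (hGx : ∀ x : ℕ → Pt, (∀ k ∈ N, 0 ≤ qS n V ρ x (Z k)) → ∀ l < m, x l ∈ G)
    (hne : ∃ x : ℕ → Pt, ∀ k ∈ N, 0 ≤ qS n V ρ x (Z k)) :
    ∃ A ⊆ N, ∃ x, Cert n m V ρ Z N A x := by
  have hFc : IsCompact {x : Fin m → Pt | ∀ k ∈ N, 0 ≤ (qq n m V ρ Z k).val x} := by
    have h1 : IsCompact (Set.pi Set.univ fun _ : Fin m => G) := isCompact_univ_pi fun _ => hG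
    have h2 : IsClosed {x : Fin m → Pt | ∀ k ∈ N, 0 ≤ (qq n m V ρ Z k).val x} := by
      simp only [Set.ofPred_forall]
      exact isClosed_biInter fun k _ => isClosed_le continuous_const (continuous_qq n m V ρ Z k)
    refine h1.of_isClosed_subset h2 fun x hx => ?_
    rw [Set.mem_pi]
    intro l _
    have h3 := hGx (ext0 x) (fun k hk => by rw [← qq_val V ρ (hZ k hk)]; exact hx k hk) l l.2
    have h4 : ext0 x (l : ℕ) = x l := by simp [ext0]
    rwa [h4] at h3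
  obtain ⟨x0, hx0⟩ := hne
  have hne' : ∃ x : Fin m → Pt, ∀ k ∈ N, 0 ≤ (qq n m V ρ Z k).val x := by
    refine ⟨fun l => x0 l, fun k hk => ?_⟩
    rw [qq_val V ρ (hZ k hk), qS_congr (hZ k hk) (x' := x0)]
    · exact hx0 k hk
    · intro l hl
      simp [ext0, hl]
  obtain ⟨A, hA, x, ω, hx, hω, hder, hrest⟩ := exists_tight (continuous_fCQ m) one_pos fCQ_quad
    (continuous_qq n m V ρ Z) N hFc hne'
  have hZA : ∀ k ∈ A, SValid n m (Z k) := fun k hk => hZ k (hA hk)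
  have hLag := lag_eq (V := V) (ρ := ρ) hZA x ω
  have hLag' : Lag n m V ρ Z A ω (ext0 x) = (fCQ m).val x := by
    rw [hLag, Finset.sum_eq_zero (fun k hk => by rw [(hω k hk).2, mul_zero]), add_zero]
  refine ⟨A, hA, ext0 x, Lag n m V ρ Z A ω (ext0 x), ?_, ?_, ?_, ?_⟩
  · intro k hk
    rw [← qq_val V ρ (hZA k hk)]
    exact (hω k hk).2.le
  · unfold Lag
    rw [Finset.sum_eq_zero (s := A) (fun k hk => by
      rw [← qq_val V ρ (hZA k hk), (hω k hk).2, mul_zero]), add_zero]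
  · obtain ⟨s, θ, u, s', u', h⟩ := dc_complete hρ hZA (fun k hk => (hω k hk).1.le)
      (stat_of hZA hder)
    exact ⟨ω, s, θ, u, s', u', fun k hk => (hω k hk).1, h⟩
  · intro k hk hkA
    obtain ⟨z, ω', hω', hder', hval⟩ := hrest k hk hkA
    have hZk : ∀ j ∈ insert k A, SValid n m (Z j) := by
      intro j hj
      rcases Finset.mem_insert.1 hj with rfl | hj
      · exact hZ j hk
      · exact hZA j hj
    obtain ⟨s, θ, u, s', u', h⟩ := dc_complete hρ hZk hω' (stat_of hZk hder')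
    refine ⟨Lag n m V ρ Z (insert k A) ω' (ext0 z), ω', s, θ, u, s', u', ?_, h⟩
    rw [hLag', lag_eq hZk]
    exact hval

end Pool.Agent.Helper94.US
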