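import Pool.Agent.Helper94.US.Defs
import Pool.Agent.Helper20.Flip.EncInj

/-!
# Unique readability of the codes of second-order cone programs
-/

set_option autoImplicit false

namespace Pool.Agent.Helper94.US

open Pool.Agent.Helper20.Flip Pool.Agent.Helper94.UR

private lemma replicate_append_inj : ∀ (a b : ℕ) (r r' : List Bool),
    List.replicate a true ++ false :: r = List.replicate b true ++ false :: r' → a = b ∧ r = r'
  | 0, 0, r, r', h => by
    simpa using h
  | 0, b + 1, r, r', h => by
    simp [List.replicate_succ] at h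
  | a + 1, 0, r, r', h => by
    simp [List.replicate_succ] at h
  | a + 1, b + 1, r, r', h => by
    rw [List.replicate_succ, List.replicate_succ, List.cons_append, List.cons_append,
      List.cons.injEq] at h
    obtain ⟨h1, h2⟩ := replicate_append_inj a b r r' h.2
    exact ⟨by rw [h1], h2⟩

private lemma codeAF_nil : codeAF [] = [false] := rfl

private lemma codeAF_cons (q : ℕ × RatCode) (f : AF) :
    codeAF (q :: f) = true :: (List.replicate q.1 true ++ false :: (encRat q.2 ++ codeAF f)) := by
  simp [codeAF]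

theorem codeAF_append_inj : ∀ (f g : AF) (r r' : List Bool), codeAF f ++ r = codeAF g ++ r' →
    f = g ∧ r = r'
  | [], [], r, r', h => by
    simpa [codeAF_nil] using h
  | [], q :: g, r, r', h => by
    simp [codeAF_nil, codeAF_cons] at h
  | q :: f, [], r, r', h => by
    simp [codeAF_nil, codeAF_cons] at h
  | q :: f, q' :: g, r, r', h => by
    simp only [codeAF_cons, List.cons_append, List.append_assoc, List.cons.injEq, true_and] at h
    obtain ⟨h1, h2⟩ := replicate_append_inj _ _ _ _ h
    obtain ⟨h3, h4⟩ := encRat_append_inj h2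
    obtain ⟨h5, h6⟩ := codeAF_append_inj f g r r' h4
    exact ⟨by rw [Prod.ext h1 h3, h5], h6⟩

private lemma codeI_nil : codeI [] = [false] := rfl

private lemma codeI_cons (c : Cone) (I : List Cone) :
    codeI (c :: I) =
      true :: (codeAF c.1 ++ (codeAF c.2.1 ++ (codeAF c.2.2.1 ++ (codeAF c.2.2.2 ++ codeI I)))) := by
  simp [codeI]

private lemma codeI_inj : ∀ I K : List Cone, codeI I = codeI K → I = K
  | [], [], _ => rfl
  | [], c :: K, h => by
    simp [codeI_nil, codeI_cons] at h
  | c :: I, [], h => by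
    simp [codeI_nil, codeI_cons] at h
  | c :: I, c' :: K, h => by
    simp only [codeI_cons, List.cons.injEq, true_and] at h
    obtain ⟨h1, h2⟩ := codeAF_append_inj _ _ _ _ h
    obtain ⟨h3, h4⟩ := codeAF_append_inj _ _ _ _ h2
    obtain ⟨h5, h6⟩ := codeAF_append_inj _ _ _ _ h4
    obtain ⟨h7, h8⟩ := codeAF_append_inj _ _ _ _ h6
    rw [codeI_inj I K h8, Prod.ext h1 (Prod.ext h3 (Prod.ext h5 h7))]

theorem codeI_injective : Function.Injective codeI := fun I K h => codeI_inj I K h

theorem mem_SOCF (I : List Cone) : codeI I ∈ SOCF ↔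
    (∀ c ∈ I, okCone c) ∧ ∃ v : ℕ → ℝ, ∀ c ∈ I, Cone.Holds v c := by
  constructor
  · rintro ⟨J, h, h1, h2⟩
    rw [codeI_injective h]
    exact ⟨h1, h2⟩
  · rintro ⟨h1, h2⟩
    exact ⟨I, rfl, h1, h2⟩

end Pool.Agent.Helper94.US
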