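import Pool.Agent.Helper94.UR.Real

/-!
# Constraints and dual certificates over the real numbers
-/

set_option autoImplicit false

namespace Pool.Agent.Helper94.US

open Pool.Agent.Helper20.Flip Pool.Agent.Helper94.UR

/-! ### constraints, for vertices `V` and lengths `ρ`

Codes of constraints: `(0, i, j)` for the pair of the disks `i`, `j`, and `(k, i, a)`, `1 ≤ k ≤ 7`,
for the disk `i` and the vertex or edge `a`: `1`: the vertex `a` has distance at least `1`; `2`: the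
projection is before the edge; `3`: the projection is after the edge; `4`, `5`: the centre is at
distance at least `1` to the left (right) of the line; `6`, `7`: the centre is to the left (right) of
the line. -/

/-- linear part -/
def sα (n : ℕ) (V : ℕ → Pt) (k a : ℕ) : Pt :=
  if k = 1 then (0, 0)
  else if k = 2 then ((V a).1 - (V (nx n a)).1, (V a).2 - (V (nx n a)).2)
  else if k = 3 then ((V (nx n a)).1 - (V a).1, (V (nx n a)).2 - (V a).2)
  else if k = 4 ∨ k = 6 then ((V a).2 - (V (nx n a)).2, (V (nx n a)).1 - (V a).1)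
  else ((V (nx n a)).2 - (V a).2, (V a).1 - (V (nx n a)).1)

/-- reference point -/
def sr (n : ℕ) (V : ℕ → Pt) (k a : ℕ) : Pt := if k = 3 then V (nx n a) else V a

/-- constant -/
def se (ρ : ℕ → ℝ) (k a : ℕ) : ℝ := if k = 1 then 1 else if k = 4 ∨ k = 5 then ρ a else 0

/-- the value of the constraint `c` at the centres `x` -/
def qS (n : ℕ) (V : ℕ → Pt) (ρ : ℕ → ℝ) (x : ℕ → Pt) (c : Con) : ℝ :=
  if c.1 = 0 then d2 (x c.2.1) (x c.2.2) - 4
  else (if c.1 = 1 then d2 (x c.2.1) (sr n V c.1 c.2.2) else 0) +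
    (dot (sα n V c.1 c.2.2) (x c.2.1 - sr n V c.1 c.2.2) - se ρ c.1 c.2.2)

/-- the gradient of the constraint `c` with respect to the centre `l` -/
def gS (n : ℕ) (V : ℕ → Pt) (x : ℕ → Pt) (c : Con) (l : ℕ) : Pt :=
  if c.1 = 0 then
    (if l = c.2.1 then (2 : ℝ) • (x c.2.1 - x c.2.2)
      else if l = c.2.2 then (2 : ℝ) • (x c.2.2 - x c.2.1) else 0)
  else if l = c.2.1 then
    (if c.1 = 1 then (2 : ℝ) • (x c.2.1 - sr n V c.1 c.2.2) else 0) + sα n V c.1 c.2.2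
  else 0

/-- codes of constraints for `m` disks and `n` edges -/
def SValid (n m : ℕ) (c : Con) : Prop :=
  (c.1 = 0 ∧ c.2.1 < m ∧ c.2.2 < m ∧ c.2.1 ≠ c.2.2) ∨
    (1 ≤ c.1 ∧ c.1 ≤ 7 ∧ c.2.1 < m ∧ c.2.2 < n)

/-- stationarity of the sum of squares plus a combination of constraints -/
def Stat (n m : ℕ) (V : ℕ → Pt) (Z : ℕ → Con) (S : Finset ℕ) (ω : ℕ → ℝ) (x : ℕ → Pt) : Prop :=
  ∀ l < m, (2 : ℝ) • x l + ∑ k ∈ S, ω k • gS n V x (Z k) l = 0

/-- the value of the Lagrangian -/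
def Lag (n m : ℕ) (V : ℕ → Pt) (ρ : ℕ → ℝ) (Z : ℕ → Con) (S : Finset ℕ) (ω : ℕ → ℝ)
    (x : ℕ → Pt) : ℝ :=
  ∑ l ∈ Finset.range m, dot (x l) (x l) + ∑ k ∈ S, ω k * qS n V ρ x (Z k)

/-! ### dual certificates -/

/-- the contribution of the constraint with the index `k` to the linear equation of the disk `l` -/
def dG (n : ℕ) (V : ℕ → Pt) (c : Con) (ω : ℝ) (u : Pt) (l : ℕ) : Pt :=
  if c.1 = 0 then
    (if l = c.2.1 then (2 : ℝ) • u else if l = c.2.2 then -((2 : ℝ) • u) else 0)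
  else if l = c.2.1 then (if c.1 = 1 then (2 : ℝ) • u else ω • sα n V c.1 c.2.2)
  else 0

/-- the contribution of the constraint to the bound -/
def dW (n : ℕ) (V : ℕ → Pt) (c : Con) (ω s θ : ℝ) (u : Pt) : ℝ :=
  if c.1 = 0 then s + 4 * ω
  else if c.1 = 1 then s + ω + 2 * dot u (V c.2.2)
  else ω * dot (sα n V c.1 c.2.2) (sr n V c.1 c.2.2) + (if c.1 = 4 ∨ c.1 = 5 then θ else 0)

/-- Dual certificates: they show that `t ≤ Lag x` for all `x`. -/
def DC (n m : ℕ) (V : ℕ → Pt) (Z : ℕ → Con) (S : Finset ℕ) (t : ℝ) (ω s θ : ℕ → ℝ) (u : ℕ → Pt)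
    (s' : ℕ → ℝ) (u' : ℕ → Pt) : Prop :=
  (∀ l < m, dot (u' l) (u' l) ≤ s' l) ∧
  (∀ k ∈ S, 0 ≤ ω k ∧
    ((Z k).1 ≤ 1 → dot (u k) (u k) ≤ ω k * s k ∧ 0 ≤ s k) ∧
    ((Z k).1 = 4 ∨ (Z k).1 = 5 →
      ω k ^ 2 * d2 (V (Z k).2.2) (V (nx n (Z k).2.2)) ≤ θ k ^ 2 ∧ 0 ≤ θ k)) ∧
  (∀ l < m, (2 : ℝ) • u' l + ∑ k ∈ S, dG n V (Z k) (ω k) (u k) l = 0) ∧
  t ≤ - ∑ l ∈ Finset.range m, s' l - ∑ k ∈ S, dW n V (Z k) (ω k) (s k) (θ k) (u k)

/-- Certificates for a set `A` of tight constraints: there are centres `x` with nonpositive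
constraints in `A`, and dual certificates which show that `x` is optimal, with positive
multipliers on `A`, and that adding any of the other constraints raises the optimum. -/
def Cert (n m : ℕ) (V : ℕ → Pt) (ρ : ℕ → ℝ) (Z : ℕ → Con) (N A : Finset ℕ) (x : ℕ → Pt) : Prop :=
  ∃ t : ℝ, (∀ k ∈ A, qS n V ρ x (Z k) ≤ 0) ∧ ∑ l ∈ Finset.range m, dot (x l) (x l) ≤ t ∧
    (∃ (ω s θ : ℕ → ℝ) (u : ℕ → Pt) (s' : ℕ → ℝ) (u' : ℕ → Pt), (∀ k ∈ A, 0 < ω k) ∧
      DC n m V Z A t ω s θ u s' u') ∧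
    ∀ k ∈ N, k ∉ A → ∃ (t' : ℝ) (ω s θ : ℕ → ℝ) (u : ℕ → Pt) (s' : ℕ → ℝ) (u' : ℕ → Pt),
      t < t' ∧ DC n m V Z (insert k A) t' ω s θ u s' u'

end Pool.Agent.Helper94.US
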