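import Pool.Agent.Helper94.US.Gen
import Pool.Agent.Helper94.US.Real

/-!
# The list of the constraints
-/

set_option autoImplicit false

namespace Pool.Agent.Helper94.US

open Pool.Agent.Helper20.Flip Pool.Agent.Helper94.UR

theorem mem_consS {n m : ℕ} {y : List Bool} {c : Con} : c ∈ consS n m y ↔
    (∃ i < m, ∃ j < i, c = (0, i, j)) ∨ ∃ l < m, ∃ a < n,
      c ∈ zoneS n l a (bt y 0 l a) (bt y 1 l a) ∨ c = ((if bt y 2 l a then 6 else 7), l, a) := by
  unfold consS
  simp only [List.mem_append, List.mem_flatMap, List.mem_range, List.mem_map, List.mem_singleton]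
  constructor
  · rintro (⟨i, hi, j, hj, rfl⟩ | ⟨i, hi, a, ha, h⟩)
    · exact Or.inl ⟨i, hi, j, hj, rfl⟩
    · exact Or.inr ⟨i, hi, a, ha, h⟩
  · rintro (⟨i, hi, j, hj, rfl⟩ | ⟨i, hi, a, ha, h⟩)
    · exact Or.inl ⟨i, hi, j, hj, rfl⟩
    · exact Or.inr ⟨i, hi, a, ha, h⟩

theorem consS_valid {n m : ℕ} {y : List Bool} {c : Con} (hc : c ∈ consS n m y) :
    SValid n m c := by
  rcases mem_consS.1 hc with ⟨i, hi, j, hj, rfl⟩ | ⟨l, hl, a, ha, h⟩
  · exact Or.inl ⟨rfl, hi, hj.trans hi, hj.ne'⟩
  · have hnx : nx n a < n := by unfold nx; split_ifs <;> omega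
    right
    rcases h with h | rfl
    · unfold zoneS at h
      split_ifs at h <;> simp only [List.mem_cons, List.not_mem_nil, or_false] at h
      · subst h
        exact ⟨by norm_num, by norm_num, hl, ha⟩
      · subst h
        exact ⟨by norm_num, by norm_num, hl, ha⟩
      · rcases h with rfl | rfl
        · exact ⟨by norm_num, by norm_num, hl, hnx⟩
        · exact ⟨by norm_num, by norm_num, hl, ha⟩
      · rcases h with rfl | rfl
        · exact ⟨by norm_num, by norm_num, hl, ha⟩
        · exact ⟨by norm_num, by norm_num, hl, ha⟩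
    · refine ⟨?_, ?_, hl, ha⟩
      · change 1 ≤ (if bt y 2 l a then 6 else 7)
        split_ifs <;> norm_num
      · change (if bt y 2 l a then 6 else 7) ≤ 7
        split_ifs <;> norm_num

private theorem length_zoneS_le (n l a : ℕ) (b b' : Bool) : (zoneS n l a b b').length ≤ 2 := by
  unfold zoneS
  split_ifs <;> simp

private theorem length_flatMap_range_le' {α : Type*} (m B : ℕ) (f : ℕ → List α)
    (h : ∀ i < m, (f i).length ≤ B) : ((List.range m).flatMap f).length ≤ m * B := by
  induction m with
  | zero => simp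
  | succ m ih =>
    rw [List.range_succ, List.flatMap_append, List.length_append]
    have h1 := ih fun i hi => h i (by omega)
    have h2 := h m (by omega)
    simp only [List.flatMap_cons, List.flatMap_nil, List.append_nil]
    rw [add_mul, one_mul]
    omega

theorem length_consS_le (n m : ℕ) (y : List Bool) :
    (consS n m y).length ≤ m * m + m * (n * 3) := by
  unfold consS
  rw [List.length_append]
  refine add_le_add (length_flatMap_range_le' m m _ fun i hi => ?_)
    (length_flatMap_range_le' m (n * 3) _ fun i hi =>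
      length_flatMap_range_le' n 3 _ fun a ha => ?_)
  · simp
    omega
  · rw [List.length_append, List.length_singleton]
    have := length_zoneS_le n i a (bt y 0 i a) (bt y 1 i a)
    omega

theorem consS_congr {n m : ℕ} {y y' : List Bool}
    (h : ∀ l < m, ∀ a < n, bt y 0 l a = bt y' 0 l a ∧ bt y 1 l a = bt y' 1 l a ∧
      bt y 2 l a = bt y' 2 l a) : consS n m y = consS n m y' := by
  unfold consS
  congr 1
  refine List.flatMap_congr fun i hi => List.flatMap_congr fun a ha => ?_
  obtain ⟨h0, h1, h2⟩ := h i (List.mem_range.1 hi) a (List.mem_range.1 ha)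
  rw [h0, h1, h2]

/-- the constraint with the index `k` -/
def Zs (n m : ℕ) (y : List Bool) (k : ℕ) : Con := (consS n m y).getD k default

/-- the set of all indices -/
def Ns (n m : ℕ) (y : List Bool) : Finset ℕ := Finset.range (consS n m y).length

/-- the set of the selected indices -/
def As (n m : ℕ) (y : List Bool) : Finset ℕ := (selS n m y).toFinset

theorem As_subset (n m : ℕ) (y : List Bool) : As n m y ⊆ Ns n m y := by
  intro k hk
  unfold As selS at hk
  rw [List.mem_toFinset, List.mem_filter] at hk
  exact Finset.mem_range.2 (List.mem_range.1 hk.1)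

theorem Zs_valid {n m : ℕ} {y : List Bool} {k : ℕ} (hk : k ∈ Ns n m y) :
    SValid n m (Zs n m y k) := by
  unfold Ns at hk
  rw [Finset.mem_range] at hk
  unfold Zs
  rw [List.getD_eq_getElem _ _ hk]
  exact consS_valid (List.getElem_mem hk)

theorem forall_Zs {n m : ℕ} {y : List Bool} {p : Con → Prop} :
    (∀ k ∈ Ns n m y, p (Zs n m y k)) ↔ ∀ c ∈ consS n m y, p c := by
  unfold Ns Zs
  simp only [Finset.mem_range]
  constructor
  · intro h c hc
    obtain ⟨k, hk, rfl⟩ := List.getElem_of_mem hc
    have := h k hk
    rwa [List.getD_eq_getElem _ _ hk] at this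
  · intro h k hk
    rw [List.getD_eq_getElem _ _ hk]
    exact h _ (List.getElem_mem hk)

end Pool.Agent.Helper94.US
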