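import Pool.Agent.Helper94.UR.Defs

/-!
# Exact feasibility of second-order cone programs
-/

set_option autoImplicit false

namespace Pool.Agent.Helper94.US

open Pool.Agent.Helper20.Flip Pool.Agent.Helper94.UR

/-- Affine forms with rational coefficients in the variables `x 1, x 2, …`: lists of terms, a term
being the index of a variable and a coefficient; the index `0` belongs to the constant `1`. -/
abbrev AF : Type := List (ℕ × RatCode)

/-- The value of an affine form. -/
noncomputable def afVal (v : ℕ → ℝ) (f : AF) : ℝ :=
  (f.map fun q => ratVal q.2 * (if q.1 = 0 then 1 else v q.1)).sum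

/-- Quadruples of affine forms: the constraint `f² + g² ≤ h k`, `0 ≤ h`, `0 ≤ k` (a rotated
second-order cone; equivalently, a linear matrix inequality of size `3`). -/
abbrev Cone : Type := AF × AF × AF × AF

/-- The constraint is satisfied. -/
def Cone.Holds (v : ℕ → ℝ) (c : Cone) : Prop :=
  afVal v c.1 ^ 2 + afVal v c.2.1 ^ 2 ≤ afVal v c.2.2.1 * afVal v c.2.2.2 ∧
    0 ≤ afVal v c.2.2.1 ∧ 0 ≤ afVal v c.2.2.2

/-- All denominators are different from zero. -/
def okAF (f : AF) : Prop := ∀ q ∈ f, val q.2.2.2 ≠ 0

/-- All denominators are different from zero. -/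
def okCone (c : Cone) : Prop := okAF c.1 ∧ okAF c.2.1 ∧ okAF c.2.2.1 ∧ okAF c.2.2.2

/-- The word encoding an affine form; the indices of the variables are in unary, the coefficients
in binary. -/
def codeAF (f : AF) : List Bool :=
  f.flatMap (fun q => true :: (List.replicate q.1 true ++ false :: encRat q.2)) ++ [false]

/-- The word encoding a list of constraints. -/
def codeI (I : List Cone) : List Bool :=
  I.flatMap (fun c => true :: (codeAF c.1 ++ (codeAF c.2.1 ++ (codeAF c.2.2.1 ++ codeAF c.2.2.2)))) ++
    [false]

/-- Exact feasibility of second-order cone programs: the words encoding a finite list of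
constraints `f² + g² ≤ h k`, `0 ≤ h`, `0 ≤ k` with affine forms with rational coefficients which
is satisfied by some real values of the variables. -/
def SOCF : Set (List Bool) :=
  {w | ∃ I : List Cone, w = codeI I ∧ (∀ c ∈ I, okCone c) ∧ ∃ v : ℕ → ℝ, ∀ c ∈ I, Cone.Holds v c}

/-- The problems that reduce to `B` by a polynomial-time many-one reduction. -/
def RedTo (B A : Set (List Bool)) : Prop := ∃ f, PTimeFun f ∧ ∀ w, w ∈ A ↔ f w ∈ B

end Pool.Agent.Helper94.US
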