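import Pool.Agent.Helper94.US.Real

/-!
# Dual certificates
-/

set_option autoImplicit false

namespace Pool.Agent.Helper94.US

open Pool.Agent.Helper20.Flip Pool.Agent.Helper94.UR

private theorem dot_add_left (A B C : Pt) : dot (A + B) C = dot A C + dot B C := by
  simp only [dot, Prod.fst_add, Prod.snd_add]
  ring

private theorem dot_smul_left (c : ℝ) (A B : Pt) : dot (c • A) B = c * dot A B := by
  simp only [dot, Prod.smul_fst, Prod.smul_snd, smul_eq_mul]
  ring

private theorem dot_zero_left (B : Pt) : dot 0 B = 0 := by simp [dot]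

private theorem dot_neg_left (A B : Pt) : dot (-A) B = -dot A B := by
  simp only [dot, Prod.fst_neg, Prod.snd_neg]
  ring

private theorem dot_sub_right (A B C : Pt) : dot A (B - C) = dot A B - dot A C := by
  simp only [dot, Prod.fst_sub, Prod.snd_sub]
  ring

private theorem dot_sum_left {ι : Type*} (S : Finset ι) (f : ι → Pt) (B : Pt) :
    dot (∑ k ∈ S, f k) B = ∑ k ∈ S, dot (f k) B := by
  simp only [dot, Prod.fst_sum, Prod.snd_sum, Finset.sum_mul, Finset.sum_add_distrib]

/-- the sum of the contributions of one constraint -/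
private theorem sum_dG {n m : ℕ} (V : ℕ → Pt) {c : Con} (hc : SValid n m c) (ω : ℝ) (u : Pt)
    (x : ℕ → Pt) : ∑ l ∈ Finset.range m, dot (dG n V c ω u l) (x l) =
      if c.1 = 0 then 2 * dot u (x c.2.1) - 2 * dot u (x c.2.2)
      else if c.1 = 1 then 2 * dot u (x c.2.1)
      else ω * dot (sα n V c.1 c.2.2) (x c.2.1) := by
  rcases hc with ⟨h0, hi, hj, hij⟩ | ⟨h1, h7, hi, ha⟩
  · rw [if_pos h0]
    have h : ∀ l ∈ Finset.range m, dot (dG n V c ω u l) (x l) =
        (if l = c.2.1 then 2 * dot u (x l) else 0) +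
          (if l = c.2.2 then - (2 * dot u (x l)) else 0) := by
      intro l _
      unfold dG
      rw [if_pos h0]
      by_cases hl : l = c.2.1
      · have hl2 : l ≠ c.2.2 := fun h => hij (hl.symm.trans h)
        rw [if_pos hl, if_pos hl, if_neg hl2, dot_smul_left, add_zero]
      · rw [if_neg hl, if_neg hl, zero_add]
        by_cases hl2 : l = c.2.2
        · rw [if_pos hl2, if_pos hl2, dot_neg_left, dot_smul_left]
        · rw [if_neg hl2, if_neg hl2, dot_zero_left]
    rw [Finset.sum_congr rfl h, Finset.sum_add_distrib, Finset.sum_ite_eq', Finset.sum_ite_eq',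
      if_pos (Finset.mem_range.2 hi), if_pos (Finset.mem_range.2 hj)]
    ring
  · have h0 : c.1 ≠ 0 := by omega
    rw [if_neg h0]
    have h : ∀ l ∈ Finset.range m, dot (dG n V c ω u l) (x l) =
        (if l = c.2.1 then dot (if c.1 = 1 then (2 : ℝ) • u else ω • sα n V c.1 c.2.2) (x l)
          else 0) := by
      intro l _
      unfold dG
      rw [if_neg h0]
      by_cases hl : l = c.2.1
      · rw [if_pos hl, if_pos hl]
      · rw [if_neg hl, if_neg hl, dot_zero_left]
    rw [Finset.sum_congr rfl h, Finset.sum_ite_eq', if_pos (Finset.mem_range.2 hi)]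
    by_cases hc1 : c.1 = 1
    · rw [if_pos hc1, if_pos hc1, dot_smul_left]
    · rw [if_neg hc1, if_neg hc1, dot_smul_left]

private theorem quad_bound {ω s : ℝ} {u : Pt} (hω : 0 ≤ ω) (hs : 0 ≤ s) (h : dot u u ≤ ω * s)
    (A B : Pt) : 2 * dot u A - 2 * dot u B ≤ ω * d2 A B + s := by
  rcases hω.eq_or_lt with h0 | h0
  · rw [← h0, zero_mul] at h
    have h1 : u.1 = 0 := by
      have : u.1 * u.1 ≤ 0 := by
        simp only [dot] at h
        nlinarith [mul_self_nonneg u.2]
      nlinarith [mul_self_nonneg u.1]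
    have h2 : u.2 = 0 := by
      have : u.2 * u.2 ≤ 0 := by
        simp only [dot] at h
        nlinarith [mul_self_nonneg u.1]
      nlinarith [mul_self_nonneg u.2]
    rw [← h0]
    simp only [dot, h1, h2]
    linarith
  · have h1 : 0 ≤ (ω * (A.1 - B.1) - u.1) ^ 2 + (ω * (A.2 - B.2) - u.2) ^ 2 := by positivity
    have h2 : 0 ≤ ω * (ω * d2 A B + s - (2 * dot u A - 2 * dot u B)) := by
      simp only [dot, d2] at h ⊢
      nlinarith
    by_contra hcon
    push Not at hcon
    have := mul_neg_of_pos_of_neg h0 (by linarith : ω * d2 A B + s - (2 * dot u A - 2 * dot u B) < 0)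
    linarith

/-- a dual certificate gives a lower bound for the Lagrangian -/
theorem dc_sound {n m : ℕ} {V : ℕ → Pt} {ρ : ℕ → ℝ}
    (hρ : ∀ a, 0 ≤ ρ a ∧ ρ a ^ 2 = d2 (V a) (V (nx n a))) {Z : ℕ → Con} {S : Finset ℕ}
    (hZ : ∀ k ∈ S, SValid n m (Z k)) {t : ℝ} {ω s θ : ℕ → ℝ} {u : ℕ → Pt} {s' : ℕ → ℝ}
    {u' : ℕ → Pt} (h : DC n m V Z S t ω s θ u s' u') (x : ℕ → Pt) :
    t ≤ Lag n m V ρ Z S ω x := by
  obtain ⟨h1, h2, h3, h4⟩ := h
  -- every disk
  have hA : ∀ l ∈ Finset.range m, 2 * dot (u' l) (x l) - s' l ≤ dot (x l) (x l) := by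
    intro l hl
    have h5 := h1 l (Finset.mem_range.1 hl)
    simp only [dot] at h5 ⊢
    nlinarith [sq_nonneg ((x l).1 - (u' l).1), sq_nonneg ((x l).2 - (u' l).2)]
  -- every constraint
  have hB : ∀ k ∈ S, ∑ l ∈ Finset.range m, dot (dG n V (Z k) (ω k) (u k) l) (x l) -
      dW n V (Z k) (ω k) (s k) (θ k) (u k) ≤ ω k * qS n V ρ x (Z k) := by
    intro k hk
    obtain ⟨hω, hs, hθ⟩ := h2 k hk
    rw [sum_dG V (hZ k hk)]
    unfold dW qS
    by_cases h0 : (Z k).1 = 0
    · simp only [if_pos h0]
      obtain ⟨h5, h6⟩ := hs (by omega)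
      have := quad_bound hω h6 h5 (x (Z k).2.1) (x (Z k).2.2)
      linarith
    · simp only [if_neg h0]
      by_cases hc1 : (Z k).1 = 1
      · obtain ⟨h5, h6⟩ := hs (by omega)
        have h7 := quad_bound hω h6 h5 (x (Z k).2.1) (V (Z k).2.2)
        have e1 : sr n V (Z k).1 (Z k).2.2 = V (Z k).2.2 := by
          unfold sr
          rw [if_neg (by omega)]
        have e2 : sα n V (Z k).1 (Z k).2.2 = (0, 0) := by
          unfold sα
          rw [if_pos hc1]
        have e3 : se ρ (Z k).1 (Z k).2.2 = 1 := by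
          unfold se
          rw [if_pos hc1]
        rw [if_pos hc1, if_pos hc1, if_pos hc1, e1, e2, e3]
        have e4 : dot (0, 0) (x (Z k).2.1 - V (Z k).2.2) = 0 := by simp [dot]
        rw [e4]
        linarith
      · simp only [if_neg hc1]
        rw [dot_sub_right]
        by_cases h45 : (Z k).1 = 4 ∨ (Z k).1 = 5
        · obtain ⟨h5, h6⟩ := hθ h45
          have e3 : se ρ (Z k).1 (Z k).2.2 = ρ (Z k).2.2 := by
            unfold se
            rw [if_neg hc1, if_pos h45]
          rw [if_pos h45, e3]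
          obtain ⟨h7, h8⟩ := hρ (Z k).2.2
          rw [← h8, ← mul_pow] at h5
          have h9 : ω k * ρ (Z k).2.2 ≤ θ k := by
            have := abs_le_of_sq_le_sq' h5 h6
            exact this.2
          linarith
        · have e3 : se ρ (Z k).1 (Z k).2.2 = 0 := by
            unfold se
            rw [if_neg hc1, if_neg h45]
          rw [if_neg h45, e3]
          linarith
  have hC := Finset.sum_le_sum hA
  have hD := Finset.sum_le_sum hB
  rw [Finset.sum_sub_distrib] at hC hD
  have hE : ∑ l ∈ Finset.range m, 2 * dot (u' l) (x l) +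
      ∑ k ∈ S, ∑ l ∈ Finset.range m, dot (dG n V (Z k) (ω k) (u k) l) (x l) = 0 := by
    rw [Finset.sum_comm, ← Finset.sum_add_distrib]
    refine Finset.sum_eq_zero fun l hl => ?_
    have h5 := congrArg (fun p : Pt => dot p (x l)) (h3 l (Finset.mem_range.1 hl))
    simpa only [dot_add_left, dot_smul_left, dot_sum_left, dot_zero_left] using h5
  unfold Lag
  linarith

/-- a stationary point of the Lagrangian gives a dual certificate -/
theorem dc_complete {n m : ℕ} {V : ℕ → Pt} {ρ : ℕ → ℝ}
    (hρ : ∀ a, 0 ≤ ρ a ∧ ρ a ^ 2 = d2 (V a) (V (nx n a))) {Z : ℕ → Con} {S : Finset ℕ}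
    (hZ : ∀ k ∈ S, SValid n m (Z k)) {ω : ℕ → ℝ} (hω : ∀ k ∈ S, 0 ≤ ω k) {x : ℕ → Pt}
    (h : Stat n m V Z S ω x) : ∃ (s θ : ℕ → ℝ) (u : ℕ → Pt) (s' : ℕ → ℝ) (u' : ℕ → Pt),
      DC n m V Z S (Lag n m V ρ Z S ω x) ω s θ u s' u' := by
  set w : ℕ → Pt := fun k => if (Z k).1 = 0 then x (Z k).2.2 else V (Z k).2.2 with hw
  set u : ℕ → Pt := fun k => ω k • (x (Z k).2.1 - w k) with hu
  set s : ℕ → ℝ := fun k => ω k * d2 (x (Z k).2.1) (w k) with hs
  set θ : ℕ → ℝ := fun k => ω k * ρ (Z k).2.2 with hθ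
  have hdG : ∀ k ∈ S, ∀ l, dG n V (Z k) (ω k) (u k) l = ω k • gS n V x (Z k) l := by
    intro k hk l
    unfold dG gS
    by_cases h0 : (Z k).1 = 0
    · have e : w k = x (Z k).2.2 := if_pos h0
      simp only [if_pos h0, hu, e]
      split_ifs
      · rw [smul_comm]
      · rw [smul_comm (2 : ℝ) (ω k), ← smul_neg, ← smul_neg, neg_sub]
      · rw [smul_zero]
    · have e : w k = V (Z k).2.2 := if_neg h0
      simp only [if_neg h0, hu, e]
      by_cases hl : l = (Z k).2.1
      · simp only [if_pos hl]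
        by_cases hc1 : (Z k).1 = 1
        · have e1 : sr n V (Z k).1 (Z k).2.2 = V (Z k).2.2 := by
            unfold sr
            rw [if_neg (by omega)]
          have e2 : sα n V (Z k).1 (Z k).2.2 = 0 := by
            unfold sα
            rw [if_pos hc1]
            rfl
          rw [if_pos hc1, if_pos hc1, e1, e2, add_zero, smul_comm]
        · rw [if_neg hc1, if_neg hc1, zero_add]
      · simp only [if_neg hl, smul_zero]
  have hd2 : ∀ A B : Pt, 0 ≤ d2 A B := fun A B => by
    unfold d2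
    positivity
  have hB : ∀ k ∈ S, ∑ l ∈ Finset.range m, dot (dG n V (Z k) (ω k) (u k) l) (x l) -
      dW n V (Z k) (ω k) (s k) (θ k) (u k) = ω k * qS n V ρ x (Z k) := by
    intro k hk
    rw [sum_dG V (hZ k hk)]
    unfold dW qS
    by_cases h0 : (Z k).1 = 0
    · have e : w k = x (Z k).2.2 := if_pos h0
      simp only [if_pos h0, hu, hs, e, dot_smul_left]
      simp only [dot, d2, Prod.fst_sub, Prod.snd_sub]
      ring
    · have e : w k = V (Z k).2.2 := if_neg h0
      simp only [if_neg h0]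
      by_cases hc1 : (Z k).1 = 1
      · have e1 : sr n V (Z k).1 (Z k).2.2 = V (Z k).2.2 := by
          unfold sr
          rw [if_neg (by omega)]
        have e2 : sα n V (Z k).1 (Z k).2.2 = (0, 0) := by
          unfold sα
          rw [if_pos hc1]
        have e3 : se ρ (Z k).1 (Z k).2.2 = 1 := by
          unfold se
          rw [if_pos hc1]
        rw [if_pos hc1, if_pos hc1, if_pos hc1, e1, e2, e3]
        simp only [hu, hs, e, dot_smul_left]
        simp only [dot, d2, Prod.fst_sub, Prod.snd_sub]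
        ring
      · simp only [if_neg hc1]
        rw [dot_sub_right]
        by_cases h45 : (Z k).1 = 4 ∨ (Z k).1 = 5
        · have e3 : se ρ (Z k).1 (Z k).2.2 = ρ (Z k).2.2 := by
            unfold se
            rw [if_neg hc1, if_pos h45]
          rw [if_pos h45, e3]
          simp only [hθ]
          ring
        · have e3 : se ρ (Z k).1 (Z k).2.2 = 0 := by
            unfold se
            rw [if_neg hc1, if_neg h45]
          rw [if_neg h45, e3]
          ring
  refine ⟨s, θ, u, fun l => dot (x l) (x l), x, fun l _ => le_rfl, ?_, ?_, ?_⟩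
  · intro k hk
    refine ⟨hω k hk, fun _ => ⟨?_, mul_nonneg (hω k hk) (hd2 _ _)⟩, fun _ => ⟨?_, ?_⟩⟩
    · refine le_of_eq ?_
      simp only [hu, hs, dot, d2, Prod.smul_fst, Prod.smul_snd, Prod.fst_sub, Prod.snd_sub,
        smul_eq_mul]
      ring
    · refine le_of_eq ?_
      simp only [hθ]
      rw [← (hρ (Z k).2.2).2]
      ring
    · exact mul_nonneg (hω k hk) (hρ _).1
  · intro l hl
    have h5 := h l hl
    rwa [Finset.sum_congr rfl fun k hk => hdG k hk l]
  · have hD := Finset.sum_congr rfl hB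
    rw [Finset.sum_sub_distrib] at hD
    have hE : ∑ l ∈ Finset.range m, 2 * dot (x l) (x l) +
        ∑ k ∈ S, ∑ l ∈ Finset.range m, dot (dG n V (Z k) (ω k) (u k) l) (x l) = 0 := by
      rw [Finset.sum_comm, ← Finset.sum_add_distrib]
      refine Finset.sum_eq_zero fun l hl => ?_
      have h5 := congrArg (fun p : Pt => dot p (x l)) (h l (Finset.mem_range.1 hl))
      rw [← Finset.sum_congr rfl fun k hk => hdG k hk l] at h5
      simpa only [dot_add_left, dot_smul_left, dot_sum_left, dot_zero_left] using h5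
    rw [← Finset.mul_sum] at hE
    unfold Lag
    linarith

end Pool.Agent.Helper94.US
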