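import Pool.Agent.Helper94.US.ConsS

/-!
# Guesses
-/

set_option autoImplicit false

namespace Pool.Agent.Helper94.US

open Pool.Agent.Helper20.Flip Pool.Agent.Helper94.UR

/-- the bound for the length of the guess -/
def bndS (n m : ℕ) : ℕ := ((m * m + m * (n * 3) + n + m + 1) ^ 2 + 8) ^ 2

/-- the guess of length `L` with the letter `B k i j` at the position `Nat.pair k (Nat.pair i j)` -/
private def mkS (L : ℕ) (B : ℕ → ℕ → ℕ → Bool) : List Bool :=
  (List.range L).map fun r => B (Nat.unpair r).1 (Nat.unpair (Nat.unpair r).2).1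
    (Nat.unpair (Nat.unpair r).2).2

private theorem length_mkS (L : ℕ) (B : ℕ → ℕ → ℕ → Bool) : (mkS L B).length = L := by
  simp [mkS]

private theorem bt_mkS {L : ℕ} (B : ℕ → ℕ → ℕ → Bool) {k i j : ℕ}
    (h : Nat.pair k (Nat.pair i j) < L) : bt (mkS L B) k i j = B k i j := by
  unfold bt
  rw [List.getD_eq_getElem _ _ (by rw [length_mkS]; exact h)]
  simp [mkS]

private theorem pos_lt {n m k i j : ℕ} (hk : k ≤ 7)
    (hi : i < m * m + m * (n * 3) + n + m + 1) (hj : j < m * m + m * (n * 3) + n + m + 1) :
    Nat.pair k (Nat.pair i j) < bndS n m := by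
  unfold bndS
  generalize m * m + m * (n * 3) + n + m + 1 = s at hi hj
  have h1 : Nat.pair i j < s ^ 2 := by
    refine (Nat.pair_lt_max_add_one_sq i j).trans_le ?_
    exact Nat.pow_le_pow_left (Nat.succ_le_of_lt (max_lt hi hj)) 2
  refine (Nat.pair_lt_max_add_one_sq k (Nat.pair i j)).trans_le ?_
  refine Nat.pow_le_pow_left ?_ 2
  have h2 : max k (Nat.pair i j) < s ^ 2 + 8 := max_lt (by omega) (by omega)
  omega

private theorem count_lt {n c : ℕ} (h : c ≤ n) (f : ℕ → Bool)
    (hf : ∀ a < n, f a = decide (a < c)) : ((List.range n).filter fun a => f a).length = c := by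
  have h1 : ((List.range n).filter fun a => f a) = (List.range n).filter fun a => decide (a < c) := by
    refine List.filter_congr fun a ha => ?_
    exact hf a (List.mem_range.1 ha)
  rw [h1]
  induction n generalizing c with
  | zero =>
    have : c = 0 := by omega
    subst this
    rfl
  | succ n ih =>
    rw [List.range_succ, List.filter_append, List.length_append]
    rcases Nat.lt_or_ge n c with h2 | h2
    · have h3 : c = n + 1 := by omega
      subst h3
      have h4 : ((List.range n).filter fun a => decide (a < n + 1)) = List.range n := by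
        rw [List.filter_eq_self]
        intro a ha
        have := List.mem_range.1 ha
        simp only [decide_eq_true_eq]
        omega
      rw [h4, List.length_range]
      simp
    · have h3 := ih h2 (fun a ha => hf a (by omega)) (by
        refine List.filter_congr fun a ha => ?_
        exact hf a (by have := List.mem_range.1 ha; omega))
      rw [h3]
      have h4 : ([n].filter fun a => decide (a < c)) = [] := by
        rw [List.filter_eq_nil_iff]
        intro a ha
        rw [List.mem_singleton] at ha
        subst ha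
        simp only [decide_eq_true_eq]
        omega
      rw [h4, List.length_nil, Nat.add_zero]

/-- Every choice of zones, cells, numbers and every selection is coded by a guess of small length
(the guess has the letter `B k i j` at the position `Nat.pair k (Nat.pair i j)`, for a suitable
function `B`; numbers are coded by the bits `decide (a < lo l)`). -/
theorem exists_guessS (n m : ℕ) (zb zb' σ τ : ℕ → ℕ → Bool) (lo hi : ℕ → ℕ)
    (hlo : ∀ l < m, lo l ≤ n) (hhi : ∀ l < m, hi l ≤ n) (K : List Con → Finset ℕ)
    (hK : ∀ Z, K Z ⊆ Finset.range Z.length) :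
    ∃ y : List Bool, y.length ≤ bndS n m ∧
      (∀ l < m, ∀ a < n, bt y 0 l a = zb l a ∧ bt y 1 l a = zb' l a ∧ bt y 2 l a = σ l a ∧
        bt y 3 l a = τ l a) ∧
      (∀ l < m, cnt n y 4 l = lo l ∧ cnt n y 5 l = hi l) ∧
      As n m y = K (consS n m y) := by
  classical
  set B : (ℕ → Bool) → ℕ → ℕ → ℕ → Bool := fun s k i j =>
    if k = 0 then zb i j else if k = 1 then zb' i j else if k = 2 then σ i j
    else if k = 3 then τ i j else if k = 4 then decide (j < lo i)
    else if k = 5 then decide (j < hi i) else s i with hB
  set y₀ := mkS (bndS n m) (B fun _ => false) with hy₀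
  set y := mkS (bndS n m) (B fun k => decide (k ∈ K (consS n m y₀))) with hy
  have hbt : ∀ (s : ℕ → Bool) (k l a : ℕ), k ≤ 7 → l < m → a < n →
      bt (mkS (bndS n m) (B s)) k l a = B s k l a := by
    intro s k l a hk hl ha
    refine bt_mkS _ (pos_lt hk ?_ ?_)
    · omega
    · omega
  have hcons : consS n m y = consS n m y₀ := by
    refine consS_congr fun l hl a ha => ?_
    rw [hy, hy₀]
    refine ⟨?_, ?_, ?_⟩ <;> rw [hbt _ _ l a (by omega) hl ha, hbt _ _ l a (by omega) hl ha] <;> rfl
  refine ⟨y, (length_mkS _ _).le, ?_, ?_, ?_⟩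
  · intro l hl a ha
    rw [hy]
    refine ⟨?_, ?_, ?_, ?_⟩ <;> rw [hbt _ _ l a (by omega) hl ha] <;> simp [hB]
  · intro l hl
    unfold cnt
    refine ⟨count_lt (hlo l hl) _ fun a ha => ?_, count_lt (hhi l hl) _ fun a ha => ?_⟩
    · rw [hy, hbt _ _ l a (by omega) hl ha]
      simp [hB]
    · rw [hy, hbt _ _ l a (by omega) hl ha]
      simp [hB]
  · have hlen := length_consS_le n m y₀
    have hsel : ∀ k < (consS n m y₀).length, bt y 6 k 0 = decide (k ∈ K (consS n m y₀)) := by
      intro k hk
      rw [hy, bt_mkS _ (pos_lt (by omega) (by omega) (by omega))]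
      simp [hB]
    rw [hcons]
    ext k
    unfold As selS
    rw [List.mem_toFinset, List.mem_filter, List.mem_range, hcons]
    constructor
    · rintro ⟨h2, h3⟩
      rw [hsel k h2] at h3
      simpa using h3
    · intro h2
      have h3 : k < (consS n m y₀).length := Finset.mem_range.1 (hK _ h2)
      refine ⟨h3, ?_⟩
      rw [hsel k h3]
      simpa using h2

end Pool.Agent.Helper94.US
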