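import Pool.Agent.Helper94.US.Gen

/-!
# The denominators in the program are different from zero
-/

set_option autoImplicit false

namespace Pool.Agent.Helper94.US

open Pool.Agent.Helper20.Flip Pool.Agent.Helper94.UR

namespace OkG

/-- all cones have nonzero denominators -/
def okL (l : List Cone) : Prop := ∀ c ∈ l, okCone c

theorem okL_nil : okL [] := by simp [okL]

theorem okL_cons {c : Cone} {l : List Cone} (hc : okCone c) (hl : okL l) : okL (c :: l) := by
  intro d hd
  rcases List.mem_cons.1 hd with rfl | h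
  · exact hc
  · exact hl d h

theorem okL_append {k l : List Cone} (hk : okL k) (hl : okL l) : okL (k ++ l) := by
  intro d hd
  rcases List.mem_append.1 hd with h | h
  · exact hk d h
  · exact hl d h

theorem okL_map {α : Type*} {l : List α} {f : α → Cone} (h : ∀ a ∈ l, okCone (f a)) :
    okL (l.map f) := by
  intro d hd
  obtain ⟨a, ha, rfl⟩ := List.mem_map.1 hd
  exact h a ha

theorem okL_flatMap {α : Type*} {l : List α} {f : α → List Cone} (h : ∀ a ∈ l, okL (f a)) :
    okL (l.flatMap f) := by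
  intro d hd
  obtain ⟨a, ha, h1⟩ := List.mem_flatMap.1 hd
  exact h a ha d h1

theorem okL_eqz {h : AF} (hh : okAF h) : okL (eqz h) := okCone_eqz hh

theorem okCone_mk {f g h k : AF} (hf : okAF f) (hg : okAF g) (hh : okAF h) (hk : okAF k) :
    okCone (f, g, h, k) := ⟨hf, hg, hh, hk⟩

theorem okAF_af4 {f : AF} (hf : okAF f) : okAF (af4 f) :=
  okAF_append (okAF_append hf hf) (okAF_append hf hf)

section

variable {P : List (RatCode × RatCode)} (hden : ∀ q ∈ P, val q.1.2.2 ≠ 0 ∧ val q.2.2.2 ≠ 0)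

include hden

theorem getD_ok (a : ℕ) : val (P.getD a dfl).1.2.2 ≠ 0 ∧ val (P.getD a dfl).2.2.2 ≠ 0 := by
  by_cases h : a < P.length
  · rw [List.getD_eq_getElem _ _ h]
    exact hden _ (List.getElem_mem h)
  · rw [List.getD_eq_default _ _ (not_lt.1 h)]
    simp [dfl, val_cons]

theorem ok_vxq (a : ℕ) : qok (vxq P a) := qok_of (getD_ok hden a).1

theorem ok_vyq (a : ℕ) : qok (vyq P a) := qok_of (getD_ok hden a).2

theorem ok_dxq (a : ℕ) : qok (dxq P a) := qok_sub (ok_vxq hden _) (ok_vxq hden _)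

theorem ok_dyq (a : ℕ) : qok (dyq P a) := qok_sub (ok_vyq hden _) (ok_vyq hden _)

theorem ok_αq1 (k a : ℕ) : qok (αq P k a).1 := by
  unfold αq
  split_ifs
  · exact qok_neg (ok_dxq hden a)
  · exact ok_dxq hden a
  · exact qok_neg (ok_dyq hden a)
  · exact ok_dyq hden a

theorem ok_αq2 (k a : ℕ) : qok (αq P k a).2 := by
  unfold αq
  split_ifs
  · exact qok_neg (ok_dyq hden a)
  · exact ok_dyq hden a
  · exact ok_dxq hden a
  · exact qok_neg (ok_dxq hden a)

theorem ok_rq1 (k a : ℕ) : qok (rq P k a).1 := by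
  unfold rq
  split_ifs <;> exact ok_vxq hden _

theorem ok_rq2 (k a : ℕ) : qok (rq P k a).2 := by
  unfold rq
  split_ifs <;> exact ok_vyq hden _

theorem ok_αrq (k a : ℕ) : qok (αrq P k a) :=
  qok_add (qok_mul (ok_αq1 hden k a) (ok_rq1 hden k a))
    (qok_mul (ok_αq2 hden k a) (ok_rq2 hden k a))

theorem ok_crossF (a ix iy : ℕ) : okAF (crossF P a ix iy) :=
  okAF_append (okAF_append (okAF_ent _ (ok_dxq hden a)) (okAF_ent _ (qok_neg (ok_dyq hden a))))
    (okAF_ent _ (qok_sub (qok_mul (ok_dyq hden a) (ok_vxq hden a))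
      (qok_mul (ok_dxq hden a) (ok_vyq hden a))))

theorem ok_affF (i a : ℕ) : okAF (affF P i a) :=
  okAF_append (okAF_append (okAF_ent _ (ok_vxq hden a)) (okAF_ent _ (ok_vyq hden a)))
    (okAF_vr _ _ _)

theorem ok_linF (i a b : ℕ) : okAF (linF P i a b) :=
  okAF_append (okAF_ent _ (qok_sub (ok_vxq hden a) (ok_vxq hden b)))
    (okAF_ent _ (qok_sub (ok_vyq hden a) (ok_vyq hden b)))

theorem ok_dGF (c : Con) (d k l : ℕ) (cmp : Bool) : okAF (dGF P c d k l cmp) := by
  unfold dGF
  split_ifs <;> first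
    | exact okAF_nil
    | exact okAF_append (okAF_vr _ _ _) (okAF_vr _ _ _)
    | exact okAF_neg (okAF_append (okAF_vr _ _ _) (okAF_vr _ _ _))
    | exact okAF_ent _ (ok_αq1 hden _ _)
    | exact okAF_ent _ (ok_αq2 hden _ _)

theorem ok_dWF (c : Con) (d k : ℕ) : okAF (dWF P c d k) := by
  unfold dWF
  split_ifs
  · exact okAF_append (okAF_vr _ _ _) (okAF_af4 (okAF_vr _ _ _))
  · refine okAF_append (okAF_append (okAF_vr _ _ _) (okAF_vr _ _ _)) (okAF_append ?_ ?_) <;>
    exact okAF_append (okAF_ent _ (ok_vxq hden _)) (okAF_ent _ (ok_vyq hden _))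
  · exact okAF_append (okAF_ent _ (ok_αrq hden _ _)) (okAF_vr _ _ _)
  · exact okAF_append (okAF_ent _ (ok_αrq hden _ _)) okAF_nil

theorem ok_mulL (c : Con) (d k : ℕ) : okL (mulL P c d k) := by
  unfold mulL
  refine okL_append (okL_cons (okCone_lin (okAF_vr _ _ _)) okL_nil) (okL_append ?_ ?_)
  · split_ifs
    · exact okL_cons (okCone_mk (okAF_vr _ _ _) (okAF_vr _ _ _) (okAF_vr _ _ _) (okAF_vr _ _ _))
        okL_nil
    · exact okL_nil
  · split_ifs
    · exact okL_cons (okCone_mk (okAF_ent _ (ok_dxq hden _)) (okAF_ent _ (ok_dyq hden _))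
        (okAF_vr _ _ _) (okAF_vr _ _ _)) okL_nil
    · exact okL_nil

theorem ok_lenL : okL (lenL P) := by
  unfold lenL
  refine okL_map fun a _ => ?_
  exact okCone_mk (okAF_vr _ _ _) okAF_nil (okAF_ent _ (qok_add
    (qok_mul (ok_dxq hden a) (ok_dxq hden a)) (qok_mul (ok_dyq hden a) (ok_dyq hden a))))
    okAF_onef

theorem ok_primC (c : Con) : okCone (primC P c) := by
  unfold primC
  split_ifs
  · exact okCone_mk (okAF_append (okAF_vr _ _ _) (okAF_neg (okAF_vr _ _ _)))
      (okAF_append (okAF_vr _ _ _) (okAF_neg (okAF_vr _ _ _))) (okAF_af4 okAF_onef) okAF_onef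
  · exact okCone_mk (okAF_append (okAF_vr _ _ _) (okAF_ent _ (qok_neg (ok_vxq hden _))))
      (okAF_append (okAF_vr _ _ _) (okAF_ent _ (qok_neg (ok_vyq hden _)))) okAF_onef okAF_onef
  · exact okCone_lin (okAF_append (okAF_vr _ _ _) (okAF_append (okAF_neg (okAF_append
      (okAF_ent _ (ok_αq1 hden _ _)) (okAF_ent _ (ok_αq2 hden _ _))))
      (okAF_ent _ (ok_αrq hden _ _))))
  · exact okCone_lin (okAF_append okAF_nil (okAF_append (okAF_neg (okAF_append
      (okAF_ent _ (ok_αq1 hden _ _)) (okAF_ent _ (ok_αq2 hden _ _))))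
      (okAF_ent _ (ok_αrq hden _ _))))

omit hden in
theorem ok_sqL (m : ℕ) : okL (sqL m) := by
  unfold sqL
  refine okL_append (okL_map fun l _ => okCone_mk (okAF_vr _ _ _) (okAF_vr _ _ _)
    (okAF_vr _ _ _) okAF_onef) (okL_cons (okCone_lin (okAF_append (okAF_vr _ _ _)
      (okAF_neg (okAF_flatMap fun l _ => okAF_vr _ _ _)))) okL_nil)

theorem ok_dualL (m : ℕ) (Z : List Con) (S : List ℕ) (d : ℕ) {T : AF} (hT : okAF T) :
    okL (dualL P m Z S d T) := by
  unfold dualL
  refine okL_append (okL_map fun l _ => okCone_mk (okAF_vr _ _ _) (okAF_vr _ _ _)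
    (okAF_vr _ _ _) okAF_onef) (okL_append (okL_flatMap fun k _ => ok_mulL hden _ _ _)
      (okL_append (okL_flatMap fun l _ => okL_append (okL_eqz ?_) (okL_eqz ?_))
        (okL_cons (okCone_lin ?_) okL_nil)))
  · exact okAF_append (okAF_append (okAF_vr _ _ _) (okAF_vr _ _ _))
      (okAF_flatMap fun k _ => ok_dGF hden _ _ _ _ _)
  · exact okAF_append (okAF_append (okAF_vr _ _ _) (okAF_vr _ _ _))
      (okAF_flatMap fun k _ => ok_dGF hden _ _ _ _ _)
  · exact okAF_append (okAF_neg (okAF_flatMap fun l _ => okAF_vr _ _ _))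
      (okAF_append (okAF_neg (okAF_flatMap fun k _ => ok_dWF hden _ _ _)) (okAF_neg hT))

theorem ok_certL (m : ℕ) (y : List Bool) : okL (certL P m y) := by
  unfold certL
  refine okL_append (okL_append (ok_lenL hden) (okL_append
    (okL_map fun k _ => ok_primC hden _) (ok_sqL m))) (okL_append (okL_append
      (ok_dualL hden _ _ _ _ (okAF_vr _ _ _)) (okL_map fun k _ => okCone_posC
        (okAF_vr _ _ _) _ _ _)) (okL_flatMap fun k _ => okL_append
          (ok_dualL hden _ _ _ _ (okAF_vr _ _ _)) (okL_cons (okCone_posC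
            (okAF_append (okAF_vr _ _ _) (okAF_neg (okAF_vr _ _ _))) _ _ _) okL_nil)))

theorem ok_cellL (m : ℕ) (y : List Bool) : okL (cellL P m y) := by
  unfold cellL
  refine okL_flatMap fun l _ => okL_append (okL_flatMap fun a _ => ?_) (okL_append
    (okL_append (okL_eqz (ok_crossF hden _ _ _)) (okL_eqz (ok_crossF hden _ _ _)))
    (okL_flatMap fun e _ => ?_))
  · refine okL_cons (okCone_posC ?_ _ _ _) (okL_cons (okCone_posC ?_ _ _ _) okL_nil)
    · split_ifs
      · exact ok_crossF hden _ _ _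
      · exact okAF_neg (ok_crossF hden _ _ _)
    · split_ifs
      · exact okAF_append (okAF_vr _ _ _) (okAF_ent _ (qok_neg (ok_vxq hden _)))
      · exact okAF_append (okAF_ent _ (ok_vxq hden _)) (okAF_neg (okAF_vr _ _ _))
  · split_ifs
    · exact okL_cons (okCone_lin (okAF_neg (ok_crossF hden _ _ _)))
        (okL_cons (okCone_lin (ok_crossF hden _ _ _)) okL_nil)
    · exact okL_cons (okCone_lin (ok_crossF hden _ _ _))
        (okL_cons (okCone_lin (okAF_neg (ok_crossF hden _ _ _))) okL_nil)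
    · exact okL_nil

theorem ok_sepL (a b : ℕ) : okL (sepL P a b) := by
  unfold sepL
  split_ifs
  · exact okL_nil
  · exact okL_nil
  · exact okL_cons (okCone_lin (okAF_append (ok_linF hden _ _ _) (okAF_neg okAF_onef)))
      (okL_cons (okCone_lin (okAF_neg (ok_linF hden _ _ _))) okL_nil)
  · exact okL_cons (okCone_lin (okAF_append (ok_affF hden _ _) (okAF_neg okAF_onef)))
      (okL_cons (okCone_lin (okAF_append (ok_affF hden _ _) (okAF_neg okAF_onef)))
      (okL_cons (okCone_lin (okAF_neg (okAF_append (ok_affF hden _ _) okAF_onef)))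
      (okL_cons (okCone_lin (okAF_neg (okAF_append (ok_affF hden _ _) okAF_onef))) okL_nil)))

theorem ok_simL : okL (simL P) := by
  unfold simL
  refine okL_append (okL_map fun a _ => okCone_lin (okAF_append (okAF_append
    (okAF_ent _ (qok_neg (ok_dxq hden _))) (okAF_ent _ (qok_neg (ok_dyq hden _))))
    (okAF_neg okAF_onef))) (okL_flatMap fun a _ => okL_flatMap fun b _ => ok_sepL hden _ _)

end

end OkG

theorem ok_sysL {P : List (RatCode × RatCode)}
    (hden : ∀ q ∈ P, val q.1.2.2 ≠ 0 ∧ val q.2.2.2 ≠ 0) (m : ℕ) (y : List Bool) :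
    ∀ c ∈ sysL P m y, okCone c :=
  OkG.okL_append (OkG.ok_certL hden m y) (OkG.okL_append (OkG.ok_cellL hden m y)
    (OkG.ok_simL hden))

end Pool.Agent.Helper94.US
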