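import Pool.Agent.Helper94.US.Gen
import Pool.Agent.Helper94.UR.PGen

/-!
# The second-order cone program is computable in polynomial time
-/

set_option autoImplicit false

namespace Pool.Agent.Helper94.US

open Pool.Agent.Helper20.Flip Pool.Agent.Helper94.UR Pool.Agent.Helper96

section
variable {α : Type} [Enc α]

@[fun_prop]
theorem Poly.bt {y : α → List Bool} {f g h : α → ℕ} (hy : Poly y) (hf : Poly f) (hg : Poly g)
    (hh : Poly h) : Poly (fun a => bt (y a) (f a) (g a) (h a)) := by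
  unfold US.bt; fun_prop

@[fun_prop]
theorem Poly.zoneS {f g h : α → ℕ} {b b' : α → Bool} (hf : Poly f) (hg : Poly g) (hh : Poly h)
    (hb : Poly b) (hb' : Poly b') : Poly (fun a => zoneS (f a) (g a) (h a) (b a) (b' a)) := by
  unfold US.zoneS; fun_prop

@[fun_prop]
theorem Poly.consS {f g : α → ℕ} {y : α → List Bool} (hf : Poly f) (hg : Poly g) (hy : Poly y) :
    Poly (fun a => consS (f a) (g a) (y a)) := by
  unfold US.consS; fun_prop

@[fun_prop]
theorem Poly.selS {f g : α → ℕ} {y : α → List Bool} (hf : Poly f) (hg : Poly g) (hy : Poly y) :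
    Poly (fun a => selS (f a) (g a) (y a)) := by
  unfold US.selS; fun_prop

@[fun_prop]
theorem Poly.cselS {f g : α → ℕ} {y : α → List Bool} (hf : Poly f) (hg : Poly g) (hy : Poly y) :
    Poly (fun a => cselS (f a) (g a) (y a)) := by
  unfold US.cselS; fun_prop

theorem Poly.rgt {n f : α → ℕ} {τ : α → ℕ → Bool} (hn : Poly n)
    (hτ : Poly (fun q : α × ℕ => τ q.1 q.2)) (hf : Poly f) :
    Poly (fun a => rgt (n a) (τ a) (f a)) := by
  unfold US.rgt
  have h1 : Poly (fun a => τ a (f a)) :=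
    Poly.comp (g := fun q : α × ℕ => τ q.1 q.2) (f := fun a => (a, f a)) hτ (by fun_prop)
  have h2 : Poly (fun a => τ a (nx (n a) (f a))) :=
    Poly.comp (g := fun q : α × ℕ => τ q.1 q.2) (f := fun a => (a, nx (n a) (f a))) hτ
      (by fun_prop)
  fun_prop

theorem Poly.lft {n f : α → ℕ} {τ : α → ℕ → Bool} (hn : Poly n)
    (hτ : Poly (fun q : α × ℕ => τ q.1 q.2)) (hf : Poly f) :
    Poly (fun a => lft (n a) (τ a) (f a)) := by
  unfold US.lft
  have h1 : Poly (fun a => τ a (f a)) :=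
    Poly.comp (g := fun q : α × ℕ => τ q.1 q.2) (f := fun a => (a, f a)) hτ (by fun_prop)
  have h2 : Poly (fun a => τ a (nx (n a) (f a))) :=
    Poly.comp (g := fun q : α × ℕ => τ q.1 q.2) (f := fun a => (a, nx (n a) (f a))) hτ
      (by fun_prop)
  fun_prop

theorem Poly.upB {n f : α → ℕ} {σ τ : α → ℕ → Bool} (hn : Poly n)
    (hσ : Poly (fun q : α × ℕ => σ q.1 q.2)) (hτ : Poly (fun q : α × ℕ => τ q.1 q.2))
    (hf : Poly f) : Poly (fun a => upB (n a) (σ a) (τ a) (f a)) := by
  unfold US.upB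
  have h1 : Poly (fun a => σ a (f a)) :=
    Poly.comp (g := fun q : α × ℕ => σ q.1 q.2) (f := fun a => (a, f a)) hσ (by fun_prop)
  have h2 := Poly.rgt hn hτ hf
  have h3 := Poly.lft hn hτ hf
  fun_prop

@[fun_prop]
theorem Poly.cnt {n f g : α → ℕ} {y : α → List Bool} (hn : Poly n) (hy : Poly y) (hf : Poly f)
    (hg : Poly g) : Poly (fun a => cnt (n a) (y a) (f a) (g a)) := by
  unfold US.cnt; fun_prop

theorem Poly.bOk {n f g : α → ℕ} {σ τ : α → ℕ → Bool} (hn : Poly n)
    (hσ : Poly (fun q : α × ℕ => σ q.1 q.2)) (hτ : Poly (fun q : α × ℕ => τ q.1 q.2))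
    (hf : Poly f) (hg : Poly g) : Poly (fun a => bOk (n a) (σ a) (τ a) (f a) (g a)) := by
  unfold US.bOk
  have h1 := Poly.upB hn hσ hτ hf
  have h2 := Poly.upB hn hσ hτ hg
  have h3 := Poly.rgt hn hτ hf
  have h4 := Poly.rgt hn hτ hg
  have h5 : Poly (fun a => (US.rgt (n a) (τ a) (f a) == US.rgt (n a) (τ a) (g a))) :=
    Poly.beq_eq h3 h4
  fun_prop

@[fun_prop]
theorem Poly.okB {f g : α → ℕ} {y : α → List Bool} (hf : Poly f) (hg : Poly g) (hy : Poly y) :
    Poly (fun a => okB (f a) (g a) (y a)) := by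
  unfold US.okB
  refine Poly.all (by fun_prop) ?_
  exact Poly.bOk (n := fun q : α × ℕ => f q.1) (σ := fun q : α × ℕ => US.bt (y q.1) 2 q.2)
    (τ := fun q : α × ℕ => US.bt (y q.1) 3 q.2) (by fun_prop) (by fun_prop) (by fun_prop)
    (by fun_prop) (by fun_prop)

@[fun_prop]
theorem Poly.vxq {P : α → List (RatCode × RatCode)} {f : α → ℕ} (hP : Poly P) (hf : Poly f) :
    Poly (fun a => vxq (P a) (f a)) := by
  unfold US.vxq; fun_prop

@[fun_prop]
theorem Poly.vyq {P : α → List (RatCode × RatCode)} {f : α → ℕ} (hP : Poly P) (hf : Poly f) :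
    Poly (fun a => vyq (P a) (f a)) := by
  unfold US.vyq; fun_prop

@[fun_prop]
theorem Poly.dxq {P : α → List (RatCode × RatCode)} {f : α → ℕ} (hP : Poly P) (hf : Poly f) :
    Poly (fun a => dxq (P a) (f a)) := by
  unfold US.dxq; fun_prop

@[fun_prop]
theorem Poly.dyq {P : α → List (RatCode × RatCode)} {f : α → ℕ} (hP : Poly P) (hf : Poly f) :
    Poly (fun a => dyq (P a) (f a)) := by
  unfold US.dyq; fun_prop

@[fun_prop]
theorem Poly.αq {P : α → List (RatCode × RatCode)} {f g : α → ℕ} (hP : Poly P) (hf : Poly f)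
    (hg : Poly g) : Poly (fun a => αq (P a) (f a) (g a)) := by
  unfold US.αq; fun_prop

@[fun_prop]
theorem Poly.rq {P : α → List (RatCode × RatCode)} {f g : α → ℕ} (hP : Poly P) (hf : Poly f)
    (hg : Poly g) : Poly (fun a => rq (P a) (f a) (g a)) := by
  unfold US.rq; fun_prop

@[fun_prop]
theorem Poly.αrq {P : α → List (RatCode × RatCode)} {f g : α → ℕ} (hP : Poly P) (hf : Poly f)
    (hg : Poly g) : Poly (fun a => αrq (P a) (f a) (g a)) := by
  unfold US.αrq; fun_prop

@[fun_prop]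
theorem Poly.af4 {f : α → AF} (hf : Poly f) : Poly (fun a => af4 (f a)) := by
  unfold US.af4; fun_prop

@[fun_prop]
theorem Poly.crossF {P : α → List (RatCode × RatCode)} {f g h : α → ℕ} (hP : Poly P)
    (hf : Poly f) (hg : Poly g) (hh : Poly h) :
    Poly (fun a => crossF (P a) (f a) (g a) (h a)) := by
  unfold US.crossF; fun_prop

@[fun_prop]
theorem Poly.lenL {P : α → List (RatCode × RatCode)} (hP : Poly P) :
    Poly (fun a => lenL (P a)) := by
  unfold US.lenL; fun_prop

@[fun_prop]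
theorem Poly.primC {P : α → List (RatCode × RatCode)} {c : α → Con} (hP : Poly P) (hc : Poly c) :
    Poly (fun a => primC (P a) (c a)) := by
  unfold US.primC; fun_prop

@[fun_prop]
theorem Poly.sqL {f : α → ℕ} (hf : Poly f) : Poly (fun a => sqL (f a)) := by
  unfold US.sqL; fun_prop

@[fun_prop]
theorem Poly.dGF {P : α → List (RatCode × RatCode)} {c : α → Con} {d k l : α → ℕ}
    {b : α → Bool} (hP : Poly P) (hc : Poly c) (hd : Poly d) (hk : Poly k) (hl : Poly l)
    (hb : Poly b) : Poly (fun a => dGF (P a) (c a) (d a) (k a) (l a) (b a)) := by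
  unfold US.dGF; fun_prop

@[fun_prop]
theorem Poly.dWF {P : α → List (RatCode × RatCode)} {c : α → Con} {d k : α → ℕ}
    (hP : Poly P) (hc : Poly c) (hd : Poly d) (hk : Poly k) :
    Poly (fun a => dWF (P a) (c a) (d a) (k a)) := by
  unfold US.dWF; fun_prop

@[fun_prop]
theorem Poly.mulL {P : α → List (RatCode × RatCode)} {c : α → Con} {d k : α → ℕ}
    (hP : Poly P) (hc : Poly c) (hd : Poly d) (hk : Poly k) :
    Poly (fun a => mulL (P a) (c a) (d a) (k a)) := by
  unfold US.mulL; fun_prop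

@[fun_prop]
theorem Poly.dualL {P : α → List (RatCode × RatCode)} {m d : α → ℕ} {Z : α → List Con}
    {S : α → List ℕ} {T : α → AF} (hP : Poly P) (hm : Poly m) (hZ : Poly Z) (hS : Poly S)
    (hd : Poly d) (hT : Poly T) :
    Poly (fun a => dualL (P a) (m a) (Z a) (S a) (d a) (T a)) := by
  unfold US.dualL; fun_prop

@[fun_prop]
theorem Poly.certL {P : α → List (RatCode × RatCode)} {m : α → ℕ} {y : α → List Bool}
    (hP : Poly P) (hm : Poly m) (hy : Poly y) : Poly (fun a => certL (P a) (m a) (y a)) := by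
  unfold US.certL; fun_prop

@[fun_prop]
theorem Poly.cellL {P : α → List (RatCode × RatCode)} {m : α → ℕ} {y : α → List Bool}
    (hP : Poly P) (hm : Poly m) (hy : Poly y) : Poly (fun a => cellL (P a) (m a) (y a)) := by
  unfold US.cellL
  have h1 : Poly (fun q : (α × ℕ) × ℕ => US.upB (P q.1.1).length (US.bt (y q.1.1) 2 q.1.2)
      (US.bt (y q.1.1) 3 q.1.2) q.2) :=
    Poly.upB (n := fun q : (α × ℕ) × ℕ => (P q.1.1).length)
      (σ := fun q => US.bt (y q.1.1) 2 q.1.2) (τ := fun q => US.bt (y q.1.1) 3 q.1.2)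
      (f := fun q => q.2) (by fun_prop) (by fun_prop) (by fun_prop) (by fun_prop)
  have h2 : Poly (fun q : (α × ℕ) × ℕ => US.rgt (P q.1.1).length
      (US.bt (y q.1.1) 3 q.1.2) q.2) :=
    Poly.rgt (n := fun q : (α × ℕ) × ℕ => (P q.1.1).length)
      (τ := fun q => US.bt (y q.1.1) 3 q.1.2)
      (f := fun q => q.2) (by fun_prop) (by fun_prop) (by fun_prop)
  fun_prop

@[fun_prop]
theorem Poly.affF {P : α → List (RatCode × RatCode)} {f g : α → ℕ} (hP : Poly P)
    (hf : Poly f) (hg : Poly g) : Poly (fun a => affF (P a) (f a) (g a)) := by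
  unfold US.affF; fun_prop

@[fun_prop]
theorem Poly.linF {P : α → List (RatCode × RatCode)} {f g h : α → ℕ} (hP : Poly P)
    (hf : Poly f) (hg : Poly g) (hh : Poly h) :
    Poly (fun a => linF (P a) (f a) (g a) (h a)) := by
  unfold US.linF; fun_prop

@[fun_prop]
theorem Poly.sepL {P : α → List (RatCode × RatCode)} {f g : α → ℕ} (hP : Poly P)
    (hf : Poly f) (hg : Poly g) : Poly (fun a => sepL (P a) (f a) (g a)) := by
  unfold US.sepL; fun_prop

@[fun_prop]
theorem Poly.simL {P : α → List (RatCode × RatCode)} (hP : Poly P) :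
    Poly (fun a => simL (P a)) := by
  unfold US.simL; fun_prop

@[fun_prop]
theorem Poly.sysL {P : α → List (RatCode × RatCode)} {m : α → ℕ} {y : α → List Bool}
    (hP : Poly P) (hm : Poly m) (hy : Poly y) : Poly (fun a => sysL (P a) (m a) (y a)) := by
  unfold US.sysL; fun_prop

@[fun_prop]
theorem Poly.codeI {f : α → List Cone} (hf : Poly f) : Poly (fun a => codeI (f a)) := by
  unfold US.codeI codeAF encRat encBits
  fun_prop

end

end Pool.Agent.Helper94.US
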