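import Pool.Agent.Helper94.US.PacksS
import Pool.Agent.Helper94.US.PGen
import Pool.Agent.Helper94.US.OkGen
import Pool.Agent.Helper94.US.CodeInj
import Pool.Agent.Helper94.UR.Hard
import Pool.Agent.Helper97.UDP.Main

/-!
# Unit-disk packing is in `N·SOCF`
-/

set_option autoImplicit false

namespace Pool.Agent.Helper94.US

open Pool.Agent.Helper20.Flip Pool.Agent.Helper94.UR Pool.Agent.Helper97.UDP
  Pool.Agent.Helper96 Topology

/-- The predicate on pairs of words: the second-order cone program is feasible. -/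
def RS : Set (List Bool) :=
  {u | ∃ (P : List (RatCode × RatCode)) (k y : List Bool), u = pair (encInst P k) y ∧
    OkInst P k = true ∧ okB P.length k.length y = true ∧
    ∃ v : ℕ → ℝ, ∀ c ∈ sysL P k.length y, Cone.Holds v c}

theorem pair_mem_RS {w y : List Bool} : pair w y ∈ RS ↔
    ∃ (P : List (RatCode × RatCode)) (k : List Bool), w = encInst P k ∧
      OkInst P k = true ∧ okB P.length k.length y = true ∧
      ∃ v : ℕ → ℝ, ∀ c ∈ sysL P k.length y, Cone.Holds v c := by
  constructor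
  · rintro ⟨P, k, y', h, h1, h2, h3⟩
    obtain ⟨rfl, rfl⟩ := pair_inj h
    exact ⟨P, k, rfl, h1, h2, h3⟩
  · rintro ⟨P, k, rfl, h1, h2, h3⟩
    exact ⟨P, k, y, rfl, h1, h2, h3⟩

/-- an infeasible program -/
def bad : List Cone := [lin (afNeg onef)]

theorem bad_not_mem : codeI bad ∉ SOCF := by
  rw [mem_SOCF]
  rintro ⟨-, v, hv⟩
  have h := hv _ (List.mem_singleton.2 rfl)
  rw [holds_lin, afVal_neg, afVal_onef] at h
  norm_num at h

section decoders

variable (D : List Bool → List Bool × List Bool)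
  (D' : List Bool → List (RatCode × RatCode) × List Bool)

/-- the test -/
def okS (u : List Bool) : Bool :=
  okW D D' u && okB (D' (D u).1).1.length (D' (D u).1).2.length (D u).2

/-- the reduction to `SOCF` -/
def redS (u : List Bool) : List Bool :=
  codeI (if okS D D' u then sysL (D' (D u).1).1 (D' (D u).1).2.length (D u).2 else bad)

theorem poly_okS (hD : Poly D) (hD' : Poly D') : Poly (okS D D') := by
  unfold okS
  have h1 : Poly (fun u => D' (D u).1) := Poly.comp hD' (Poly.fst hD)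
  exact Poly.and (poly_okW D D' hD hD') (Poly.okB (Poly.length (Poly.fst h1))
    (Poly.length (Poly.snd h1)) (Poly.snd hD))

theorem poly_redS (hD : Poly D) (hD' : Poly D') : Poly (redS D D') := by
  unfold redS
  have h1 : Poly (fun u => D' (D u).1) := Poly.comp hD' (Poly.fst hD)
  have h3 : Poly (fun u => (D' (D u).1).2.length) := Poly.length (Poly.snd h1)
  exact Poly.codeI (Poly.ite' (poly_okS D D' hD hD')
    (Poly.sysL (Poly.fst h1) h3 (Poly.snd hD)) (Pool.Agent.Helper96.Poly.const _))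

theorem mem_RS_iff (hD : ∀ w y, D (pair w y) = (w, y)) (hD' : ∀ P k, D' (encInst P k) = (P, k))
    (u : List Bool) : u ∈ RS ↔ okS D D' u = true ∧
      ∃ v : ℕ → ℝ, ∀ c ∈ sysL (D' (D u).1).1 (D' (D u).1).2.length (D u).2,
        Cone.Holds v c := by
  constructor
  · rintro ⟨P, k, y, rfl, h1, h2, h3⟩
    unfold okS okW
    rw [hD]
    simp only [hD']
    rw [h1, h2]
    exact ⟨by simp, h3⟩
  · rintro ⟨h1, h2⟩
    unfold okS okW at h1
    simp only [Bool.and_eq_true, decide_eq_true_eq] at h1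
    exact ⟨_, _, _, h1.1.1.symm, h1.1.2, h1.2, h2⟩

theorem redS_iff (hD : ∀ w y, D (pair w y) = (w, y)) (hD' : ∀ P k, D' (encInst P k) = (P, k))
    (u : List Bool) : u ∈ RS ↔ redS D D' u ∈ SOCF := by
  rw [mem_RS_iff D D' hD hD']
  unfold redS
  by_cases h : okS D D' u = true
  · rw [if_pos h, mem_SOCF]
    have h1 := h
    unfold okS okW at h1
    simp only [Bool.and_eq_true, okInst_iff] at h1
    obtain ⟨⟨-, h2, h3, h4, h5⟩, h6⟩ := h1
    constructor
    · rintro ⟨-, h7⟩
      exact ⟨ok_sysL h5 _ _, h7⟩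
    · rintro ⟨-, h7⟩
      exact ⟨h, h7⟩
  · rw [if_neg h]
    exact ⟨fun h1 => absurd h1.1 h, fun h1 => absurd h1 bad_not_mem⟩

end decoders

theorem redTo_RS : RedTo SOCF RS := by
  obtain ⟨D, hD, hD1⟩ := exists_decPair
  obtain ⟨D', hD', hD1'⟩ := exists_decInst
  exact ⟨redS D D', (ptime_iff _).2 (poly_redS D D' hD hD'), redS_iff D D' hD1 hD1'⟩

/-- the polynomial that bounds the length of the guess -/
noncomputable def bpolyS : Polynomial ℕ := ((4 * Polynomial.X ^ 2 + 2 * Polynomial.X + 1) ^ 2 + 8) ^ 2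

theorem bndS_le {n m N : ℕ} (hn : n ≤ N) (hm : m ≤ N) : bndS n m ≤ bpolyS.eval N := by
  unfold bndS bpolyS
  simp only [Polynomial.eval_add, Polynomial.eval_mul, Polynomial.eval_pow, Polynomial.eval_X,
    Polynomial.eval_ofNat, Polynomial.eval_one]
  have h1 : m * n ≤ N * N := Nat.mul_le_mul hm hn
  have h2 : m * m ≤ N * N := Nat.mul_le_mul hm hm
  have h3 : m * m + m * (n * 3) + n + m + 1 ≤ 4 * N ^ 2 + 2 * N + 1 := by nlinarith
  exact Nat.pow_le_pow_left (Nat.add_le_add_right (Nat.pow_le_pow_left h3 2) 8) 2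

/-- Unit-disk packing: guessed bits and exact second-order cone feasibility. -/
theorem inN_SOCF : InN (RedTo SOCF) UDP := by
  refine ⟨RS, bpolyS, redTo_RS, fun w => ?_⟩
  constructor
  · rintro ⟨P, m, rfl, hm, hden, hV, -, hp⟩
    obtain ⟨y, hy, hok, hv⟩ := exists_sysL hden hV hp
    have h1 := length_encInst_ge P (List.replicate m true)
    rw [List.length_replicate] at h1
    refine ⟨y, hy.trans (bndS_le h1.1 h1.2),
      pair_mem_RS.2 ⟨P, List.replicate m true, rfl, ?_, ?_, ?_⟩⟩
    · rw [okInst_iff]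
      exact ⟨hV.1, by simpa using hm, by simp, hden⟩
    · rw [List.length_replicate]
      exact hok
    · rw [List.length_replicate]
      exact hv
  · rintro ⟨y, -, hy⟩
    obtain ⟨P, k, rfl, h1, h2, v, h3⟩ := pair_mem_RS.1 hy
    rw [okInst_iff] at h1
    obtain ⟨h4, h5, h6, h7⟩ := h1
    obtain ⟨h8, h9⟩ := packs_of_sysL h7 h4 h2 h3
    exact ⟨P, k.length, by rw [← h6], h5, h7, h8, trivial, h9⟩

/-- The class `N·(problems that reduce to B)` is closed under polynomial time reductions. -/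
theorem inN_redTo {A A' B : Set (List Bool)} {b : List Bool} (hb : b ∉ B)
    {g : List Bool → List Bool} (hg : PTimeFun g) (hgA : ∀ w, w ∈ A ↔ g w ∈ A')
    (hA' : InN (RedTo B) A') : InN (RedTo B) A := by
  obtain ⟨R, p, ⟨f1, hf1, hR1⟩, hp⟩ := hA'
  obtain ⟨D, hD, hDs⟩ := exists_decPair
  rw [ptime_iff] at hg hf1
  let ok : List Bool → Bool := fun u => decide (pair (D u).1 (D u).2 = u) &&
    decide ((D u).2.length ≤ p.eval (g (D u).1).length)
  have hok : Poly ok := by
    refine Poly.and (Poly.decide_eq (poly_pair (Poly.fst hD) (Poly.snd hD)) Poly.id') ?_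
    exact Poly.decide_le (Poly.length (Poly.snd hD))
      (Pool.Agent.Helper69.poly_eval p (Poly.length (Poly.comp hg (Poly.fst hD))))
  let R' : Set (List Bool) := {u | ok u = true ∧ pair (g (D u).1) (D u).2 ∈ R}
  have hpp : Poly (fun u => pair (g (D u).1) (D u).2) :=
    poly_pair (Poly.comp hg (Poly.fst hD)) (Poly.snd hD)
  obtain ⟨k, hk⟩ := hg.sz_le
  obtain ⟨l, hl⟩ := Pool.Agent.Helper69.TM.isPB_eval p
  refine ⟨R', ((4 * Polynomial.X + 3) ^ k + 2) ^ l, ⟨fun u => if ok u = true then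
      f1 (pair (g (D u).1) (D u).2) else b, ?_, ?_⟩, ?_⟩
  · rw [ptime_iff]
    exact Poly.ite' hok (Poly.comp hf1 hpp) (Pool.Agent.Helper96.Poly.const _)
  · intro u
    show (ok u = true ∧ _) ↔ _
    beta_reduce
    by_cases h : ok u = true
    · rw [if_pos h, ← hR1]
      exact and_iff_right h
    · rw [if_neg h]
      exact ⟨fun h1 => absurd h1.1 h, fun h1 => absurd h1 hb⟩
  · intro w
    rw [hgA, hp]
    have hok' : ∀ y, ok (pair w y) = true ↔ y.length ≤ p.eval (g w).length := by
      intro y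
      show (decide _ && decide _) = true ↔ _
      rw [hDs]
      simp
    have hmem : ∀ y, pair w y ∈ R' ↔ y.length ≤ p.eval (g w).length ∧ pair (g w) y ∈ R := by
      intro y
      show (ok (pair w y) = true ∧ _) ↔ _
      rw [hok', hDs]
    constructor
    · rintro ⟨y, hy, hyR⟩
      refine ⟨y, ?_, (hmem y).2 ⟨hy, hyR⟩⟩
      refine hy.trans ((hl _).trans ?_)
      have h1 := hk w
      have h2 := length_lt_sz (g w)
      have h3 := Pool.Agent.Helper69.TM.sz_list_bool w
      have h4 : (sz w + 2) ^ k ≤ (4 * w.length + 3) ^ k := Nat.pow_le_pow_left (by omega) k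
      simp only [Polynomial.eval_pow, Polynomial.eval_add, Polynomial.eval_mul,
        Polynomial.eval_X, Polynomial.eval_ofNat]
      exact Nat.pow_le_pow_left (by omega) l
    · rintro ⟨y, -, hyR⟩
      obtain ⟨h1, h2⟩ := (hmem y).1 hyR
      exact ⟨y, h1, h2⟩

theorem npLang_iff (L : Set (List Bool)) : NPLang L ↔
    ∃ (R : List Bool × List Bool → Bool) (k : ℕ), Poly R ∧
      ∀ w, w ∈ L ↔ ∃ y, y.length ≤ (w.length + 2) ^ k ∧ R (w, y) = true :=
  Pool.Agent.Helper69.inNP_iff L

/-- If `B` is in NP then all problems in `N·(problems that reduce to B)` are in NP. -/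
theorem np_of_inN {A B : Set (List Bool)} (hA : InN (RedTo B) A) (hB : NPLang B) : NPLang A := by
  obtain ⟨R, p, ⟨f, hf, hR⟩, hp⟩ := hA
  obtain ⟨D, hD, hDs⟩ := exists_decPair
  rw [npLang_iff] at hB ⊢
  obtain ⟨Q, k, hQ, hB⟩ := hB
  rw [ptime_iff] at hf
  obtain ⟨a, ha⟩ := hf.sz_le
  obtain ⟨l, hl⟩ := Pool.Agent.Helper69.TM.isPB_eval p
  -- the certificate is the pair of the guess and the certificate for the reduced word
  have hP1 : Poly (fun x : List Bool × List Bool => pair x.1 (D x.2).1) :=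
    poly_pair (Poly.fst Poly.id') (Poly.fst (Poly.comp hD (Poly.snd Poly.id')))
  have hP2 : Poly (fun x : List Bool × List Bool => (f (pair x.1 (D x.2).1), (D x.2).2)) :=
    Poly.prodMk (Poly.comp hf hP1) (Poly.snd (Poly.comp hD (Poly.snd Poly.id')))
  have hP3 : Poly (fun x : List Bool × List Bool => Q (f (pair x.1 (D x.2).1), (D x.2).2)) :=
    Poly.comp hQ hP2
  have hP4 : Poly (fun x : List Bool × List Bool =>
      decide ((D x.2).1.length ≤ p.eval x.1.length)) :=
    Poly.decide_le (Poly.length (Poly.fst (Poly.comp hD (Poly.snd Poly.id'))))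
      (Pool.Agent.Helper69.poly_eval p (Poly.length (Poly.fst Poly.id')))
  have hpb : IsPB (fun n => 2 * (n + 2) ^ l + 1 +
      (((4 * (2 * n + 1 + (n + 2) ^ l) + 1) + 2) ^ a + 2) ^ k) := by
    have h1 : ∀ k, IsPB (fun n => (n + 2) ^ k) := fun k => (IsPB.id'.add (IsPB.const 2)).pow k
    have h2 : IsPB (fun n => 2 * (n + 2) ^ l + 1) := ((IsPB.const 2).mul (h1 l)).add (IsPB.const 1)
    have h3 : IsPB (fun n => 4 * (2 * n + 1 + (n + 2) ^ l) + 1 + 2) :=
      ((((IsPB.const 4).mul ((((IsPB.const 2).mul IsPB.id').add (IsPB.const 1)).add (h1 l))).add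
        (IsPB.const 1)).add (IsPB.const 2))
    exact h2.add (((h3.pow a).add (IsPB.const 2)).pow k)
  have hP5 : Poly (fun x : List Bool × List Bool =>
      decide ((D x.2).2.length ≤ ((f (pair x.1 (D x.2).1)).length + 2) ^ k)) :=
    Poly.decide_le (Poly.length (Poly.snd (Poly.comp hD (Poly.snd Poly.id'))))
      ((Poly.length (Poly.comp hf hP1)).add (Pool.Agent.Helper96.Poly.const 2)
        |>.pow k)
  obtain ⟨e, he⟩ := hpb
  refine ⟨fun x => (Q (f (pair x.1 (D x.2).1), (D x.2).2) &&
    decide ((D x.2).1.length ≤ p.eval x.1.length)) &&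
    decide ((D x.2).2.length ≤ ((f (pair x.1 (D x.2).1)).length + 2) ^ k),
    e, Poly.and (Poly.and hP3 hP4) hP5, fun w => ?_⟩
  rw [hp w]
  constructor
  · rintro ⟨y, hy, hyR⟩
    obtain ⟨z, hz, hzQ⟩ := (hB _).1 ((hR _).1 hyR)
    refine ⟨pair y z, ?_, ?_⟩
    · refine le_trans ?_ (he w.length)
      have h1 : (pair y z).length = 2 * y.length + 1 + z.length := by
        unfold pair
        rw [List.length_append, length_encBits]
      have h2 : y.length ≤ (w.length + 2) ^ l := hy.trans (hl _)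
      have h3 : (f (pair w y)).length ≤ (sz (pair w y) + 2) ^ a :=
        (length_lt_sz _).le.trans (ha _)
      have h4 : sz (pair w y) ≤ 4 * (2 * w.length + 1 + (w.length + 2) ^ l) + 1 := by
        refine (Pool.Agent.Helper69.TM.sz_list_bool _).trans ?_
        have : (pair w y).length = 2 * w.length + 1 + y.length := by
          unfold pair
          rw [List.length_append, length_encBits]
        rw [this]
        omega
      have h5 : z.length ≤ (((4 * (2 * w.length + 1 + (w.length + 2) ^ l) + 1) + 2) ^ a + 2) ^ k :=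
        hz.trans (Nat.pow_le_pow_left (Nat.add_le_add_right
          (h3.trans (Nat.pow_le_pow_left (Nat.add_le_add_right h4 2) a)) 2) k)
      rw [h1]
      exact add_le_add (by omega) h5
    · simp only [hDs, hzQ, Bool.true_and, Bool.and_eq_true, decide_eq_true_eq]
      exact ⟨hy, hz⟩
  · rintro ⟨y, -, hyQ⟩
    simp only [Bool.and_eq_true, decide_eq_true_eq] at hyQ
    exact ⟨(D y).1, hyQ.1.2, (hR _).2 ((hB _).2 ⟨(D y).2, hyQ.2, hyQ.1.1⟩)⟩

/-- Unit-disk packing is NP-hard. -/
theorem npHard_UDP : NPHard UDP := packing_hard _ fun _ _ _ _ => trivial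

/-- If unit-disk packing is `∃ℝ`-hard then `∃ℝ` is contained in `N·SOCF`. -/
theorem collapseS (h : ERHard UDP) {A : Set (List Bool)} (hA : InER A) :
    InN (RedTo SOCF) A := by
  obtain ⟨f, hf, hfA⟩ := h A hA
  exact inN_redTo bad_not_mem hf hfA inN_SOCF

end Pool.Agent.Helper94.US
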