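import Pool.Agent.Helper94.US.SemQ
import Pool.Agent.Helper94.US.CellR

/-!
# The meaning of the cones: cells
-/

set_option autoImplicit false

namespace Pool.Agent.Helper94.US

open Pool.Agent.Helper20.Flip Pool.Agent.Helper94.UR

private theorem bOk_lt {n : ℕ} {σ τ : ℕ → Bool} {lo hi : ℕ} (h : bOk n σ τ lo hi = true) :
    lo < n ∧ hi < n := by
  unfold bOk at h
  simp only [Bool.and_eq_true, decide_eq_true_eq] at h
  exact h.1

private theorem crossF_val {P : List (RatCode × RatCode)} (hP : Den P) (v : ℕ → ℝ) {a : ℕ}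
    (ha : a < P.length) (k i j k' i' j' : ℕ) :
    afVal v (crossF P a (vi k i j) (vi k' i' j')) =
      cross (vert P a) (vert P (nx P.length a)) (w3 v k i j, w3 v k' i' j') :=
  afVal_crossF hP v ha (Nat.succ_ne_zero _) (Nat.succ_ne_zero _)

private theorem forall_flatMap {α β : Type} {l : List α} {f : α → List β} {p : β → Prop} :
    (∀ c ∈ l.flatMap f, p c) ↔ ∀ a ∈ l, ∀ c ∈ f a, p c :=
  ⟨fun h a ha c hc => h c (List.mem_flatMap.2 ⟨a, ha, hc⟩), fun h c hc => by
    obtain ⟨a, ha, hc'⟩ := List.mem_flatMap.1 hc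
    exact h a ha c hc'⟩

/-- the cones of one centre -/
private theorem cell_iff {P : List (RatCode × RatCode)} (hP : Den P) {m : ℕ} {y : List Bool}
    (hb : okB P.length m y = true) (v : ℕ → ℝ) :
    (∀ c ∈ cellL P m y, Cone.Holds v c) ↔ ∀ l < m,
      (∀ a < P.length,
        (posC (if bt y 2 l a then crossF P a (vi 30 l 0) (vi 30 l 1)
          else afNeg (crossF P a (vi 30 l 0) (vi 30 l 1))) 33 l a).Holds v ∧
        (posC (if bt y 3 l a then vr 30 l 0 ++ ent 0 (qneg (vxq P a))
          else ent 0 (vxq P a) ++ afNeg (vr 30 l 0)) 34 l a).Holds v) ∧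
      (cross (vert P (cnt P.length y 4 l)) (vert P (nx P.length (cnt P.length y 4 l)))
        (w3 v 30 l 0, w3 v 31 l 0) = 0 ∧
      cross (vert P (cnt P.length y 5 l)) (vert P (nx P.length (cnt P.length y 5 l)))
        (w3 v 30 l 0, w3 v 32 l 0) = 0) ∧
      ∀ e < P.length, upB P.length (bt y 2 l) (bt y 3 l) e = true →
        (rgt P.length (bt y 3 l) e = true →
          cross (vert P e) (vert P (nx P.length e)) (w3 v 30 l 0, w3 v 31 l 0) ≤ 0 ∧
          0 ≤ cross (vert P e) (vert P (nx P.length e)) (w3 v 30 l 0, w3 v 32 l 0)) ∧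
        (rgt P.length (bt y 3 l) e = false →
          0 ≤ cross (vert P e) (vert P (nx P.length e)) (w3 v 30 l 0, w3 v 31 l 0) ∧
          cross (vert P e) (vert P (nx P.length e)) (w3 v 30 l 0, w3 v 32 l 0) ≤ 0) := by
  have hlt : ∀ l < m, cnt P.length y 4 l < P.length ∧ cnt P.length y 5 l < P.length := by
    intro l hl
    unfold okB at hb
    rw [List.all_eq_true] at hb
    exact bOk_lt (hb l (List.mem_range.2 hl))
  unfold cellL
  rw [forall_flatMap]
  refine forall_congr' fun l => ?_
  rw [List.mem_range]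
  refine imp_congr_right fun hl => ?_
  rw [List.forall_mem_append, List.forall_mem_append, List.forall_mem_append, holds_eqz,
    holds_eqz, crossF_val hP v (hlt l hl).1, crossF_val hP v (hlt l hl).2]
  refine and_congr ?_ (and_congr Iff.rfl ?_)
  · rw [forall_flatMap]
    refine forall_congr' fun a => ?_
    rw [List.mem_range]
    refine imp_congr_right fun _ => ?_
    rw [List.forall_mem_cons, List.forall_mem_singleton]
  · rw [forall_flatMap]
    refine forall_congr' fun e => ?_
    rw [List.mem_range]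
    refine imp_congr_right fun he => ?_
    by_cases h1 : upB P.length (bt y 2 l) (bt y 3 l) e = true
    · rw [if_pos h1]
      by_cases h2 : rgt P.length (bt y 3 l) e = true
      · rw [if_pos h2, List.forall_mem_cons, List.forall_mem_singleton, holds_lin, holds_lin,
          afVal_neg, crossF_val hP v he, crossF_val hP v he]
        constructor
        · intro h3 _
          exact ⟨fun _ => ⟨by linarith [h3.1], h3.2⟩, fun h4 => by rw [h2] at h4; cases h4⟩
        · intro h3
          obtain ⟨h4, h5⟩ := (h3 h1).1 h2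
          exact ⟨by linarith, h5⟩
      · rw [if_neg h2, List.forall_mem_cons, List.forall_mem_singleton, holds_lin, holds_lin,
          afVal_neg, crossF_val hP v he, crossF_val hP v he]
        constructor
        · intro h3 _
          exact ⟨fun h4 => absurd h4 h2, fun _ => ⟨h3.1, by linarith [h3.2]⟩⟩
        · intro h3
          obtain ⟨h4, h5⟩ := (h3 h1).2 (by simpa using h2)
          exact ⟨h4, by linarith⟩
    · rw [if_neg h1]
      exact ⟨fun _ h3 => absurd h3 h1, fun _ => by simp⟩

theorem cellL_sound {P : List (RatCode × RatCode)} (hP : Den P) {m : ℕ} {y : List Bool}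
    (hb : okB P.length m y = true) {v : ℕ → ℝ} (h : ∀ c ∈ cellL P m y, Cone.Holds v c) {l : ℕ}
    (hl : l < m) : CellR P.length (vert P) (bt y 2 l) (bt y 3 l) (cnt P.length y 4 l)
      (cnt P.length y 5 l) (w3 v 30 l 0, w3 v 30 l 1) (w3 v 31 l 0) (w3 v 32 l 0) := by
  obtain ⟨h1, h2, h3⟩ := (cell_iff hP hb v).1 h l hl
  refine ⟨fun a ha => ?_, fun a ha => ?_, h2.1, h2.2, h3⟩
  · have h4 := pos_of_posC v (h1 a ha).1
    constructor
    · intro e
      rw [if_pos e, crossF_val hP v ha] at h4
      exact h4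
    · intro e
      rw [if_neg (by rw [e]; simp), afVal_neg, crossF_val hP v ha] at h4
      linarith
  · have h4 := pos_of_posC v (h1 a ha).2
    constructor
    · intro e
      rw [if_pos e, afVal_append, afVal_vr, afVal_ent, qval_neg, qval_vxq hP ha, vv_zero] at h4
      linarith
    · intro e
      rw [if_neg (by rw [e]; simp), afVal_append, afVal_neg, afVal_vr, afVal_ent,
        qval_vxq hP ha, vv_zero] at h4
      linarith

theorem cellL_complete {P : List (RatCode × RatCode)} (hP : Den P) {m : ℕ} {y : List Bool}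
    (hb : okB P.length m y = true)
    (h : ∀ l < m, ∃ (p : Pt) (y₁ y₂ : ℝ), CellR P.length (vert P) (bt y 2 l) (bt y 3 l)
      (cnt P.length y 4 l) (cnt P.length y 5 l) p y₁ y₂) :
    ∃ g : ℕ → ℕ → ℕ → ℝ, ∀ v : ℕ → ℝ, (∀ k i j, 30 ≤ k → k < 40 → w3 v k i j = g k i j) →
      ∀ c ∈ cellL P m y, Cone.Holds v c := by
  have h' : ∀ l : ℕ, ∃ t : Pt × ℝ × ℝ, l < m → CellR P.length (vert P) (bt y 2 l) (bt y 3 l)
      (cnt P.length y 4 l) (cnt P.length y 5 l) t.1 t.2.1 t.2.2 := by
    intro l
    by_cases hl : l < m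
    · obtain ⟨p, y₁, y₂, hp⟩ := h l hl
      exact ⟨(p, y₁, y₂), fun _ => hp⟩
    · exact ⟨((0, 0), 0, 0), fun hl' => absurd hl' hl⟩
  choose t ht using h'
  refine ⟨fun k i j => if k = 30 then (if j = 0 then (t i).1.1 else (t i).1.2)
    else if k = 31 then (t i).2.1
    else if k = 32 then (t i).2.2
    else if k = 33 then (if bt y 2 i j then cross (vert P j) (vert P (nx P.length j)) (t i).1
      else -cross (vert P j) (vert P (nx P.length j)) (t i).1)⁻¹
    else (if bt y 3 i j then (t i).1.1 - (vert P j).1 else (vert P j).1 - (t i).1.1)⁻¹, ?_⟩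
  intro v hv
  rw [cell_iff hP hb]
  intro l hl
  obtain ⟨h1, h2, h3, h4, h5⟩ := ht l hl
  have e0 : w3 v 30 l 0 = (t l).1.1 := by
    rw [hv 30 _ _ (by norm_num) (by norm_num)]
    simp
  have e1 : w3 v 30 l 1 = (t l).1.2 := by
    rw [hv 30 _ _ (by norm_num) (by norm_num)]
    simp
  have e2 : w3 v 31 l 0 = (t l).2.1 := by
    rw [hv 31 _ _ (by norm_num) (by norm_num)]
    simp
  have e3 : w3 v 32 l 0 = (t l).2.2 := by
    rw [hv 32 _ _ (by norm_num) (by norm_num)]
    simp
  rw [e0, e2, e3]
  refine ⟨fun a ha => ⟨?_, ?_⟩, ⟨h3, h4⟩, h5⟩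
  · have e4 : w3 v 33 l a = (if bt y 2 l a then
        cross (vert P a) (vert P (nx P.length a)) (t l).1
        else -cross (vert P a) (vert P (nx P.length a)) (t l).1)⁻¹ := by
      rw [hv 33 _ _ (by norm_num) (by norm_num)]
      simp
    have e5 : afVal v (if bt y 2 l a then crossF P a (vi 30 l 0) (vi 30 l 1)
          else afNeg (crossF P a (vi 30 l 0) (vi 30 l 1))) = (if bt y 2 l a then
        cross (vert P a) (vert P (nx P.length a)) (t l).1
        else -cross (vert P a) (vert P (nx P.length a)) (t l).1) := by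
      split_ifs
      · rw [crossF_val hP v ha, e0, e1]
      · rw [afVal_neg, crossF_val hP v ha, e0, e1]
    refine posC_of_pos v ?_ (by rw [e4, e5])
    rw [e5]
    split_ifs with e
    · exact (h1 a ha).1 e
    · have := (h1 a ha).2 (by simpa using e)
      linarith
  · have e4 : w3 v 34 l a = (if bt y 3 l a then (t l).1.1 - (vert P a).1
        else (vert P a).1 - (t l).1.1)⁻¹ := by
      rw [hv 34 _ _ (by norm_num) (by norm_num)]
      simp
    have e5 : afVal v (if bt y 3 l a then vr 30 l 0 ++ ent 0 (qneg (vxq P a))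
          else ent 0 (vxq P a) ++ afNeg (vr 30 l 0)) = (if bt y 3 l a then
        (t l).1.1 - (vert P a).1 else (vert P a).1 - (t l).1.1) := by
      split_ifs
      · rw [afVal_append, afVal_vr, afVal_ent, qval_neg, qval_vxq hP ha, vv_zero, e0]
        ring
      · rw [afVal_append, afVal_neg, afVal_vr, afVal_ent, qval_vxq hP ha, vv_zero, e0]
        ring
    refine posC_of_pos v ?_ (by rw [e4, e5])
    rw [e5]
    split_ifs with e
    · have := (h2 a ha).1 e
      linarith
    · have := (h2 a ha).2 (by simpa using e)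
      linarith

end Pool.Agent.Helper94.US
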