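import Pool.Agent.Helper94.US.SemCert

/-!
# The meaning of the cones: certificates, completeness
-/

set_option autoImplicit false

namespace Pool.Agent.Helper94.US

open Pool.Agent.Helper20.Flip Pool.Agent.Helper94.UR

theorem certL_complete {P : List (RatCode × RatCode)} (hP : Den P) {m : ℕ} {y : List Bool}
    {x : ℕ → Pt} (h : Cert P.length m (vert P) (rho P) (Zs P.length m y) (Ns P.length m y)
      (As P.length m y) x) :
    ∃ g : ℕ → ℕ → ℕ → ℝ, ∀ v : ℕ → ℝ, (∀ k i j, k < 30 → w3 v k i j = g k i j) →
      ∀ c ∈ certL P m y, Cone.Holds v c := by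
  classical
  obtain ⟨t, hA, ht, ⟨ω, s, θ, u, s', u', hω, hDC⟩, hN⟩ := h
  have hN' : ∀ k, ∃ (t' : ℝ) (ω s θ : ℕ → ℝ) (u : ℕ → Pt) (s' : ℕ → ℝ) (u' : ℕ → Pt),
      k ∈ Ns P.length m y → k ∉ As P.length m y → t < t' ∧
        DC P.length m (vert P) (Zs P.length m y) (insert k (As P.length m y)) t' ω s θ u s' u' := by
    intro k
    by_cases h1 : k ∈ Ns P.length m y ∧ k ∉ As P.length m y
    · obtain ⟨t', ω, s, θ, u, s', u', h2⟩ := hN k h1.1 h1.2
      exact ⟨t', ω, s, θ, u, s', u', fun _ _ => h2⟩
    · refine ⟨0, fun _ => 0, fun _ => 0, fun _ => 0, fun _ => 0, fun _ => 0, fun _ => 0, ?_⟩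
      intro h2 h3
      exact absurd ⟨h2, h3⟩ h1
  choose T' W' S' Θ' U' R' Q' hD using hN'
  let om : ℕ → ℕ → ℝ := fun d j => if d = 0 then ω j else W' (d - 1) j
  let ss : ℕ → ℕ → ℝ := fun d j => if d = 0 then s j else S' (d - 1) j
  let th : ℕ → ℕ → ℝ := fun d j => if d = 0 then θ j else Θ' (d - 1) j
  let uu : ℕ → ℕ → Pt := fun d j => if d = 0 then u j else U' (d - 1) j
  let rr : ℕ → ℕ → ℝ := fun d j => if d = 0 then s' j else R' (d - 1) j
  let qq : ℕ → ℕ → Pt := fun d j => if d = 0 then u' j else Q' (d - 1) j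
  let tt : ℕ → ℝ := fun d => T' (d - 1)
  refine ⟨fun k i j => if k = 1 then rho P i else if k = 3 then (if j = 0 then (x i).1 else (x i).2)
    else if k = 8 then dot (x i) (x i) else if k = 9 then t else if k = 10 then om i j
    else if k = 11 then ss i j else if k = 12 then (uu i j).1 else if k = 13 then (uu i j).2
    else if k = 14 then th i j else if k = 15 then rr i j else if k = 16 then (qq i j).1
    else if k = 17 then (qq i j).2 else if k = 18 then (om 0 j)⁻¹ else if k = 19 then tt i
    else if k = 20 then (tt i - t)⁻¹ else 0, ?_⟩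
  intro v hv
  have v1 : ∀ i j, w3 v 1 i j = rho P i := fun i j => by rw [hv 1 i j (by norm_num)]; simp
  have v30 : ∀ i, w3 v 3 i 0 = (x i).1 := fun i => by rw [hv 3 i 0 (by norm_num)]; simp
  have v31 : ∀ i, w3 v 3 i 1 = (x i).2 := fun i => by rw [hv 3 i 1 (by norm_num)]; simp
  have v8 : ∀ i j, w3 v 8 i j = dot (x i) (x i) := fun i j => by
    rw [hv 8 i j (by norm_num)]; simp
  have v9 : ∀ i j, w3 v 9 i j = t := fun i j => by rw [hv 9 i j (by norm_num)]; simp
  have v10 : ∀ i j, w3 v 10 i j = om i j := fun i j => by rw [hv 10 i j (by norm_num)]; simp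
  have v11 : ∀ i j, w3 v 11 i j = ss i j := fun i j => by rw [hv 11 i j (by norm_num)]; simp
  have v12 : ∀ i j, w3 v 12 i j = (uu i j).1 := fun i j => by rw [hv 12 i j (by norm_num)]; simp
  have v13 : ∀ i j, w3 v 13 i j = (uu i j).2 := fun i j => by rw [hv 13 i j (by norm_num)]; simp
  have v14 : ∀ i j, w3 v 14 i j = th i j := fun i j => by rw [hv 14 i j (by norm_num)]; simp
  have v15 : ∀ i j, w3 v 15 i j = rr i j := fun i j => by rw [hv 15 i j (by norm_num)]; simp
  have v16 : ∀ i j, w3 v 16 i j = (qq i j).1 := fun i j => by rw [hv 16 i j (by norm_num)]; simp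
  have v17 : ∀ i j, w3 v 17 i j = (qq i j).2 := fun i j => by rw [hv 17 i j (by norm_num)]; simp
  have v18 : ∀ i j, w3 v 18 i j = (om 0 j)⁻¹ := fun i j => by rw [hv 18 i j (by norm_num)]; simp
  have v19 : ∀ i j, w3 v 19 i j = tt i := fun i j => by rw [hv 19 i j (by norm_num)]; simp
  have v20 : ∀ i j, w3 v 20 i j = (tt i - t)⁻¹ := fun i j => by
    rw [hv 20 i j (by norm_num)]; simp
  clear hv
  have hx : (fun l => (w3 v 3 l 0, w3 v 3 l 1)) = x := by
    funext l
    exact Prod.ext (v30 l) (v31 l)
  have hselN : ∀ k ∈ selS P.length m y, k ∈ Ns P.length m y := fun k hk =>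
    As_subset _ _ _ (List.mem_toFinset.2 hk)
  have hselA : ∀ k ∈ selS P.length m y, k ∈ As P.length m y := fun k hk =>
    List.mem_toFinset.2 hk
  have hselnd : (selS P.length m y).Nodup := List.Nodup.filter _ List.nodup_range
  have hcsel : ∀ k ∈ cselS P.length m y, k ∈ Ns P.length m y ∧ k ∉ As P.length m y := by
    intro k hk
    unfold cselS at hk
    rw [List.mem_filter] at hk
    refine ⟨Finset.mem_range.2 (List.mem_range.1 hk.1), fun h1 => ?_⟩
    unfold As selS at h1
    rw [List.mem_toFinset, List.mem_filter] at h1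
    rw [h1.2] at hk
    simp at hk
  intro c hc
  unfold certL at hc
  rcases List.mem_append.1 hc with hc | hc
  · rcases List.mem_append.1 hc with hc | hc
    · refine (lenL_iff hP v).2 (fun a ha => ?_) c hc
      rw [v1]
      exact le_of_eq (Real.sq_sqrt (by unfold d2; positivity))
    · rcases List.mem_append.1 hc with hc | hc
      · obtain ⟨k, hk, rfl⟩ := List.mem_map.1 hc
        refine primC_complete hP (Zs_valid (hselN k hk)) (fun a _ => v1 a 0) ?_
        rw [hx]
        exact hA k (hselA k hk)
      · refine sqL_complete (fun l _ => ?_) ?_ c hc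
        · rw [v8]
          have := congrFun hx l
          rw [show ((w3 v 3 l 0, w3 v 3 l 1) : Pt) = x l from this]
        · rw [v9]
          refine le_trans (le_of_eq ?_) ht
          refine Finset.sum_congr rfl fun l _ => ?_
          have := congrFun hx l
          rw [show ((w3 v 3 l 0, w3 v 3 l 1) : Pt) = x l from this]
  · rcases List.mem_append.1 hc with hc | hc
    · rcases List.mem_append.1 hc with hc | hc
      · refine (dualL_iff hP hselnd (fun k hk => Zs_valid (hselN k hk)) 0 (vr 9 0 0) v).2 ?_ c hc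
        have e0 : afVal v (vr 9 0 0) = t := by rw [afVal_vr, v9]
        have e1 : (fun k => w3 v 10 0 k) = ω := by
          funext k; rw [v10]; simp [om]
        have e2 : (fun k => w3 v 11 0 k) = s := by
          funext k; rw [v11]; simp [ss]
        have e3 : (fun k => w3 v 14 0 k) = θ := by
          funext k; rw [v14]; simp [th]
        have e4 : (fun k => (w3 v 12 0 k, w3 v 13 0 k)) = u := by
          funext k; rw [v12, v13]; simp [uu]
        have e5 : (fun k => w3 v 15 0 k) = s' := by
          funext k; rw [v15]; simp [rr]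
        have e6 : (fun k => (w3 v 16 0 k, w3 v 17 0 k)) = u' := by
          funext k; rw [v16, v17]; simp [qq]
        rw [e0, e1, e2, e3, e4, e5, e6]
        exact hDC
      · obtain ⟨k, hk, rfl⟩ := List.mem_map.1 hc
        have e1 : afVal v (vr 10 0 k) = ω k := by rw [afVal_vr, v10]; simp [om]
        refine posC_of_pos v ?_ ?_
        · rw [e1]
          exact hω k (hselA k hk)
        · rw [e1, v18]
          simp [om]
    · obtain ⟨k, hk, hc⟩ := List.mem_flatMap.1 hc
      obtain ⟨hkN, hkA⟩ := hcsel k hk
      obtain ⟨ht', hDk⟩ := hD k hkN hkA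
      have ett : tt (k + 1) = T' k := by simp [tt]
      rcases List.mem_append.1 hc with hc | hc
      · have hnd : (k :: selS P.length m y).Nodup := by
          rw [List.nodup_cons]
          exact ⟨fun h1 => hkA (List.mem_toFinset.2 h1), hselnd⟩
        refine (dualL_iff hP hnd (fun j hj => ?_) (k + 1) (vr 19 (k + 1) 0) v).2 ?_ c hc
        · rcases List.mem_cons.1 hj with rfl | hj
          · exact Zs_valid hkN
          · exact Zs_valid (hselN j hj)
        · have e0 : afVal v (vr 19 (k + 1) 0) = T' k := by rw [afVal_vr, v19, ett]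
          have e1 : (fun j => w3 v 10 (k + 1) j) = W' k := by
            funext j; rw [v10]; simp [om]
          have e2 : (fun j => w3 v 11 (k + 1) j) = S' k := by
            funext j; rw [v11]; simp [ss]
          have e3 : (fun j => w3 v 14 (k + 1) j) = Θ' k := by
            funext j; rw [v14]; simp [th]
          have e4 : (fun j => (w3 v 12 (k + 1) j, w3 v 13 (k + 1) j)) = U' k := by
            funext j; rw [v12, v13]; simp [uu]
          have e5 : (fun j => w3 v 15 (k + 1) j) = R' k := by
            funext j; rw [v15]; simp [rr]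
          have e6 : (fun j => (w3 v 16 (k + 1) j, w3 v 17 (k + 1) j)) = Q' k := by
            funext j; rw [v16, v17]; simp [qq]
          rw [e0, e1, e2, e3, e4, e5, e6, List.toFinset_cons]
          exact hDk
      · rw [List.mem_singleton] at hc
        subst hc
        have e1 : afVal v (vr 19 (k + 1) 0 ++ afNeg (vr 9 0 0)) = T' k - t := by
          rw [afVal_append, afVal_neg, afVal_vr, afVal_vr, v19, v9, ett]
          ring
        refine posC_of_pos v ?_ ?_
        · rw [e1]
          exact sub_pos.2 ht'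
        · rw [e1, v20, ett]

end Pool.Agent.Helper94.US
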