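import Pool.Agent.Helper94.US.SemQ
import Pool.Agent.Helper94.UR.SemIns

/-!
# The meaning of the cones: simple polygons
-/

set_option autoImplicit false

namespace Pool.Agent.Helper94.US

open Pool.Agent.Helper20.Flip Pool.Agent.Helper94.UR

private theorem cast_nx {n a : ℕ} : ((nx n a : ℕ) : ZMod n) = (a : ZMod n) + 1 := by
  unfold nx
  split_ifs with h
  · have : ((a + 1 : ℕ) : ZMod n) = 0 := by
      rw [h]
      exact ZMod.natCast_self n
    push_cast at this
    rw [this, Nat.cast_zero]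
  · push_cast
    rfl

private theorem cast_eq {n a b : ℕ} (ha : a < n) (hb : b < n) :
    (a : ZMod n) = (b : ZMod n) ↔ a = b := by
  rw [ZMod.natCast_eq_natCast_iff', Nat.mod_eq_of_lt ha, Nat.mod_eq_of_lt hb]

private theorem exists_nat {n : ℕ} (hn : 3 ≤ n) (i : ZMod n) : ∃ a < n, (a : ZMod n) = i := by
  have : NeZero n := ⟨by omega⟩
  exact ⟨i.val, ZMod.val_lt i, ZMod.natCast_zmod_val i⟩

/-- the certificate for the pair of edges `a`, `b` -/
private def SepR (n : ℕ) (V : ℕ → Pt) (a b : ℕ) (α : Pt) (c : ℝ) : Prop :=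
  a ≠ b → a ≠ nx n b →
    (b = nx n a → 1 ≤ dot α (V a - V b) ∧ dot α (V (nx n b) - V b) ≤ 0) ∧
    (b ≠ nx n a → 1 ≤ dot α (V a) + c ∧ 1 ≤ dot α (V (nx n a)) + c ∧
      dot α (V b) + c ≤ -1 ∧ dot α (V (nx n b)) + c ≤ -1)

private theorem affF_val {P : List (RatCode × RatCode)} (hP : Den P) (v : ℕ → ℝ) {a : ℕ}
    (i : ℕ) (ha : a < P.length) : afVal v (affF P i a) =
      dot (w3 v 41 i 0, w3 v 41 i 1) (vert P a) + w3 v 41 i 2 := by
  unfold affF dot
  rw [afVal_append, afVal_append, afVal_ent, afVal_ent, afVal_vr, vv_vi, vv_vi, qval_vxq hP ha,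
    qval_vyq hP ha]
  ring

private theorem linF_val {P : List (RatCode × RatCode)} (hP : Den P) (v : ℕ → ℝ) {a b : ℕ}
    (i : ℕ) (ha : a < P.length) (hb : b < P.length) : afVal v (linF P i a b) =
      dot (w3 v 41 i 0, w3 v 41 i 1) (vert P a - vert P b) := by
  unfold linF dot
  rw [afVal_append, afVal_ent, afVal_ent, vv_vi, vv_vi,
    qval_sub (qok_vxq hP _) (qok_vxq hP _), qval_sub (qok_vyq hP _) (qok_vyq hP _),
    qval_vxq hP ha, qval_vyq hP ha, qval_vxq hP hb, qval_vyq hP hb, Prod.fst_sub, Prod.snd_sub]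
  ring

private theorem sepL_iff {P : List (RatCode × RatCode)} (hP : Den P) {v : ℕ → ℝ} {a b : ℕ}
    (ha : a < P.length) (hb' : b < P.length) : (∀ c ∈ sepL P a b, Cone.Holds v c) ↔
      SepR P.length (vert P) a b (w3 v 41 (Nat.pair a b) 0, w3 v 41 (Nat.pair a b) 1)
        (w3 v 41 (Nat.pair a b) 2) := by
  unfold sepL SepR
  split_ifs with c1 c2 c3
  · exact iff_of_true (by simp) fun h => absurd c1 h
  · exact iff_of_true (by simp) fun _ h => absurd c2 h
  · simp only [List.mem_cons, List.not_mem_nil, or_false, forall_eq_or_imp, forall_eq, holds_lin,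
      afVal_neg, afVal_append, afVal_onef, linF_val hP v _ ha hb',
      linF_val hP v _ (nx_lt hb') hb']
    constructor
    · rintro ⟨h1, h2⟩ _ _
      exact ⟨fun _ => ⟨by linarith, by linarith⟩, fun h' => absurd c3 h'⟩
    · intro h
      obtain ⟨h1, h2⟩ := (h c1 c2).1 c3
      exact ⟨by linarith, by linarith⟩
  · simp only [List.mem_cons, List.not_mem_nil, or_false, forall_eq_or_imp, forall_eq, holds_lin,
      afVal_neg, afVal_append, afVal_onef, affF_val hP v _ ha, affF_val hP v _ hb',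
      affF_val hP v _ (nx_lt hb'), affF_val hP v _ (nx_lt ha)]
    constructor
    · rintro ⟨h1, h2, h3, h4⟩ _ _
      exact ⟨fun h' => absurd h' c3, fun _ => ⟨by linarith, by linarith, by linarith,
        by linarith⟩⟩
    · intro h
      obtain ⟨h1, h2, h3, h4⟩ := (h c1 c2).2 c3
      exact ⟨by linarith, by linarith, by linarith, by linarith⟩

private theorem simL_iff {P : List (RatCode × RatCode)} (hP : Den P) {v : ℕ → ℝ} :
    (∀ c ∈ simL P, Cone.Holds v c) ↔
      (∀ a < P.length, 1 ≤ dot (w3 v 40 a 0, w3 v 40 a 1)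
        (vert P a - vert P (nx P.length a))) ∧
      ∀ a < P.length, ∀ b < P.length, SepR P.length (vert P) a b
        (w3 v 41 (Nat.pair a b) 0, w3 v 41 (Nat.pair a b) 1) (w3 v 41 (Nat.pair a b) 2) := by
  unfold simL
  simp only [List.mem_append, or_imp, forall_and]
  refine and_congr ?_ ?_
  · simp only [List.mem_map, List.mem_range, forall_exists_index, and_imp,
      forall_apply_eq_imp_iff₂, holds_lin, afVal_neg, afVal_append, afVal_onef, afVal_ent, vv_vi,
      qval_neg]
    refine forall₂_congr fun a ha => ?_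
    rw [qval_dxq hP ha, qval_dyq hP ha]
    unfold dot
    rw [Prod.fst_sub, Prod.snd_sub]
    constructor
    · intro h
      linarith
    · intro h
      linarith
  · constructor
    · intro h a ha b hb'
      rw [← sepL_iff hP ha hb']
      intro c hc
      apply h
      rw [List.mem_flatMap]
      refine ⟨a, List.mem_range.2 ha, ?_⟩
      rw [List.mem_flatMap]
      exact ⟨b, List.mem_range.2 hb', hc⟩
    · intro h φ hφ
      rw [List.mem_flatMap] at hφ
      obtain ⟨a, ha, hφ⟩ := hφ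
      rw [List.mem_flatMap] at hφ
      obtain ⟨b, hb', hφ⟩ := hφ
      rw [List.mem_range] at ha hb'
      exact (sepL_iff hP ha hb').2 (h a ha b hb') φ hφ

theorem simL_sound {P : List (RatCode × RatCode)} (hP : Den P) (hn : 3 ≤ P.length) {v : ℕ → ℝ}
    (h : ∀ c ∈ simL P, Cone.Holds v c) : SimC (polygon P) := by
  rw [simL_iff hP] at h
  obtain ⟨h1, h2⟩ := h
  constructor
  · intro i
    obtain ⟨a, ha, rfl⟩ := exists_nat hn i
    rw [polygon_vert ha, polygon_nx ha]
    intro e
    have h3 := h1 a ha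
    rw [e, sub_self] at h3
    unfold dot at h3
    norm_num at h3
  · intro i j hij hij'
    obtain ⟨a, ha, rfl⟩ := exists_nat hn i
    obtain ⟨b, hb', rfl⟩ := exists_nat hn j
    have e1 : a ≠ b := fun e => hij (by rw [e])
    have e2 : a ≠ nx P.length b := fun e => hij' (by rw [e, cast_nx])
    obtain ⟨h3, h4⟩ := h2 a ha b hb' e1 e2
    rw [polygon_vert ha, polygon_vert hb', polygon_nx ha, polygon_nx hb']
    constructor
    · intro e
      rw [← cast_nx, cast_eq hb' (nx_lt ha)] at e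
      exact ⟨_, h3 e⟩
    · intro e
      have e' : b ≠ nx P.length a := fun e'' => e (by rw [e'', cast_nx])
      exact ⟨_, _, h4 e'⟩

private theorem exists_dual {A B : Pt} (h : A ≠ B) : ∃ β : Pt, 1 ≤ dot β (A - B) := by
  have h1 : (A.1 - B.1) ^ 2 + (A.2 - B.2) ^ 2 ≠ 0 := by
    intro e
    apply h
    have h2 : A.1 - B.1 = 0 := by nlinarith [sq_nonneg (A.1 - B.1), sq_nonneg (A.2 - B.2)]
    have h3 : A.2 - B.2 = 0 := by nlinarith [sq_nonneg (A.1 - B.1), sq_nonneg (A.2 - B.2)]
    exact Prod.ext (by linarith) (by linarith)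
  refine ⟨((A.1 - B.1) / ((A.1 - B.1) ^ 2 + (A.2 - B.2) ^ 2),
    (A.2 - B.2) / ((A.1 - B.1) ^ 2 + (A.2 - B.2) ^ 2)), ?_⟩
  unfold dot
  rw [Prod.fst_sub, Prod.snd_sub]
  simp only
  apply le_of_eq
  field_simp

theorem simL_complete {P : List (RatCode × RatCode)} (hP : Den P) (hn : 3 ≤ P.length)
    (h : SimC (polygon P)) :
    ∃ g : ℕ → ℕ → ℕ → ℝ, ∀ v : ℕ → ℝ, (∀ k i j, 40 ≤ k → w3 v k i j = g k i j) →
      ∀ c ∈ simL P, Cone.Holds v c := by
  obtain ⟨h1, h2⟩ := h
  have key0 : ∀ a : ℕ, ∃ β : Pt, a < P.length →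
      1 ≤ dot β (vert P a - vert P (nx P.length a)) := by
    intro a
    by_cases ha : a < P.length
    · have := h1 a
      rw [polygon_vert ha, polygon_nx ha] at this
      obtain ⟨β, hβ⟩ := exists_dual this
      exact ⟨β, fun _ => hβ⟩
    · exact ⟨(0, 0), fun h => absurd h ha⟩
  have key : ∀ a b : ℕ, ∃ t : Pt × ℝ, a < P.length → b < P.length →
      SepR P.length (vert P) a b t.1 t.2 := by
    intro a b
    by_cases ha : a < P.length
    swap
    · exact ⟨((0, 0), 0), fun h => absurd h ha⟩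
    by_cases hb' : b < P.length
    swap
    · exact ⟨((0, 0), 0), fun _ h => absurd h hb'⟩
    by_cases e1 : a = b
    · exact ⟨((0, 0), 0), fun _ _ h => absurd e1 h⟩
    by_cases e2 : a = nx P.length b
    · exact ⟨((0, 0), 0), fun _ _ _ h => absurd e2 h⟩
    have f1 : (a : ZMod P.length) ≠ b := fun e => e1 ((cast_eq ha hb').1 e)
    have f2 : (a : ZMod P.length) ≠ (b : ZMod P.length) + 1 := fun e => by
      rw [← cast_nx, cast_eq ha (nx_lt hb')] at e
      exact e2 e
    obtain ⟨h3, h4⟩ := h2 a b f1 f2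
    rw [polygon_vert ha, polygon_vert hb', polygon_nx hb'] at h3
    rw [polygon_vert ha, polygon_vert hb', polygon_nx ha, polygon_nx hb'] at h4
    by_cases e3 : b = nx P.length a
    · obtain ⟨α, hα⟩ := h3 (by rw [e3, cast_nx])
      exact ⟨(α, 0), fun _ _ _ _ => ⟨fun _ => hα, fun h => absurd e3 h⟩⟩
    · obtain ⟨α, c, hα⟩ := h4 (fun e => by
        rw [← cast_nx, cast_eq hb' (nx_lt ha)] at e
        exact e3 e)
      exact ⟨(α, c), fun _ _ _ _ => ⟨fun h => absurd h e3, fun _ => hα⟩⟩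
  choose t ht using key
  choose s hs using key0
  refine ⟨fun k i j => if k = 40 then (if j = 0 then (s i).1 else (s i).2)
    else if j = 0 then (t i.unpair.1 i.unpair.2).1.1
    else if j = 1 then (t i.unpair.1 i.unpair.2).1.2 else (t i.unpair.1 i.unpair.2).2, ?_⟩
  intro v hv
  rw [simL_iff hP]
  constructor
  · intro a ha
    rw [hv 40 _ _ le_rfl, hv 40 _ _ le_rfl]
    simp only [if_true, one_ne_zero, if_false]
    exact hs a ha
  · intro a ha b hb'
    rw [hv 41 _ _ (by norm_num), hv 41 _ _ (by norm_num), hv 41 _ _ (by norm_num)]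
    simp only [Nat.unpair_pair, if_true, one_ne_zero, if_false, OfNat.ofNat_ne_zero,
      OfNat.ofNat_ne_one, Nat.reduceEqDiff]
    exact ht a b ha hb'

end Pool.Agent.Helper94.US
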