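import Pool.Agent.Helper94.US.ZoneS
import Pool.Agent.Helper94.US.GuessS
import Pool.Agent.Helper94.US.CertS
import Pool.Agent.Helper94.US.SemCertC
import Pool.Agent.Helper94.US.SemCell
import Pool.Agent.Helper94.US.SemSimS
import Pool.Agent.Helper94.UR.Zone
import Pool.Agent.Helper94.UR.SimpleC
import Pool.Agent.Helper94.UR.Packs

/-!
# Packings and the second-order cone programs
-/

set_option autoImplicit false

namespace Pool.Agent.Helper94.US

open Pool.Agent.Helper20.Flip Pool.Agent.Helper94.UR Pool.Agent.Helper97.UDP Topology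

theorem rho_spec (P : List (RatCode × RatCode)) (a : ℕ) :
    0 ≤ rho P a ∧ rho P a ^ 2 = d2 (vert P a) (vert P (nx P.length a)) := by
  unfold rho
  exact ⟨Real.sqrt_nonneg _, Real.sq_sqrt (by unfold d2; positivity)⟩

/-- a solution of the program gives a packing -/
theorem packs_of_sysL {P : List (RatCode × RatCode)} (hP : Den P) (hn : 3 ≤ P.length) {m : ℕ}
    {y : List Bool} (hb : okB P.length m y = true) {v : ℕ → ℝ}
    (h : ∀ c ∈ sysL P m y, Cone.Holds v c) : IsSimple (polygon P) ∧ Packs (polygon P) m := by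
  have h1 : ∀ c ∈ certL P m y, Cone.Holds v c := fun c hc =>
    h c (List.mem_append.2 (Or.inl hc))
  have h2 : ∀ c ∈ cellL P m y, Cone.Holds v c := fun c hc =>
    h c (List.mem_append.2 (Or.inr (List.mem_append.2 (Or.inl hc))))
  have h3 : ∀ c ∈ simL P, Cone.Holds v c := fun c hc =>
    h c (List.mem_append.2 (Or.inr (List.mem_append.2 (Or.inr hc))))
  have hV : IsSimple (polygon P) := (simC_iff hn).1 (simL_sound hP hn h3)
  have h4 := cert_sound (rho_spec P) (As_subset P.length m y) (fun k hk => Zs_valid hk)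
    (certL_sound hP h1)
  set x : ℕ → Pt := fun l => (w3 v 3 l 0, w3 v 3 l 1) with hx
  rw [forall_Zs (p := fun c => 0 ≤ qS P.length (vert P) (rho P) x c)] at h4
  obtain ⟨h5, h6, h7⟩ := consS_iff (fun a _ => rfl) h4
  refine ⟨hV, fun l => x l, fun l => ?_, fun i j hij => ?_⟩
  · rw [disk_iff_vert hV]
    refine ⟨?_, h5 l l.2⟩
    have h8 := cellL_sound hP hb h2 l.2
    have h9 : bOk P.length (bt y 2 l) (bt y 3 l) (cnt P.length y 4 l) (cnt P.length y 5 l) =
        true := by
      unfold okB at hb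
      rw [List.all_eq_true] at hb
      exact hb l (List.mem_range.2 l.2)
    exact cellR_region hV h9 h8 (h7 l l.2)
  · rcases lt_trichotomy (i : ℕ) (j : ℕ) with h | h | h
    · have := h6 j j.2 i h
      rw [d2_comm] at this
      exact this
    · exact absurd (Fin.ext h) hij
    · exact h6 i i.2 j h

theorem rgt_congr {n : ℕ} {τ τ' : ℕ → Bool} (h : ∀ a < n, τ a = τ' a) {a : ℕ} (ha : a < n) :
    rgt n τ a = rgt n τ' a := by
  unfold rgt
  rw [h a ha, h _ (nx_lt ha)]

theorem upB_congr {n : ℕ} {σ σ' τ τ' : ℕ → Bool} (h : ∀ a < n, τ a = τ' a)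
    (h' : ∀ a < n, σ a = σ' a) {a : ℕ} (ha : a < n) : upB n σ τ a = upB n σ' τ' a := by
  unfold upB lft
  rw [rgt_congr h ha, h a ha, h _ (nx_lt ha), h' a ha]

theorem bOk_congr {n : ℕ} {σ σ' τ τ' : ℕ → Bool} (h : ∀ a < n, τ a = τ' a)
    (h' : ∀ a < n, σ a = σ' a) {lo hi : ℕ} (hb : bOk n σ' τ' lo hi = true) :
    bOk n σ τ lo hi = true := by
  unfold bOk at hb ⊢
  simp only [Bool.and_eq_true, decide_eq_true_eq] at hb ⊢
  obtain ⟨⟨h1, h2⟩, ⟨h3, h4⟩, h5⟩ := hb
  rw [upB_congr h h' h1, upB_congr h h' h2, rgt_congr h h1, rgt_congr h h2]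
  exact ⟨⟨h1, h2⟩, ⟨h3, h4⟩, h5⟩

theorem cellR_congr {n : ℕ} {V : ℕ → Pt} {σ σ' τ τ' : ℕ → Bool} (h : ∀ a < n, τ a = τ' a)
    (h' : ∀ a < n, σ a = σ' a) {lo hi : ℕ} {p : Pt} {y y' : ℝ}
    (hc : CellR n V σ' τ' lo hi p y y') : CellR n V σ τ lo hi p y y' := by
  obtain ⟨h1, h2, h3, h4, h5⟩ := hc
  refine ⟨fun a ha => ?_, fun a ha => ?_, h3, h4, fun e he hu => ?_⟩
  · rw [h' a ha]
    exact h1 a ha
  · rw [h a ha]
    exact h2 a ha
  · rw [rgt_congr h he]
    rw [upB_congr h h' he] at hu
    exact h5 e he hu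

/-- values of the variables from three groups -/
noncomputable def mk3 (g g' g'' : ℕ → ℕ → ℕ → ℝ) : ℕ → ℝ :=
  n3 fun k i j => if k < 30 then g k i j else if k < 40 then g' k i j else g'' k i j

/-- a packing gives a guess and a solution of the program -/
theorem exists_sysL {P : List (RatCode × RatCode)} (hP : Den P) {m : ℕ}
    (hV : IsSimple (polygon P)) (hp : Packs (polygon P) m) :
    ∃ y : List Bool, y.length ≤ bndS P.length m ∧ okB P.length m y = true ∧
      ∃ v : ℕ → ℝ, ∀ c ∈ sysL P m y, Cone.Holds v c := by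
  classical
  obtain ⟨c, hc, hd⟩ := hp
  set x : ℕ → Pt := ext0 c with hx
  have hxl : ∀ (l : ℕ) (hl : l < m), x l = c ⟨l, hl⟩ := by
    intro l hl
    rw [hx, ext0, dif_pos hl]
  have hreg : ∀ l < m, x l ∈ region (polygon P) ∧
      ∀ a < P.length, Zones (vert P a) (vert P (nx P.length a)) (x l) := by
    intro l hl
    rw [← disk_iff_vert hV, hxl l hl]
    exact hc _
  have hncurve : ∀ l < m, x l ∉ curve (polygon P) := by
    intro l hl
    exact (near_same hV ((far_iff_vert hV _).2 (hreg l hl).2) (p := x l) (by simp [d2])).1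
  have hpair : ∀ i < m, ∀ j < i, 4 ≤ d2 (x i) (x j) := by
    intro i hi j hj
    rw [hxl i hi, hxl j (by omega)]
    exact hd _ _ (by
      intro h
      have := congrArg Fin.val h
      simp only at this
      omega)
  -- zones
  have hz : ∀ i a, ∃ b b', i < m → a < P.length → ∀ c ∈ zoneS P.length i a b b',
      0 ≤ qS P.length (vert P) (rho P) x c := by
    intro i a
    by_cases hi : i < m
    · by_cases ha : a < P.length
      · obtain ⟨b, b', h⟩ := (zoneS_iff (n := P.length) (ρ := rho P) (x := x) (V := vert P)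
          (i := i) (a := a) rfl).2 ((hreg i hi).2 a ha)
        exact ⟨b, b', fun _ _ => h⟩
      · exact ⟨true, true, fun _ h => absurd h ha⟩
    · exact ⟨true, true, fun h => absurd h hi⟩
  choose b b' hbb using hz
  -- cells
  have hcell : ∀ l, ∃ (σ τ : ℕ → Bool) (lo hi : ℕ) (p : Pt) (y₁ y₂ : ℝ), l < m →
      bOk P.length σ τ lo hi = true ∧ CellR P.length (vert P) σ τ lo hi p y₁ y₂ ∧
      ∀ a < P.length, (σ a = true → 0 ≤ cross (vert P a) (vert P (nx P.length a)) (x l)) ∧
        (σ a = false → cross (vert P a) (vert P (nx P.length a)) (x l) ≤ 0) := by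
    intro l
    by_cases hl : l < m
    · obtain ⟨σ, τ, lo, hi, p, y₁, y₂, h⟩ := cellR_complete hV (hreg l hl).1 (hncurve l hl)
      exact ⟨σ, τ, lo, hi, p, y₁, y₂, fun _ => h⟩
    · exact ⟨fun _ => true, fun _ => true, 0, 0, 0, 0, 0, fun h => absurd h hl⟩
  choose σ τ lo hi p y₁ y₂ hcell using hcell
  have hlo : ∀ l < m, lo l < P.length ∧ hi l < P.length := by
    intro l hl
    have h1 := (hcell l hl).1
    unfold bOk at h1
    simp only [Bool.and_eq_true, decide_eq_true_eq] at h1
    exact h1.1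
  -- the selection
  have hsel : ∀ Z : List Con, ∃ K : Finset ℕ, K ⊆ Finset.range Z.length ∧
      ((∀ c ∈ Z, SValid P.length m c) →
        (∀ c ∈ Z, 0 ≤ qS P.length (vert P) (rho P) x c) →
        (∀ x : ℕ → Pt, (∀ c ∈ Z, 0 ≤ qS P.length (vert P) (rho P) x c) →
          ∀ l < m, x l ∈ region (polygon P)) →
        ∃ x, Cert P.length m (vert P) (rho P) (fun k => Z.getD k default)
          (Finset.range Z.length) K x) := by
    intro Z
    by_cases hZ1 : (∀ c ∈ Z, SValid P.length m c) ∧
        (∀ c ∈ Z, 0 ≤ qS P.length (vert P) (rho P) x c) ∧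
        (∀ x : ℕ → Pt, (∀ c ∈ Z, 0 ≤ qS P.length (vert P) (rho P) x c) →
          ∀ l < m, x l ∈ region (polygon P))
    · obtain ⟨h1, h2, h3⟩ := hZ1
      have hget : ∀ k ∈ Finset.range Z.length, Z.getD k default ∈ Z := by
        intro k hk
        rw [Finset.mem_range] at hk
        rw [List.getD_eq_getElem _ _ hk]
        exact List.getElem_mem hk
      have hall : ∀ z : ℕ → Pt, (∀ k ∈ Finset.range Z.length,
          0 ≤ qS P.length (vert P) (rho P) z (Z.getD k default)) →
          ∀ c ∈ Z, 0 ≤ qS P.length (vert P) (rho P) z c := by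
        intro z hz c hc
        obtain ⟨k, hk, rfl⟩ := List.getElem_of_mem hc
        have := hz k (Finset.mem_range.2 hk)
        rwa [List.getD_eq_getElem _ _ hk] at this
      obtain ⟨K, hK, z, h4⟩ := cert_complete (n := P.length) (m := m) (V := vert P)
        (ρ := rho P) (rho_spec P) (Z := fun k => Z.getD k default)
        (N := Finset.range Z.length) (fun k hk => h1 _ (hget k hk)) (isCompact_region hV)
        (fun z hz => h3 z (hall z hz)) ⟨x, fun k hk => h2 _ (hget k hk)⟩
      exact ⟨K, hK, fun _ _ _ => ⟨z, h4⟩⟩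
    · exact ⟨∅, Finset.empty_subset _, fun h1 h2 h3 => absurd ⟨h1, h2, h3⟩ hZ1⟩
  choose K hK1 hK2 using hsel
  obtain ⟨y, hy, hyb, hyc, hyK⟩ := exists_guessS P.length m b b' σ τ lo hi
    (fun l hl => (hlo l hl).1.le) (fun l hl => (hlo l hl).2.le) K hK1
  have hbok : ∀ l < m, bOk P.length (bt y 2 l) (bt y 3 l) (cnt P.length y 4 l)
      (cnt P.length y 5 l) = true := by
    intro l hl
    rw [(hyc l hl).1, (hyc l hl).2]
    exact bOk_congr (fun a ha => (hyb l hl a ha).2.2.2) (fun a ha => (hyb l hl a ha).2.2.1)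
      (hcell l hl).1
  have hcr : ∀ l < m, CellR P.length (vert P) (bt y 2 l) (bt y 3 l) (cnt P.length y 4 l)
      (cnt P.length y 5 l) (p l) (y₁ l) (y₂ l) := by
    intro l hl
    rw [(hyc l hl).1, (hyc l hl).2]
    exact cellR_congr (fun a ha => (hyb l hl a ha).2.2.2) (fun a ha => (hyb l hl a ha).2.2.1)
      (hcell l hl).2.1
  have hok : okB P.length m y = true := by
    unfold okB
    rw [List.all_eq_true]
    intro l hl
    exact hbok l (List.mem_range.1 hl)
  refine ⟨y, hy, hok, ?_⟩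
  obtain ⟨z, hcert⟩ := hK2 (consS P.length m y) (fun c hc => consS_valid hc) (by
      intro c hc
      rcases mem_consS.1 hc with ⟨i, hi, j, hj, rfl⟩ | ⟨l, hl, a, ha, h | rfl⟩
      · rw [qS_zero]
        have := hpair i hi j hj
        linarith
      · rw [(hyb l hl a ha).1, (hyb l hl a ha).2.1] at h
        exact hbb l a hl ha c h
      · have h1 := (hcell l hl).2.2 a ha
        rw [(hyb l hl a ha).2.2.1]
        by_cases hs : σ l a = true
        · rw [if_pos hs, qS_six]
          exact h1.1 hs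
        · rw [if_neg hs, qS_seven]
          have := h1.2 (by simpa using hs)
          linarith)
    (by
      intro z hz l hl
      exact cellR_region hV (hbok l hl) (hcr l hl) ((consS_iff (fun a _ => rfl) hz).2.2 l hl))
  rw [← hyK] at hcert
  obtain ⟨g, hg⟩ := certL_complete hP hcert
  obtain ⟨g', hg'⟩ := cellL_complete hP hok (fun l hl => ⟨p l, y₁ l, y₂ l, hcr l hl⟩)
  obtain ⟨g'', hg''⟩ := simL_complete hP hV.1 ((simC_iff hV.1).2 hV)
  refine ⟨mk3 g g' g'', ?_⟩
  intro c hc
  rcases List.mem_append.1 hc with h | h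
  · refine hg _ ?_ c h
    intro k i j hk
    simp [mk3, hk]
  · rcases List.mem_append.1 h with h | h
    · refine hg' _ ?_ c h
      intro k i j hk hk'
      simp only [mk3, w3_n3]
      rw [if_neg (by omega), if_pos hk']
    · refine hg'' _ ?_ c h
      intro k i j hk
      simp only [mk3, w3_n3]
      rw [if_neg (by omega), if_neg (by omega)]

end Pool.Agent.Helper94.US
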