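import Pool.Agent.Helper94.US.SemDual
import Pool.Agent.Helper94.US.ConsS

/-!
# The meaning of the cones: certificates, soundness
-/

set_option autoImplicit false

namespace Pool.Agent.Helper94.US

open Pool.Agent.Helper20.Flip Pool.Agent.Helper94.UR

private theorem h72_zero {P : List (RatCode × RatCode)} {c : Con} (h0 : c.1 = 0) (v : ℕ → ℝ) :
    (primC P c).Holds v ↔
      qS P.length (vert P) (rho P) (fun l => (w3 v 3 l 0, w3 v 3 l 1)) c ≤ 0 := by
  unfold primC qS Cone.Holds af4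
  rw [if_pos h0, if_pos h0]
  simp only [afVal_append, afVal_neg, afVal_vr, afVal_onef, d2]
  constructor
  · rintro ⟨h1, -, -⟩
    linarith
  · intro h1
    exact ⟨by linarith, by norm_num, by norm_num⟩

private theorem h72_one {P : List (RatCode × RatCode)} (hP : Den P) {m : ℕ} {c : Con}
    (hc : SValid P.length m c) (h1 : c.1 = 1) (v : ℕ → ℝ) :
    (primC P c).Holds v ↔
      qS P.length (vert P) (rho P) (fun l => (w3 v 3 l 0, w3 v 3 l 1)) c ≤ 0 := by
  have ha : c.2.2 < P.length := by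
    rcases hc with ⟨h0, -, -, -⟩ | ⟨-, -, -, ha⟩
    · omega
    · exact ha
  have h0 : c.1 ≠ 0 := by omega
  unfold primC qS Cone.Holds
  rw [if_neg h0, if_neg h0, if_pos h1, if_pos h1]
  unfold sα sr se
  rw [if_pos h1, if_pos h1, if_neg (by omega : ¬ c.1 = 3)]
  simp only [afVal_append, afVal_vr, afVal_ent, afVal_onef, d2, dot, qval_neg, vv_zero,
    qval_vxq hP ha, qval_vyq hP ha]
  constructor
  · rintro ⟨h2, -, -⟩
    nlinarith
  · intro h2
    exact ⟨by nlinarith, by norm_num, by norm_num⟩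

private theorem h72_two {P : List (RatCode × RatCode)} (hP : Den P) {m : ℕ} {c : Con}
    (hc : SValid P.length m c) (h1 : 2 ≤ c.1) (v : ℕ → ℝ) :
    (primC P c).Holds v ↔
      qS P.length (vert P) (fun a => w3 v 1 a 0) (fun l => (w3 v 3 l 0, w3 v 3 l 1)) c ≤ 0 := by
  have ha : c.2.2 < P.length := by
    rcases hc with ⟨h0, -, -, -⟩ | ⟨-, -, -, ha⟩
    · omega
    · exact ha
  have h0 : c.1 ≠ 0 := by omega
  have h01 : c.1 ≠ 1 := by omega
  have e1 := qval_αq hP h1 ha
  have e2 := qval_αrq hP h1 ha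
  unfold primC qS
  rw [if_neg h0, if_neg h0, if_neg h01, if_neg h01, holds_lin]
  unfold se
  rw [if_neg h01]
  simp only [afVal_append, afVal_neg, afVal_ent, vv_vi, vv_zero, e1.1, e1.2, e2]
  unfold dot
  simp only [Prod.fst_sub, Prod.snd_sub]
  by_cases h4 : c.1 = 4 ∨ c.1 = 5
  · rw [if_pos h4, if_pos h4, afVal_vr]
    constructor <;> intro h5 <;> nlinarith
  · rw [if_neg h4, if_neg h4, afVal_nil]
    constructor <;> intro h5 <;> nlinarith

/-- the cone of a constraint in the set of tight constraints, for a number `r ≤ rho` -/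
theorem primC_sound {P : List (RatCode × RatCode)} (hP : Den P) {m : ℕ} {c : Con}
    (hc : SValid P.length m c) {v : ℕ → ℝ}
    (hr : ∀ a < P.length, w3 v 1 a 0 ≤ rho P a) (h : (primC P c).Holds v) :
    qS P.length (vert P) (rho P) (fun l => (w3 v 3 l 0, w3 v 3 l 1)) c ≤ 0 := by
  rcases Nat.lt_or_ge c.1 2 with h2 | h2
  · rcases (by omega : c.1 = 0 ∨ c.1 = 1) with h0 | h1
    · exact (h72_zero h0 v).1 h
    · exact (h72_one hP hc h1 v).1 h
  · have ha : c.2.2 < P.length := by
      rcases hc with ⟨h0, -, -, -⟩ | ⟨-, -, -, ha⟩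
      · omega
      · exact ha
    have h3 := (h72_two hP hc h2 v).1 h
    have h4 := hr c.2.2 ha
    unfold qS se at h3 ⊢
    have h0 : c.1 ≠ 0 := by omega
    have h01 : c.1 ≠ 1 := by omega
    rw [if_neg h0, if_neg h01, if_neg h01] at h3 ⊢
    split_ifs at h3 ⊢
    · linarith
    · exact h3

theorem primC_complete {P : List (RatCode × RatCode)} (hP : Den P) {m : ℕ} {c : Con}
    (hc : SValid P.length m c) {v : ℕ → ℝ}
    (hr : ∀ a < P.length, w3 v 1 a 0 = rho P a)
    (h : qS P.length (vert P) (rho P) (fun l => (w3 v 3 l 0, w3 v 3 l 1)) c ≤ 0) :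
    (primC P c).Holds v := by
  rcases Nat.lt_or_ge c.1 2 with h2 | h2
  · rcases (by omega : c.1 = 0 ∨ c.1 = 1) with h0 | h1
    · exact (h72_zero h0 v).2 h
    · exact (h72_one hP hc h1 v).2 h
  · have ha : c.2.2 < P.length := by
      rcases hc with ⟨h0, -, -, -⟩ | ⟨-, -, -, ha⟩
      · omega
      · exact ha
    refine (h72_two hP hc h2 v).2 ?_
    have h4 := hr c.2.2 ha
    unfold qS se at h ⊢
    have h0 : c.1 ≠ 0 := by omega
    have h01 : c.1 ≠ 1 := by omega
    rw [if_neg h0, if_neg h01, if_neg h01] at h ⊢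
    split_ifs at h ⊢
    · linarith
    · exact h

theorem lenL_iff {P : List (RatCode × RatCode)} (hP : Den P) (v : ℕ → ℝ) :
    (∀ c ∈ lenL P, Cone.Holds v c) ↔
      ∀ a < P.length, w3 v 1 a 0 ^ 2 ≤ d2 (vert P a) (vert P (nx P.length a)) := by
  unfold lenL
  simp only [List.forall_mem_map, List.mem_range]
  refine forall_congr' fun a => imp_congr_right fun ha => ?_
  have h1 := qok_dxq hP a
  have h2 := qok_dyq hP a
  unfold Cone.Holds
  simp only [afVal_vr, afVal_nil, afVal_ent, afVal_onef, vv_zero,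
    qval_add (qok_mul h1 h1) (qok_mul h2 h2), qval_mul h1 h1, qval_mul h2 h2,
    qval_dxq hP ha, qval_dyq hP ha, d2]
  constructor
  · rintro ⟨h3, -, -⟩
    nlinarith
  · intro h3
    refine ⟨by nlinarith, ?_, by norm_num⟩
    rw [mul_one]
    exact add_nonneg (mul_self_nonneg _) (mul_self_nonneg _)

private theorem h72_sq {m : ℕ} {v : ℕ → ℝ} : (∀ c ∈ sqL m, Cone.Holds v c) ↔
    (∀ l < m, dot (w3 v 3 l 0, w3 v 3 l 1) (w3 v 3 l 0, w3 v 3 l 1) ≤ w3 v 8 l 0) ∧
      ∑ l ∈ Finset.range m, w3 v 8 l 0 ≤ w3 v 9 0 0 := by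
  unfold sqL
  rw [List.forall_mem_append, List.forall_mem_singleton, holds_lin, afVal_append, afVal_neg,
    afVal_vr, afVal_flatMap]
  refine and_congr ?_ ?_
  · simp only [List.forall_mem_map, List.mem_range]
    refine forall_congr' fun l => imp_congr_right fun _ => ?_
    unfold Cone.Holds
    simp only [afVal_vr, afVal_onef, dot]
    constructor
    · rintro ⟨h1, -, -⟩
      nlinarith
    · intro h1
      have h2 := mul_self_nonneg (w3 v 3 l 0)
      have h3 := mul_self_nonneg (w3 v 3 l 1)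
      exact ⟨by nlinarith, by linarith, by norm_num⟩
  · have h2 : ((List.range m).map fun l => afVal v (vr 8 l 0)).sum =
        ∑ l ∈ Finset.range m, w3 v 8 l 0 := by
      rw [← List.sum_toFinset _ List.nodup_range, List.toFinset_range]
      simp only [afVal_vr]
    rw [h2]
    constructor <;> intro h3 <;> linarith

theorem sqL_sound {m : ℕ} {v : ℕ → ℝ} (h : ∀ c ∈ sqL m, Cone.Holds v c) :
    ∑ l ∈ Finset.range m, dot (w3 v 3 l 0, w3 v 3 l 1) (w3 v 3 l 0, w3 v 3 l 1) ≤ w3 v 9 0 0 := by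
  obtain ⟨h1, h2⟩ := h72_sq.1 h
  exact (Finset.sum_le_sum fun l hl => h1 l (Finset.mem_range.1 hl)).trans h2

theorem sqL_complete {m : ℕ} {v : ℕ → ℝ}
    (h1 : ∀ l < m, w3 v 8 l 0 = dot (w3 v 3 l 0, w3 v 3 l 1) (w3 v 3 l 0, w3 v 3 l 1))
    (h2 : ∑ l ∈ Finset.range m, dot (w3 v 3 l 0, w3 v 3 l 1) (w3 v 3 l 0, w3 v 3 l 1) ≤
      w3 v 9 0 0) : ∀ c ∈ sqL m, Cone.Holds v c := by
  refine h72_sq.2 ⟨fun l hl => (h1 l hl).ge, ?_⟩
  rw [Finset.sum_congr rfl fun l hl => h1 l (Finset.mem_range.1 hl)]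
  exact h2

theorem certL_sound {P : List (RatCode × RatCode)} (hP : Den P) {m : ℕ} {y : List Bool}
    {v : ℕ → ℝ} (h : ∀ c ∈ certL P m y, Cone.Holds v c) :
    Cert P.length m (vert P) (rho P) (Zs P.length m y) (Ns P.length m y) (As P.length m y)
      (fun l => (w3 v 3 l 0, w3 v 3 l 1)) := by
  unfold certL at h
  rw [List.forall_mem_append, List.forall_mem_append, List.forall_mem_append,
    List.forall_mem_append, List.forall_mem_append] at h
  obtain ⟨⟨h1, h2, h3⟩, ⟨h4, h5⟩, h6⟩ := h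
  have hselN : ∀ k ∈ selS P.length m y, k ∈ Ns P.length m y := fun k hk =>
    As_subset _ _ _ (List.mem_toFinset.2 hk)
  have hselnd : (selS P.length m y).Nodup := List.Nodup.filter _ List.nodup_range
  have hr : ∀ a < P.length, w3 v 1 a 0 ≤ rho P a := fun a ha =>
    Real.le_sqrt_of_sq_le ((lenL_iff hP v).1 h1 a ha)
  refine ⟨w3 v 9 0 0, fun k hk => ?_, sqL_sound h3, ?_, fun k hk hkA => ?_⟩
  · have hk' : k ∈ selS P.length m y := List.mem_toFinset.1 hk
    exact primC_sound hP (Zs_valid (hselN k hk')) hr (h2 _ (List.mem_map.2 ⟨k, hk', rfl⟩))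
  · have h7 := (dualL_iff hP hselnd (fun k hk => Zs_valid (hselN k hk)) 0 (vr 9 0 0) v).1 h4
    rw [afVal_vr] at h7
    refine ⟨_, _, _, _, _, _, fun k hk => ?_, h7⟩
    have hk' : k ∈ selS P.length m y := List.mem_toFinset.1 hk
    have h8 := pos_of_posC v (h5 _ (List.mem_map.2 ⟨k, hk', rfl⟩))
    rwa [afVal_vr] at h8
  · have hkc : k ∈ cselS P.length m y := by
      unfold cselS
      unfold Ns at hk
      rw [Finset.mem_range] at hk
      rw [List.mem_filter, List.mem_range]
      refine ⟨hk, ?_⟩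
      unfold As selS at hkA
      rw [List.mem_toFinset, List.mem_filter, List.mem_range] at hkA
      cases hb : bt y 6 k 0
      · rfl
      · exact absurd ⟨hk, hb⟩ hkA
    have h7 := fun c hc => h6 c (List.mem_flatMap.2 ⟨k, hkc, hc⟩)
    rw [List.forall_mem_append, List.forall_mem_singleton] at h7
    obtain ⟨h8, h9⟩ := h7
    have hnd : (k :: selS P.length m y).Nodup := by
      rw [List.nodup_cons]
      exact ⟨fun h1 => hkA (List.mem_toFinset.2 h1), hselnd⟩
    have h10 := (dualL_iff hP hnd (fun j hj => by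
      rcases List.mem_cons.1 hj with rfl | hj
      · exact Zs_valid hk
      · exact Zs_valid (hselN j hj)) (k + 1) (vr 19 (k + 1) 0) v).1 h8
    rw [List.toFinset_cons, afVal_vr] at h10
    have h11 := pos_of_posC v h9
    rw [afVal_append, afVal_neg, afVal_vr, afVal_vr] at h11
    exact ⟨w3 v 19 (k + 1) 0, _, _, _, _, _, _, by linarith, h10⟩

end Pool.Agent.Helper94.US
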