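import Pool.Agent.Helper94.US.SemQ

/-!
# The meaning of the cones: dual certificates
-/

set_option autoImplicit false

namespace Pool.Agent.Helper94.US

open Pool.Agent.Helper20.Flip Pool.Agent.Helper94.UR

private theorem dGF_val {P : List (RatCode × RatCode)} (hP : Den P) {m : ℕ} {c : Con}
    (hc : SValid P.length m c) (d k l : ℕ) (v : ℕ → ℝ) (cmp : Bool) :
    afVal v (dGF P c d k l cmp) =
      (if cmp then (dG P.length (vert P) c (w3 v 10 d k) (w3 v 12 d k, w3 v 13 d k) l).1
        else (dG P.length (vert P) c (w3 v 10 d k) (w3 v 12 d k, w3 v 13 d k) l).2) := by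
  unfold dGF dG
  rcases hc with ⟨h0, -, -, -⟩ | ⟨h1, -, -, ha⟩
  · rw [if_pos h0, if_pos h0]
    by_cases hl : l = c.2.1
    · rw [if_pos hl, if_pos hl]
      cases cmp <;> simp <;> ring
    · rw [if_neg hl, if_neg hl]
      by_cases hl' : l = c.2.2
      · rw [if_pos hl', if_pos hl']
        cases cmp <;> simp <;> ring
      · rw [if_neg hl', if_neg hl']
        cases cmp <;> simp
  · have h0 : c.1 ≠ 0 := by omega
    rw [if_neg h0, if_neg h0]
    by_cases hl : l = c.2.1
    · rw [if_pos hl, if_pos hl]
      by_cases h2 : c.1 = 1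
      · rw [if_pos h2, if_pos h2]
        cases cmp <;> simp <;> ring
      · rw [if_neg h2, if_neg h2]
        have h3 := qval_αq hP (k := c.1) (a := c.2.2) (by omega) ha
        cases cmp
        · simp [h3.2]
          ring
        · simp [h3.1]
          ring
    · rw [if_neg hl, if_neg hl]
      cases cmp <;> simp

private theorem dWF_val {P : List (RatCode × RatCode)} (hP : Den P) {m : ℕ} {c : Con}
    (hc : SValid P.length m c) (d k : ℕ) (v : ℕ → ℝ) :
    afVal v (dWF P c d k) =
      dW P.length (vert P) c (w3 v 10 d k) (w3 v 11 d k) (w3 v 14 d k)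
        (w3 v 12 d k, w3 v 13 d k) := by
  unfold dWF dW
  rcases hc with ⟨h0, -, -, -⟩ | ⟨h1, -, -, ha⟩
  · rw [if_pos h0, if_pos h0]
    unfold af4
    simp
    ring
  · have h0 : c.1 ≠ 0 := by omega
    rw [if_neg h0, if_neg h0]
    by_cases h2 : c.1 = 1
    · rw [if_pos h2, if_pos h2]
      simp only [afVal_append, afVal_vr, afVal_ent, vv_vi, qval_vxq hP ha, qval_vyq hP ha, dot]
      ring
    · rw [if_neg h2, if_neg h2]
      rw [afVal_append, afVal_ent, vv_vi, qval_αrq hP (by omega) ha]
      by_cases h4 : c.1 = 4 ∨ c.1 = 5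
      · rw [if_pos h4, if_pos h4, afVal_vr]
        ring
      · rw [if_neg h4, if_neg h4, afVal_nil]
        ring

private theorem mulL_iff {P : List (RatCode × RatCode)} (hP : Den P) {m : ℕ} {c : Con}
    (hc : SValid P.length m c) (d k : ℕ) (v : ℕ → ℝ) :
    (∀ e ∈ mulL P c d k, Cone.Holds v e) ↔
      (0 ≤ w3 v 10 d k ∧
        (c.1 ≤ 1 → dot (w3 v 12 d k, w3 v 13 d k) (w3 v 12 d k, w3 v 13 d k) ≤
          w3 v 10 d k * w3 v 11 d k ∧ 0 ≤ w3 v 11 d k) ∧
        (c.1 = 4 ∨ c.1 = 5 →
          w3 v 10 d k ^ 2 * d2 (vert P c.2.2) (vert P (nx P.length c.2.2)) ≤ w3 v 14 d k ^ 2 ∧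
            0 ≤ w3 v 14 d k)) := by
  unfold mulL
  rw [List.forall_mem_append, List.forall_mem_append, List.forall_mem_singleton, holds_lin,
    afVal_vr]
  refine and_congr_right fun hω => and_congr ?_ ?_
  · by_cases h1 : c.1 ≤ 1
    · rw [if_pos h1, List.forall_mem_singleton]
      unfold Cone.Holds
      simp only [afVal_vr, dot]
      constructor
      · rintro ⟨h2, -, h4⟩ -
        exact ⟨by nlinarith, h4⟩
      · intro h2
        obtain ⟨h3, h4⟩ := h2 h1
        exact ⟨by nlinarith, hω, h4⟩
    · rw [if_neg h1]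
      simp [h1]
  · by_cases h4 : c.1 = 4 ∨ c.1 = 5
    · rw [if_pos h4, List.forall_mem_singleton]
      have ha : c.2.2 < P.length := by
        rcases hc with ⟨h0, -, -, -⟩ | ⟨-, -, -, ha⟩
        · omega
        · exact ha
      unfold Cone.Holds
      simp only [afVal_vr, afVal_ent, vv_vi, qval_dxq hP ha, qval_dyq hP ha, d2]
      constructor
      · rintro ⟨h5, h6, -⟩ -
        exact ⟨by nlinarith, h6⟩
      · intro h5
        obtain ⟨h6, h7⟩ := h5 h4
        exact ⟨by nlinarith, h7, h7⟩
    · rw [if_neg h4]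
      simp [h4]

/-- the dual certificate with the index `d` read off from the values of the variables -/
theorem dualL_iff {P : List (RatCode × RatCode)} (hP : Den P) {m : ℕ} {Z : List Con}
    {S : List ℕ} (hS : S.Nodup) (hZ : ∀ k ∈ S, SValid P.length m (Z.getD k default)) (d : ℕ)
    (T : AF) (v : ℕ → ℝ) :
    (∀ c ∈ dualL P m Z S d T, Cone.Holds v c) ↔
      DC P.length m (vert P) (fun k => Z.getD k default) S.toFinset (afVal v T)
        (fun k => w3 v 10 d k) (fun k => w3 v 11 d k) (fun k => w3 v 14 d k)
        (fun k => (w3 v 12 d k, w3 v 13 d k)) (fun l => w3 v 15 d l)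
        (fun l => (w3 v 16 d l, w3 v 17 d l)) := by
  unfold dualL DC
  rw [List.forall_mem_append, List.forall_mem_append, List.forall_mem_append,
    List.forall_mem_singleton, holds_lin]
  refine and_congr ?_ (and_congr ?_ (and_congr ?_ ?_))
  · simp only [List.forall_mem_map, List.mem_range]
    refine forall_congr' fun l => imp_congr_right fun _ => ?_
    unfold Cone.Holds
    simp only [afVal_vr, afVal_onef, dot]
    constructor
    · rintro ⟨h1, -, -⟩
      nlinarith
    · intro h1
      have h2 := mul_self_nonneg (w3 v 16 d l)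
      have h3 := mul_self_nonneg (w3 v 17 d l)
      exact ⟨by nlinarith, by linarith, by norm_num⟩
  · simp only [List.mem_toFinset]
    constructor
    · intro h k hk
      exact (mulL_iff hP (hZ k hk) d k v).1
        (fun e he => h e (List.mem_flatMap.2 ⟨k, hk, he⟩))
    · intro h e he
      obtain ⟨k, hk, he⟩ := List.mem_flatMap.1 he
      exact (mulL_iff hP (hZ k hk) d k v).2 (h k hk) e he
  · have key : ∀ l, (∀ c ∈ (eqz ((vr 16 d l ++ vr 16 d l) ++
          S.flatMap fun k => dGF P (Z.getD k default) d k l true) ++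
        eqz ((vr 17 d l ++ vr 17 d l) ++
          S.flatMap fun k => dGF P (Z.getD k default) d k l false)), Cone.Holds v c) ↔
        (2 : ℝ) • (w3 v 16 d l, w3 v 17 d l) + ∑ k ∈ S.toFinset, dG P.length (vert P)
          (Z.getD k default) (w3 v 10 d k) (w3 v 12 d k, w3 v 13 d k) l = 0 := by
      intro l
      rw [List.forall_mem_append, holds_eqz, holds_eqz]
      simp only [afVal_append, afVal_vr, afVal_flatMap]
      have h1 : (S.map fun k => afVal v (dGF P (Z.getD k default) d k l true)).sum =
          ∑ k ∈ S.toFinset, (dG P.length (vert P) (Z.getD k default) (w3 v 10 d k)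
            (w3 v 12 d k, w3 v 13 d k) l).1 := by
        rw [List.sum_toFinset _ hS]
        congr 1
        refine List.map_congr_left fun k hk => ?_
        rw [dGF_val hP (hZ k hk)]
        simp
      have h2 : (S.map fun k => afVal v (dGF P (Z.getD k default) d k l false)).sum =
          ∑ k ∈ S.toFinset, (dG P.length (vert P) (Z.getD k default) (w3 v 10 d k)
            (w3 v 12 d k, w3 v 13 d k) l).2 := by
        rw [List.sum_toFinset _ hS]
        congr 1
        refine List.map_congr_left fun k hk => ?_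
        rw [dGF_val hP (hZ k hk)]
        simp
      rw [h1, h2, Prod.ext_iff]
      simp only [Prod.fst_add, Prod.snd_add, Prod.smul_fst, Prod.smul_snd, smul_eq_mul,
        Prod.fst_sum, Prod.snd_sum, Prod.fst_zero, Prod.snd_zero]
      rw [two_mul, two_mul]
    constructor
    · intro h l hl
      exact (key l).1 (fun e he => h e (List.mem_flatMap.2 ⟨l, List.mem_range.2 hl, he⟩))
    · intro h e he
      obtain ⟨l, hl, he⟩ := List.mem_flatMap.1 he
      exact (key l).2 (h l (List.mem_range.1 hl)) e he
  · simp only [afVal_append, afVal_neg, afVal_flatMap, afVal_vr]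
    have h1 : (S.map fun k => afVal v (dWF P (Z.getD k default) d k)).sum =
        ∑ k ∈ S.toFinset, dW P.length (vert P) (Z.getD k default) (w3 v 10 d k) (w3 v 11 d k)
          (w3 v 14 d k) (w3 v 12 d k, w3 v 13 d k) := by
      rw [List.sum_toFinset _ hS]
      congr 1
      exact List.map_congr_left fun k hk => dWF_val hP (hZ k hk) d k v
    have h2 : ((List.range m).map fun l => w3 v 15 d l).sum =
        ∑ l ∈ Finset.range m, w3 v 15 d l := by
      rw [← List.sum_toFinset _ List.nodup_range, List.toFinset_range]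
    rw [h1, h2]
    constructor <;> intro h3 <;> linarith

end Pool.Agent.Helper94.US
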