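import Pool.Agent.Helper94.US.Gen
import Pool.Agent.Helper94.US.Real
import Pool.Agent.Helper94.UR.Sem

/-!
# The numbers in the program
-/

set_option autoImplicit false

namespace Pool.Agent.Helper94.US

open Pool.Agent.Helper20.Flip Pool.Agent.Helper94.UR

/-- all denominators of the vertices are different from zero -/
def Den (P : List (RatCode × RatCode)) : Prop := ∀ q ∈ P, val q.1.2.2 ≠ 0 ∧ val q.2.2.2 ≠ 0

private theorem getD_dfl {P : List (RatCode × RatCode)} {a : ℕ} (ha : a < P.length) :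
    P.getD a dfl = P.getD a default := by
  rw [List.getD_eq_getElem _ _ ha, List.getD_eq_getElem _ _ ha]

section
variable {P : List (RatCode × RatCode)} (hP : Den P)
include hP

private theorem den_getD (a : ℕ) :
    val (P.getD a dfl).1.2.2 ≠ 0 ∧ val (P.getD a dfl).2.2.2 ≠ 0 := by
  rcases lt_or_ge a P.length with ha | ha
  · rw [List.getD_eq_getElem _ _ ha]
    exact hP _ (List.getElem_mem ha)
  · rw [List.getD_eq_default _ _ ha]
    simp [dfl, val_cons]

theorem qok_vxq (a : ℕ) : qok (vxq P a) := qok_of (den_getD hP a).1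

theorem qok_vyq (a : ℕ) : qok (vyq P a) := qok_of (den_getD hP a).2

theorem qok_dxq (a : ℕ) : qok (dxq P a) := qok_sub (qok_vxq hP _) (qok_vxq hP _)
theorem qok_dyq (a : ℕ) : qok (dyq P a) := qok_sub (qok_vyq hP _) (qok_vyq hP _)

theorem qval_vxq {a : ℕ} (ha : a < P.length) : qval (vxq P a) = (vert P a).1 := by
  have _ := hP
  unfold vxq
  rw [qval_of, getD_dfl ha]
  rfl

theorem qval_vyq {a : ℕ} (ha : a < P.length) : qval (vyq P a) = (vert P a).2 := by
  have _ := hP
  unfold vyq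
  rw [qval_of, getD_dfl ha]
  rfl

theorem qval_dxq {a : ℕ} (ha : a < P.length) :
    qval (dxq P a) = (vert P (nx P.length a)).1 - (vert P a).1 := by
  unfold dxq
  rw [qval_sub (qok_vxq hP _) (qok_vxq hP _), qval_vxq hP (nx_lt ha), qval_vxq hP ha]

theorem qval_dyq {a : ℕ} (ha : a < P.length) :
    qval (dyq P a) = (vert P (nx P.length a)).2 - (vert P a).2 := by
  unfold dyq
  rw [qval_sub (qok_vyq hP _) (qok_vyq hP _), qval_vyq hP (nx_lt ha), qval_vyq hP ha]

theorem qok_αq (k a : ℕ) : qok (αq P k a).1 ∧ qok (αq P k a).2 := by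
  have h1 := qok_dxq hP a
  have h2 := qok_dyq hP a
  unfold αq
  split_ifs
  · exact ⟨qok_neg h1, qok_neg h2⟩
  · exact ⟨h1, h2⟩
  · exact ⟨qok_neg h2, h1⟩
  · exact ⟨h2, qok_neg h1⟩

theorem qok_rq (k a : ℕ) : qok (rq P k a).1 ∧ qok (rq P k a).2 := by
  unfold rq
  split_ifs
  · exact ⟨qok_vxq hP _, qok_vyq hP _⟩
  · exact ⟨qok_vxq hP _, qok_vyq hP _⟩

theorem qok_αrq (k a : ℕ) : qok (αrq P k a) :=
  qok_add (qok_mul (qok_αq hP k a).1 (qok_rq hP k a).1)
    (qok_mul (qok_αq hP k a).2 (qok_rq hP k a).2)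

/-- linear part, reference point and their scalar product, for the kinds different from one -/
theorem qval_αq {k a : ℕ} (hk : 2 ≤ k) (ha : a < P.length) :
    qval (αq P k a).1 = (sα P.length (vert P) k a).1 ∧
      qval (αq P k a).2 = (sα P.length (vert P) k a).2 := by
  have h1 := qval_dxq hP ha
  have h2 := qval_dyq hP ha
  have hk1 : k ≠ 1 := by omega
  unfold αq sα
  rw [if_neg hk1]
  split_ifs
  · constructor <;> simp only [qval_neg, h1, h2] <;> ring
  · exact ⟨h1, h2⟩
  · constructor <;> simp only [qval_neg, h1, h2] <;> ring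
  · constructor <;> simp only [qval_neg, h1, h2] <;> ring

theorem qval_rq {k a : ℕ} (ha : a < P.length) :
    qval (rq P k a).1 = (sr P.length (vert P) k a).1 ∧
      qval (rq P k a).2 = (sr P.length (vert P) k a).2 := by
  unfold rq sr
  split_ifs
  · exact ⟨qval_vxq hP (nx_lt ha), qval_vyq hP (nx_lt ha)⟩
  · exact ⟨qval_vxq hP ha, qval_vyq hP ha⟩

theorem qval_αrq {k a : ℕ} (hk : 2 ≤ k) (ha : a < P.length) :
    qval (αrq P k a) = dot (sα P.length (vert P) k a) (sr P.length (vert P) k a) := by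
  have h1 := qok_αq hP k a
  have h2 := qok_rq hP k a
  have h3 := qval_αq hP hk ha
  have h4 := qval_rq hP (k := k) ha
  unfold αrq dot
  rw [qval_add (qok_mul h1.1 h2.1) (qok_mul h1.2 h2.2), qval_mul h1.1 h2.1, qval_mul h1.2 h2.2,
    h3.1, h3.2, h4.1, h4.2]

theorem afVal_crossF (v : ℕ → ℝ) {a : ℕ} (ha : a < P.length) {ix iy : ℕ} (hx : ix ≠ 0)
    (hy : iy ≠ 0) :
    afVal v (crossF P a ix iy) = cross (vert P a) (vert P (nx P.length a)) (v ix, v iy) := by
  have h1 := qok_dxq hP a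
  have h2 := qok_dyq hP a
  have h3 := qok_vxq hP a
  have h4 := qok_vyq hP a
  have e1 : vv v ix = v ix := by simp [vv, hx]
  have e2 : vv v iy = v iy := by simp [vv, hy]
  unfold crossF cross
  simp only [afVal_append, afVal_ent, e1, e2, vv_zero, qval_neg,
    qval_sub (qok_mul h2 h3) (qok_mul h1 h4), qval_mul h2 h3, qval_mul h1 h4,
    qval_dxq hP ha, qval_dyq hP ha, qval_vxq hP ha, qval_vyq hP ha]
  ring

end

end Pool.Agent.Helper94.US
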