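import Pool.Agent.Helper94.US.ConsS

/-!
# The zone and cell constraints
-/

set_option autoImplicit false

namespace Pool.Agent.Helper94.US

open Pool.Agent.Helper20.Flip Pool.Agent.Helper94.UR

section
variable {n : ℕ} {V : ℕ → Pt} {ρ : ℕ → ℝ} {x : ℕ → Pt} {i a : ℕ}

theorem qS_zero (j : ℕ) : qS n V ρ x (0, i, j) = d2 (x i) (x j) - 4 := by
  simp [qS]

theorem qS_one : qS n V ρ x (1, i, a) = d2 (x i) (V a) - 1 := by
  simp [qS, sα, sr, se, dot]
  ring

theorem qS_two : qS n V ρ x (2, i, a) = dot (V a - V (nx n a)) (x i - V a) := by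
  simp [qS, sα, sr, se, dot]

theorem qS_three : qS n V ρ x (3, i, a) = dot (V (nx n a) - V a) (x i - V (nx n a)) := by
  simp [qS, sα, sr, se, dot]

theorem qS_four : qS n V ρ x (4, i, a) =
    dot ((V a).2 - (V (nx n a)).2, (V (nx n a)).1 - (V a).1) (x i - V a) - ρ a := by
  simp [qS, sα, sr, se, dot]

theorem qS_five : qS n V ρ x (5, i, a) =
    dot ((V (nx n a)).2 - (V a).2, (V a).1 - (V (nx n a)).1) (x i - V a) - ρ a := by
  simp [qS, sα, sr, se, dot]

theorem qS_six : qS n V ρ x (6, i, a) = cross (V a) (V (nx n a)) (x i) := by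
  simp [qS, sα, sr, se, dot, cross]
  ring

theorem qS_seven : qS n V ρ x (7, i, a) = - cross (V a) (V (nx n a)) (x i) := by
  simp [qS, sα, sr, se, dot, cross]
  ring

end

/-- the constraints of the zones -/
theorem zoneS_iff {n : ℕ} {V : ℕ → Pt} {ρ : ℕ → ℝ} {x : ℕ → Pt} {i a : ℕ}
    (hρ : ρ a = √ (d2 (V a) (V (nx n a)))) :
    (∃ b b', ∀ c ∈ zoneS n i a b b', 0 ≤ qS n V ρ x c) ↔ Zones (V a) (V (nx n a)) (x i) := by
  unfold Zones
  rw [← hρ]
  constructor
  · rintro ⟨b, b', h⟩
    cases b
    · cases b'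
      · left
        have h1 := h (1, i, a) (by simp [zoneS])
        have h2 := h (2, i, a) (by simp [zoneS])
        rw [qS_one] at h1
        rw [qS_two] at h2
        exact ⟨by linarith, h2⟩
      · right; left
        have h1 := h (1, i, nx n a) (by simp [zoneS])
        have h2 := h (3, i, a) (by simp [zoneS])
        rw [qS_one] at h1
        rw [qS_three] at h2
        exact ⟨by linarith, h2⟩
    · cases b'
      · right; right; right
        have h1 := h (5, i, a) (by simp [zoneS])
        rwa [qS_five] at h1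
      · right; right; left
        have h1 := h (4, i, a) (by simp [zoneS])
        rwa [qS_four] at h1
  · rintro (⟨h1, h2⟩ | ⟨h1, h2⟩ | h1 | h1)
    · refine ⟨false, false, ?_⟩
      intro c hc
      simp only [zoneS, Bool.false_eq_true, if_false, List.mem_cons, List.not_mem_nil,
        or_false] at hc
      rcases hc with rfl | rfl
      · rw [qS_one]; linarith
      · rw [qS_two]; exact h2
    · refine ⟨false, true, ?_⟩
      intro c hc
      simp only [zoneS, Bool.false_eq_true, if_false, if_true, List.mem_cons, List.not_mem_nil,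
        or_false] at hc
      rcases hc with rfl | rfl
      · rw [qS_one]; linarith
      · rw [qS_three]; exact h2
    · refine ⟨true, true, ?_⟩
      intro c hc
      simp only [zoneS, if_true, List.mem_cons, List.not_mem_nil, or_false] at hc
      subst hc
      rw [qS_four]; exact h1
    · refine ⟨true, false, ?_⟩
      intro c hc
      simp only [zoneS, Bool.false_eq_true, if_false, if_true, List.mem_cons, List.not_mem_nil,
        or_false] at hc
      subst hc
      rw [qS_five]; exact h1

/-- what the constraints say -/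
theorem consS_iff {n m : ℕ} {V : ℕ → Pt} {ρ : ℕ → ℝ} {x : ℕ → Pt} {y : List Bool}
    (hρ : ∀ a < n, ρ a = √ (d2 (V a) (V (nx n a))))
    (h : ∀ c ∈ consS n m y, 0 ≤ qS n V ρ x c) :
    (∀ i < m, ∀ a < n, Zones (V a) (V (nx n a)) (x i)) ∧
      (∀ i < m, ∀ j < i, 4 ≤ d2 (x i) (x j)) ∧
      ∀ l < m, ∀ a < n, (bt y 2 l a = true → 0 ≤ cross (V a) (V (nx n a)) (x l)) ∧
        (bt y 2 l a = false → cross (V a) (V (nx n a)) (x l) ≤ 0) := by
  refine ⟨?_, ?_, ?_⟩
  · intro i hi a ha
    rw [← zoneS_iff (n := n) (ρ := ρ) (x := x) (V := V) (hρ a ha)]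
    exact ⟨_, _, fun c hc => h c (mem_consS.2 (Or.inr ⟨i, hi, a, ha, Or.inl hc⟩))⟩
  · intro i hi j hj
    have h1 := h (0, i, j) (mem_consS.2 (Or.inl ⟨i, hi, j, hj, rfl⟩))
    rw [qS_zero] at h1
    linarith
  · intro l hl a ha
    have h1 := h _ (mem_consS.2 (Or.inr ⟨l, hl, a, ha, Or.inr rfl⟩))
    constructor
    · intro hb
      rw [if_pos hb, qS_six] at h1
      exact h1
    · intro hb
      rw [if_neg (by rw [hb]; simp), qS_seven] at h1
      linarith

end Pool.Agent.Helper94.US
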